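import Pool.Agent.EgO.Defs

/-!
# The automorphisms of the alternating groups are induced by permutations
-/

set_option autoImplicit false

namespace Pool.Agent.EgO

open Equiv

-- BEGIN au0
/-- PROOF. Induction on `j` (`n = 3 j + r`): `(n - 3)! / (n - 3 j)!` is the product of the `3 j - 3` integers `n - 3 j + 1, .., n - 3`; for `j = 2`: `(n - 3) (n - 4) (n - 5) ≥ 120 > 12`. In the step
`j → j + 1` the left side changes by the factor `3 (j + 1) / ((n - 3 j) (n - 3 j - 1) (n - 3 j - 2))`; for small `n - 3 j` do the comparison with `n = 3 j + r` directly (`(3 j - 3 + r)! ≥ r! * ..`). -/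
theorem au0 {n j : ℕ} (hn : 9 ≤ n) (hj : 2 ≤ j) (hjn : 3 * j ≤ n) :
    2 * (3 ^ j * j.factorial * (n - 3 * j).factorial) < 3 * (n - 3).factorial := by
  obtain ⟨k, rfl⟩ : ∃ k, j = k + 1 := ⟨j - 1, by omega⟩
  obtain ⟨r, rfl⟩ := Nat.exists_eq_add_of_le hjn
  have e1 : 3 * (k + 1) + r - 3 * (k + 1) = r := by omega
  have e2 : 3 * (k + 1) + r - 3 = 3 * k + r := by omega
  rw [e1, e2]
  have F3 : ∀ m : ℕ, (m + 3).factorial = (m + 3) * ((m + 2) * ((m + 1) * m.factorial)) := by
    intro m
    show (m + 2 + 1).factorial = _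
    rw [Nat.factorial_succ (m + 2)]
    show (m + 2 + 1) * (m + 1 + 1).factorial = _
    rw [Nat.factorial_succ (m + 1), Nat.factorial_succ m]
  have key : 2 * (3 ^ k * (k + 1).factorial * r.factorial) < (3 * k + r).factorial := by
    rcases Nat.lt_or_ge k 2 with hk | hk
    · have hk1 : k = 1 := by omega
      subst hk1
      have e3 : 3 * 1 + r = r + 3 := by omega
      rw [e3, F3]
      have hr : 3 ≤ r := by omega
      have hf : 0 < r.factorial := Nat.factorial_pos r
      have h1 : 6 * 5 * 4 ≤ (r + 3) * (r + 2) * (r + 1) :=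
        Nat.mul_le_mul (Nat.mul_le_mul (by omega) (by omega)) (by omega)
      have h2 := Nat.mul_le_mul_right r.factorial h1
      have e4 : (1 + 1).factorial = 2 := rfl
      rw [e4]
      nlinarith
    · have h1 : ∀ i : ℕ, 2 ≤ i → 2 * (3 ^ i * (i + 1).factorial) < (3 * i).factorial := by
        intro i hi
        induction i, hi using Nat.le_induction with
        | base => decide
        | succ i hi ih =>
          have e3 : 3 * (i + 1) = 3 * i + 3 := by ring
          rw [e3, F3, Nat.factorial_succ (i + 1), pow_succ]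
          have h2 : 3 * (i + 1 + 1) ≤ (3 * i + 3) * ((3 * i + 2) * (3 * i + 1)) := by
            have h3 : 1 ≤ 3 * i + 1 := by omega
            have h4 : 3 * i + 2 ≤ (3 * i + 2) * (3 * i + 1) := Nat.le_mul_of_pos_right _ h3
            nlinarith
          calc 2 * (3 ^ i * 3 * ((i + 1 + 1) * (i + 1).factorial))
              = 3 * (i + 1 + 1) * (2 * (3 ^ i * (i + 1).factorial)) := by ring
            _ ≤ (3 * i + 3) * ((3 * i + 2) * (3 * i + 1)) *
                (2 * (3 ^ i * (i + 1).factorial)) := Nat.mul_le_mul_right _ h2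
            _ < (3 * i + 3) * ((3 * i + 2) * (3 * i + 1)) * (3 * i).factorial :=
                Nat.mul_lt_mul_of_pos_left ih (by positivity)
            _ = (3 * i + 3) * ((3 * i + 2) * ((3 * i + 1) * (3 * i).factorial)) := by ring
      have h2 : (3 * k).factorial * r.factorial ≤ (3 * k + r).factorial :=
        Nat.le_of_dvd (Nat.factorial_pos _) (Nat.factorial_mul_factorial_dvd_factorial_add _ _)
      have h3 := Nat.mul_lt_mul_of_pos_right (h1 k hk) (Nat.factorial_pos r)
      calc 2 * (3 ^ k * (k + 1).factorial * r.factorial)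
          = 2 * (3 ^ k * (k + 1).factorial) * r.factorial := by ring
        _ < (3 * k).factorial * r.factorial := h3
        _ ≤ _ := h2
  rw [pow_succ]
  calc 2 * (3 ^ k * 3 * (k + 1).factorial * r.factorial)
      = 3 * (2 * (3 ^ k * (k + 1).factorial * r.factorial)) := by ring
    _ < 3 * (3 * k + r).factorial := Nat.mul_lt_mul_of_pos_left key (by norm_num)
-- END au0

-- BEGIN au1
private theorem au1_low {n : ℕ} (x : alternatingGroup (Fin n)) :
    Nat.card (Subgroup.centralizer {(x : Perm (Fin n))}) ≤ 2 * Nat.card (Subgroup.centralizer {x}) := by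
  classical
  let C : Subgroup (Perm (Fin n)) := Subgroup.centralizer {(x : Perm (Fin n))}
  let f : C →* ℤˣ := (Perm.sign : Perm (Fin n) →* ℤˣ).comp C.subtype
  have h1 : Nat.card f.ker * Nat.card f.range = Nat.card C := by
    rw [← Subgroup.index_ker]
    exact f.ker.card_mul_index
  have h2 : Nat.card f.range ≤ 2 := by
    have h3 : Nat.card f.range ≤ Nat.card ℤˣ := Subgroup.card_le_card_group f.range
    have h4 : Nat.card ℤˣ = 2 := by
      rw [Nat.card_eq_fintype_card]
      rfl
    omega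
  have h5 : Nat.card f.ker ≤ Nat.card (Subgroup.centralizer {x}) := by
    have hs : ∀ z : f.ker, Perm.sign ((z : C) : Perm (Fin n)) = 1 := fun z => z.2
    have hc : ∀ z : f.ker, (x : Perm (Fin n)) * ((z : C) : Perm (Fin n)) = ((z : C) : Perm (Fin n)) * x := fun z =>
      Subgroup.mem_centralizer_iff.1 (z : C).2 _ (Set.mem_singleton _)
    refine Nat.card_le_card_of_injective (fun z : f.ker =>
      (⟨⟨((z : C) : Perm (Fin n)), Perm.mem_alternatingGroup.2 (hs z)⟩, ?_⟩ : Subgroup.centralizer {x})) ?_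
    · rw [Subgroup.mem_centralizer_iff]
      intro y hy
      rw [Set.mem_singleton_iff.1 hy]
      exact Subtype.ext (hc z)
    · intro z z' h
      have h6 := congrArg (fun u : Subgroup.centralizer {x} => ((u : alternatingGroup (Fin n)) : Perm (Fin n))) h
      exact Subtype.ext (Subtype.ext h6)
  calc Nat.card C = Nat.card f.ker * Nat.card f.range := h1.symm
    _ ≤ Nat.card (Subgroup.centralizer {x}) * 2 := Nat.mul_le_mul h5 h2
    _ = 2 * Nat.card (Subgroup.centralizer {x}) := mul_comm _ _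

private theorem au1_up {n : ℕ} (x : alternatingGroup (Fin n)) :
    Nat.card (Subgroup.centralizer {x}) ≤ Nat.card (Subgroup.centralizer {(x : Perm (Fin n))}) := by
  refine Nat.card_le_card_of_injective (fun z : Subgroup.centralizer {x} =>
    (⟨((z : alternatingGroup (Fin n)) : Perm (Fin n)), ?_⟩ : Subgroup.centralizer {(x : Perm (Fin n))})) ?_
  · rw [Subgroup.mem_centralizer_iff]
    intro y hy
    rw [Set.mem_singleton_iff.1 hy]
    have h := Subgroup.mem_centralizer_iff.1 z.2 x (Set.mem_singleton _)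
    exact congrArg Subtype.val h
  · intro z z' h
    have h6 := congrArg (fun u : Subgroup.centralizer {(x : Perm (Fin n))} => (u : Perm (Fin n))) h
    exact Subtype.ext (Subtype.ext h6)

private theorem au1_map {n : ℕ} (φ : alternatingGroup (Fin n) ≃* alternatingGroup (Fin n))
    (x : alternatingGroup (Fin n)) :
    Nat.card (Subgroup.centralizer {x}) ≤ Nat.card (Subgroup.centralizer {φ x}) := by
  refine Nat.card_le_card_of_injective (fun z : Subgroup.centralizer {x} =>
    (⟨φ (z : alternatingGroup (Fin n)), ?_⟩ : Subgroup.centralizer {φ x})) ?_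
  · rw [Subgroup.mem_centralizer_iff]
    intro y hy
    rw [Set.mem_singleton_iff.1 hy, ← map_mul, ← map_mul]
    exact congrArg φ (Subgroup.mem_centralizer_iff.1 z.2 x (Set.mem_singleton _))
  · intro z z' h
    have h6 := congrArg (fun u : Subgroup.centralizer {φ x} => (u : alternatingGroup (Fin n))) h
    exact Subtype.ext (φ.injective h6)

private theorem au1_cent {n j : ℕ} (hj : 1 ≤ j) {σ : Perm (Fin n)} (h : σ.cycleType = Multiset.replicate j 3) :
    Nat.card (Subgroup.centralizer {σ}) = (n - 3 * j).factorial * 3 ^ j * j.factorial := by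
  have h3 : (Multiset.replicate j 3).toFinset = {3} := by
    rw [Multiset.toFinset_replicate, if_neg (by omega)]
  rw [Perm.nat_card_centralizer, h, h3, Finset.prod_singleton, Multiset.sum_replicate,
    Multiset.prod_replicate, Multiset.count_replicate_self, Fintype.card_fin, smul_eq_mul, mul_comm j 3]

/-- PROOF. `y = φ x` has order `3`, so it is a product of `j ≥ 1` disjoint `3`-cycles, and `φ` maps the centralizer of `x` in the alternating group onto the one of `y`. The first has at least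
`3 (n - 3)! / 2` elements (it has index `≤ 2` in the centralizer in `Perm (Fin n)`, of order `3 (n - 3)!`), the second at most `3 ^ j j! (n - 3 j)!` (`Equiv.Perm.nat_card_centralizer`). By `au0` `j = 1`. -/
theorem au1 {n : ℕ} (hn : 9 ≤ n) (φ : alternatingGroup (Fin n) ≃* alternatingGroup (Fin n)) (x : alternatingGroup (Fin n))
    (hx : (x : Perm (Fin n)).IsThreeCycle) : ((φ x : alternatingGroup (Fin n)) : Perm (Fin n)).IsThreeCycle := by
  have ho : orderOf ((φ x : alternatingGroup (Fin n)) : Perm (Fin n)) = 3 := by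
    rw [Subgroup.orderOf_coe, MulEquiv.orderOf_eq, ← Subgroup.orderOf_coe, hx.orderOf]
  obtain ⟨m, hm⟩ := Perm.cycleType_prime_order (σ := ((φ x : alternatingGroup (Fin n)) : Perm (Fin n)))
    (by rw [ho]; exact Nat.prime_three)
  rw [ho] at hm
  have hsum : 3 * (m + 1) ≤ n := by
    have h1 := Perm.sum_cycleType ((φ x : alternatingGroup (Fin n)) : Perm (Fin n))
    have h2 : ((φ x : alternatingGroup (Fin n)) : Perm (Fin n)).support.card ≤ Fintype.card (Fin n) :=
      Finset.card_le_univ _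
    rw [hm, Multiset.sum_replicate, smul_eq_mul] at h1
    rw [Fintype.card_fin] at h2
    omega
  have hx1 : (x : Perm (Fin n)).cycleType = Multiset.replicate 1 3 := by
    rw [hx.cycleType]
    rfl
  have c1 := au1_cent le_rfl hx1
  have c2 := au1_cent (by omega) hm
  have l1 := au1_low x
  have l2 := au1_map φ x
  have l3 := au1_up (φ x)
  by_cases hm0 : m = 0
  · rw [hm0] at hm
    rw [Perm.IsThreeCycle, hm]
    rfl
  · exfalso
    have l4 := au0 hn (show 2 ≤ m + 1 by omega) hsum
    rw [c1] at l1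
    rw [c2] at l3
    rw [mul_one, pow_one, Nat.factorial_one, mul_one] at l1
    have e : (n - 3 * (m + 1)).factorial * 3 ^ (m + 1) * (m + 1).factorial =
        3 ^ (m + 1) * (m + 1).factorial * (n - 3 * (m + 1)).factorial := by ring
    rw [e] at l3
    omega
-- END au1

-- BEGIN au2
private theorem au2_facts {n : ℕ} {σ : Perm (Fin n)} (h : σ.IsThreeCycle) {x : Fin n} (hx : σ x ≠ x) :
    σ (σ (σ x)) = x ∧ σ (σ x) ≠ x ∧ σ (σ x) ≠ σ x ∧ ∀ y, σ y ≠ y → y = x ∨ y = σ x ∨ y = σ (σ x) := by
  have h3 : σ (σ (σ x)) = x := by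
    have h1 : σ ^ 3 = 1 := by
      rw [← h.orderOf]
      exact pow_orderOf_eq_one σ
    have h2 := congrArg (fun τ : Perm (Fin n) => τ x) h1
    simpa [pow_succ, Perm.mul_apply] using h2
  have h2 : σ (σ x) ≠ σ x := fun e => hx (σ.injective e)
  have h4 : σ (σ x) ≠ x := by
    intro e
    rw [e] at h3
    exact hx h3
  refine ⟨h3, h4, h2, ?_⟩
  have hsub : ({x, σ x, σ (σ x)} : Finset (Fin n)) ⊆ σ.support := by
    intro y hy
    rw [Finset.mem_insert, Finset.mem_insert, Finset.mem_singleton] at hy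
    rw [Perm.mem_support]
    rcases hy with rfl | rfl | rfl
    · exact hx
    · exact h2
    · rw [h3]; exact h4.symm
  have hcard : ({x, σ x, σ (σ x)} : Finset (Fin n)).card = 3 :=
    Finset.card_eq_three.2 ⟨x, σ x, σ (σ x), hx.symm, h4.symm, h2.symm, rfl⟩
  have heq : ({x, σ x, σ (σ x)} : Finset (Fin n)) = σ.support :=
    Finset.eq_of_subset_of_card_le hsub (by rw [hcard, h.card_support])
  intro y hy
  rw [← Perm.mem_support, ← heq, Finset.mem_insert, Finset.mem_insert, Finset.mem_singleton] at hy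
  exact hy

private theorem au2_edge {n : ℕ} {s t : Perm (Fin n)} (hs : s.IsThreeCycle) (ht : t.IsThreeCycle)
    (h2 : (s * t) ^ 2 = 1) (h1 : s * t ≠ 1) : ∃ y, s y ≠ y ∧ t y = s y := by
  by_cases hex : ∃ x, s x ≠ x ∧ t x = x
  · obtain ⟨x, hx, hxt⟩ := hex
    have e1 : s (t (s (t x))) = x := by
      have h3 := congrArg (fun τ : Perm (Fin n) => τ x) h2
      simpa [pow_succ, Perm.mul_apply] using h3
    rw [hxt] at e1
    obtain ⟨f1, f2, f3, _⟩ := au2_facts hs hx
    refine ⟨s x, f3, ?_⟩
    apply s.injective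
    rw [e1, f1]
  · have hmov : ∀ x, s x ≠ x → t x ≠ x := fun x hx hxt => hex ⟨x, hx, hxt⟩
    have hne : s.support.Nonempty := by
      rw [← Finset.card_pos, hs.card_support]
      norm_num
    obtain ⟨a, ha⟩ := hne
    rw [Perm.mem_support] at ha
    obtain ⟨f1, f2, f3, f4⟩ := au2_facts hs ha
    have hsup : s.support = t.support := by
      apply Finset.eq_of_subset_of_card_le
      · intro x hx
        rw [Perm.mem_support] at hx ⊢
        exact hmov x hx
      · rw [hs.card_support, ht.card_support]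
    have hst : ∀ x, t x ≠ x → s x ≠ x := by
      intro x hx
      rw [← Perm.mem_support, hsup, Perm.mem_support]
      exact hx
    have hta := hmov a ha
    have htb : t (s a) ≠ s a := hmov _ f3
    have htc : t (s (s a)) ≠ s (s a) := hmov _ (by rw [f1]; exact f2.symm)
    have hmem : ∀ x, t x ≠ x → t x = a ∨ t x = s a ∨ t x = s (s a) :=
      fun x hx => f4 _ (hst _ (fun e => hx (t.injective e)))
    rcases hmem a hta with e | e | e
    · exact absurd e hta
    · exact ⟨a, ha, e⟩
    · exfalso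
      have eb : t (s a) = a := by
        rcases hmem _ htb with e' | e' | e'
        · exact e'
        · exact absurd e' htb
        · exact absurd (t.injective (e'.trans e.symm)) ha
      have ec : t (s (s a)) = s a := by
        rcases hmem _ htc with e' | e' | e'
        · exact absurd (t.injective (e'.trans eb.symm)) f3
        · exact e'
        · exact absurd e' htc
      apply h1
      ext x
      rw [Perm.mul_apply, Perm.one_apply]
      by_cases hx : s x = x
      · have htx : t x = x := by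
          by_contra hc
          exact hst x hc hx
        rw [htx, hx]
      · rcases f4 x hx with rfl | rfl | rfl
        · rw [e, f1]
        · rw [eb]
        · rw [ec]

private theorem au2_four {n : ℕ} {σ : Perm (Fin n)} (h : σ.IsThreeCycle) {x y z w : Fin n} (hx : σ x ≠ x) (hy : σ y ≠ y)
    (hz : σ z ≠ z) (hw : σ w ≠ w) (h1 : x ≠ y) (h2 : x ≠ z) (h3 : x ≠ w) (h4 : y ≠ z) (h5 : y ≠ w) (h6 : z ≠ w) : False := by
  have hsub : ({x, y, z, w} : Finset (Fin n)) ⊆ σ.support := by
    intro v hv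
    rw [Finset.mem_insert, Finset.mem_insert, Finset.mem_insert, Finset.mem_singleton] at hv
    rw [Perm.mem_support]
    rcases hv with rfl | rfl | rfl | rfl <;> assumption
  have hc := Finset.card_le_card hsub
  have e : ({x, y, z, w} : Finset (Fin n)).card = 4 := by
    rw [Finset.card_insert_of_notMem, Finset.card_insert_of_notMem, Finset.card_insert_of_notMem, Finset.card_singleton]
    · simpa using h6
    · simp [h4, h5]
    · simp [h1, h2, h3]
  rw [e, h.card_support] at hc
  omega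

/-- PROOF. If `s = (a b c)` and `t` is a `3`-cycle with `(s t) ^ 2 = 1`, `s t ≠ 1`, then `t` has exactly two points in common with `s` and runs through them in the same direction: there is
`x ∈ {a, b, c}` with `t x = s x` (disjoint: order `3`; one common point: a `5`-cycle; two common points in opposite direction: order `3`; `t = s`: order `3`; `t = s⁻¹`: `s t = 1`). So
`t i₀ = (a b c)`, `t i₁ = (a b d)` for suitable names, `c ≠ d`. Each other `t i` has a common edge with `(a b c)` and one with `(a b d)`; if `t i a ≠ b`, it would contain one of `b → c, c → a` and one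
of `b → d, d → a`, impossible for a `3`-cycle. -/
theorem au2 {n : ℕ} {ι : Type*} (t : ι → Perm (Fin n)) (h3 : ∀ i, (t i).IsThreeCycle)
    (h2 : ∀ i j, i ≠ j → (t i * t j) ^ 2 = 1 ∧ t i * t j ≠ 1) (i₀ i₁ : ι) (h01 : i₀ ≠ i₁) :
    ∃ a b : Fin n, a ≠ b ∧ ∀ i, t i a = b := by
  obtain ⟨a, ha, hab⟩ := au2_edge (h3 i₀) (h3 i₁) (h2 i₀ i₁ h01).1 (h2 i₀ i₁ h01).2
  obtain ⟨f1, f2, f3, f4⟩ := au2_facts (h3 i₀) ha
  have ha' : t i₁ a ≠ a := by rw [hab]; exact ha
  obtain ⟨g1, g2, g3, g4⟩ := au2_facts (h3 i₁) ha'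
  rw [hab] at g1 g2 g3 g4
  refine ⟨a, t i₀ a, ha.symm, ?_⟩
  -- the third points are different
  have hcd : t i₀ (t i₀ a) ≠ t i₁ (t i₀ a) := by
    intro e
    have heq : t i₁ = t i₀ := by
      ext x
      by_cases hx : t i₀ x = x
      · have : t i₁ x = x := by
          by_contra hc
          rcases g4 x hc with rfl | rfl | rfl
          · exact ha hx
          · exact f3 hx
          · rw [← e, f1] at hx
            exact f2 hx.symm
        rw [hx, this]
      · rcases f4 x hx with rfl | rfl | rfl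
        · rw [hab]
        · rw [e]
        · rw [f1, e, g1]
    have h4 := (h2 i₀ i₁ h01).1
    rw [heq] at h4
    have h5 : (t i₀) ^ 3 = 1 := by
      rw [← (h3 i₀).orderOf]
      exact pow_orderOf_eq_one _
    have h6 : t i₀ = 1 := by
      have : (t i₀ * t i₀) ^ 2 = (t i₀) ^ 3 * t i₀ := by
        rw [← sq, ← pow_mul, ← pow_succ]
      rw [this, h5, one_mul] at h4
      exact h4
    rw [h6] at ha
    exact ha rfl
  intro i
  by_cases hi0 : i = i₀
  · rw [hi0]
  by_cases hi1 : i = i₁
  · rw [hi1, hab]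
  obtain ⟨y, hy, hty⟩ := au2_edge (h3 i₀) (h3 i) (h2 i₀ i (Ne.symm hi0)).1 (h2 i₀ i (Ne.symm hi0)).2
  obtain ⟨z, hz, htz⟩ := au2_edge (h3 i₁) (h3 i) (h2 i₁ i (Ne.symm hi1)).1 (h2 i₁ i (Ne.symm hi1)).2
  have mv : ∀ x, t i x ≠ x → t i (t i x) ≠ t i x := fun x hx e => hx ((t i).injective e)
  rcases f4 y hy with ey | ey | ey
  · rw [ey] at hty
    exact hty
  · rcases g4 z hz with ez | ez | ez
    · rw [ez, hab] at htz
      exact htz
    · rw [ey] at hty
      rw [ez, hty] at htz
      exact absurd htz hcd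
    · exfalso
      rw [ey] at hty
      rw [ez, g1] at htz
      -- `b → c`, `d → a`
      have m1 : t i (t i₀ a) ≠ t i₀ a := by rw [hty]; exact f3
      have m2 : t i (t i₀ (t i₀ a)) ≠ t i₀ (t i₀ a) := by
        have := mv _ m1
        rwa [hty] at this
      have m3 : t i (t i₁ (t i₀ a)) ≠ t i₁ (t i₀ a) := by rw [htz]; exact g2.symm
      have m4 : t i a ≠ a := by
        have := mv _ m3
        rwa [htz] at this
      exact au2_four (h3 i) m1 m2 m3 m4 f3.symm g3.symm ha hcd f2 g2
  · rcases g4 z hz with ez | ez | ez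
    · rw [ez, hab] at htz
      exact htz
    · exfalso
      rw [ey, f1] at hty
      rw [ez] at htz
      -- `c → a`, `b → d`
      have m1 : t i (t i₀ a) ≠ t i₀ a := by rw [htz]; exact g3
      have m2 : t i (t i₁ (t i₀ a)) ≠ t i₁ (t i₀ a) := by
        have := mv _ m1
        rwa [htz] at this
      have m3 : t i (t i₀ (t i₀ a)) ≠ t i₀ (t i₀ a) := by rw [hty]; exact f2.symm
      have m4 : t i a ≠ a := by
        have := mv _ m3
        rwa [hty] at this
      exact au2_four (h3 i) m1 m3 m2 m4 f3.symm g3.symm ha hcd f2 g2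
    · exfalso
      rw [ey, f1] at hty
      rw [ez, g1] at htz
      exact hcd ((t i).injective (hty.trans htz.symm))
-- END au2

-- BEGIN au3
private theorem au3_rot {n : ℕ} {x y z : Fin n} (hxy : x ≠ y) (hyz : y ≠ z) (hxz : x ≠ z) :
    swap x y * swap y z = swap y z * swap z x := by
  ext i
  rw [Perm.mul_apply, Perm.mul_apply]
  by_cases h1 : i = x
  · simp [h1, swap_apply_def, hxy, hyz, hxz, hxy.symm, hyz.symm, hxz.symm]
  by_cases h2 : i = y
  · simp [h2, swap_apply_def, hxy, hyz, hxz, hxy.symm, hyz.symm, hxz.symm]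
  by_cases h3 : i = z
  · simp [h3, swap_apply_def, hxy, hyz, hxz, hxy.symm, hyz.symm, hxz.symm]
  simp [swap_apply_def, h1, h2, h3]

private theorem au3_a {n : ℕ} {a b c d : Fin n} (hab : a ≠ b) (hac : a ≠ c) (had : a ≠ d) (hbc : b ≠ c)
    (hbd : b ≠ d) (hcd : c ≠ d) :
    swap a c * swap c d = (swap a b * swap b d) * (swap a b * swap b c)⁻¹ := by
  rw [mul_inv_rev, swap_inv, swap_inv]
  ext i
  simp only [Perm.mul_apply]
  by_cases h1 : i = a
  · simp [h1, swap_apply_def, hab, hac, had, hbc, hbd, hcd, hab.symm, hac.symm, had.symm, hbc.symm, hbd.symm, hcd.symm]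
  by_cases h2 : i = b
  · simp [h2, swap_apply_def, hab, hac, had, hbc, hbd, hcd, hab.symm, hac.symm, had.symm, hbc.symm, hbd.symm, hcd.symm]
  by_cases h3 : i = c
  · simp [h3, swap_apply_def, hab, hac, had, hbc, hbd, hcd, hab.symm, hac.symm, had.symm, hbc.symm, hbd.symm, hcd.symm]
  by_cases h4 : i = d
  · simp [h4, swap_apply_def, hab, hac, had, hbc, hbd, hcd, hab.symm, hac.symm, had.symm, hbc.symm, hbd.symm, hcd.symm]
  simp [swap_apply_def, h1, h2, h3, h4]

private theorem au3_b {n : ℕ} {a x y z : Fin n} (hxy : x ≠ y) (hyz : y ≠ z) (hxz : x ≠ z) (hax : a ≠ x)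
    (hay : a ≠ y) (haz : a ≠ z) :
    swap x y * swap y z = (swap a x * swap x y) * (swap a y * swap y z) := by
  ext i
  simp only [Perm.mul_apply]
  by_cases h1 : i = a
  · simp [h1, swap_apply_def, hxy, hyz, hxz, hax, hay, haz, hxy.symm, hyz.symm, hxz.symm, hax.symm, hay.symm, haz.symm]
  by_cases h2 : i = x
  · simp [h2, swap_apply_def, hxy, hyz, hxz, hax, hay, haz, hxy.symm, hyz.symm, hxz.symm, hax.symm, hay.symm, haz.symm]
  by_cases h3 : i = y
  · simp [h3, swap_apply_def, hxy, hyz, hxz, hax, hay, haz, hxy.symm, hyz.symm, hxz.symm, hax.symm, hay.symm, haz.symm]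
  by_cases h4 : i = z
  · simp [h4, swap_apply_def, hxy, hyz, hxz, hax, hay, haz, hxy.symm, hyz.symm, hxz.symm, hax.symm, hay.symm, haz.symm]
  simp [swap_apply_def, h1, h2, h3, h4]

private theorem au3_alt {n : ℕ} {x y z : Fin n} (hxy : x ≠ y) (hyz : y ≠ z) :
    swap x y * swap y z ∈ alternatingGroup (Fin n) := by
  rw [Perm.mem_alternatingGroup, Perm.sign_mul, Perm.sign_swap hxy, Perm.sign_swap hyz]
  rfl

private theorem au3_three {n : ℕ} {x y z : Fin n} (hxy : x ≠ y) (hyz : y ≠ z) (hxz : x ≠ z) :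
    (swap x y * swap y z).IsThreeCycle := by
  rw [swap_comm x y]
  exact Perm.isThreeCycle_swap_mul_swap_same hxy.symm hyz hxz

/-- PROOF. By `alternatingGroup.closure_isThreeCycles_eq_top` it is enough that all `3`-cycles are in the closure `H`. Write `(x y z)` for the cycle `x → y → z → x`; the generators are the `(a b c)`. For `c, d ∉ {a, b}`,
`c ≠ d`: `(a b d) (a b c)⁻¹ = (a c d) ∈ H` and `(a b c)⁻¹ (a b d) = (b d c) ∈ H`; so all cycles through `a` are in `H` (`(a b c)`, `(a c b) = (a b c)⁻¹`, `(a c d)`), and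
`(x y z) = (a x y) (a y z)` for `x, y, z ≠ a`. -/
theorem au3 {n : ℕ} {a b : Fin n} (hab : a ≠ b) :
    Subgroup.closure {x : alternatingGroup (Fin n) | (x : Perm (Fin n)).IsThreeCycle ∧ (x : Perm (Fin n)) a = b} = ⊤ := by
  set H := Subgroup.closure {x : alternatingGroup (Fin n) |
    (x : Perm (Fin n)).IsThreeCycle ∧ (x : Perm (Fin n)) a = b} with hH
  have P1 : ∀ c, c ≠ a → c ≠ b → ∀ g : alternatingGroup (Fin n),
      (g : Perm (Fin n)) = swap a b * swap b c → g ∈ H := by
    intro c hca hcb g hg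
    apply Subgroup.subset_closure
    refine ⟨?_, ?_⟩
    · rw [hg]
      exact au3_three hab (Ne.symm hcb) (Ne.symm hca)
    · rw [hg, Perm.mul_apply, swap_apply_of_ne_of_ne hab (Ne.symm hca), swap_apply_left]
  have P2 : ∀ x y, x ≠ a → y ≠ a → x ≠ y → ∀ g : alternatingGroup (Fin n),
      (g : Perm (Fin n)) = swap a x * swap x y → g ∈ H := by
    intro x y hxa hya hxy g hg
    by_cases hxb : x = b
    · rw [hxb] at hg hxy
      exact P1 y hya (Ne.symm hxy) g hg
    · by_cases hyb : y = b
      · rw [hyb] at hg hxy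
        have h1 : ((g⁻¹ : alternatingGroup (Fin n)) : Perm (Fin n)) = swap a b * swap b x := by
          rw [Subgroup.coe_inv, hg, mul_inv_rev, swap_inv, swap_inv, swap_comm x b, swap_comm a x,
            ← au3_rot hab (Ne.symm hxb) (Ne.symm hxa)]
        have h2 := P1 x hxa hxb g⁻¹ h1
        exact inv_inv g ▸ H.inv_mem h2
      · have e := au3_a hab (Ne.symm hxa) (Ne.symm hya) (Ne.symm hxb) (Ne.symm hyb) hxy
        have h1 := P1 y hya hyb ⟨_, au3_alt hab (Ne.symm hyb)⟩ rfl
        have h2 := P1 x hxa hxb ⟨_, au3_alt hab (Ne.symm hxb)⟩ rfl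
        have h3 : g = ⟨swap a b * swap b y, au3_alt hab (Ne.symm hyb)⟩ *
            (⟨swap a b * swap b x, au3_alt hab (Ne.symm hxb)⟩ : alternatingGroup (Fin n))⁻¹ := by
          apply Subtype.ext
          rw [hg, e]
          rfl
        rw [h3]
        exact H.mul_mem h1 (H.inv_mem h2)
  have P3 : ∀ x y z, x ≠ a → y ≠ a → z ≠ a → x ≠ y → y ≠ z → x ≠ z → ∀ g : alternatingGroup (Fin n),
      (g : Perm (Fin n)) = swap x y * swap y z → g ∈ H := by
    intro x y z hxa hya hza hxy hyz hxz g hg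
    have e := au3_b hxy hyz hxz (Ne.symm hxa) (Ne.symm hya) (Ne.symm hza)
    have h1 := P2 x y hxa hya hxy ⟨_, au3_alt (Ne.symm hxa) hxy⟩ rfl
    have h2 := P2 y z hya hza hyz ⟨_, au3_alt (Ne.symm hya) hyz⟩ rfl
    have h3 : g = ⟨swap a x * swap x y, au3_alt (Ne.symm hxa) hxy⟩ *
        (⟨swap a y * swap y z, au3_alt (Ne.symm hya) hyz⟩ : alternatingGroup (Fin n)) := by
      apply Subtype.ext
      rw [hg, e]
      rfl
    rw [h3]
    exact H.mul_mem h1 h2
  rw [eq_top_iff, ← alternatingGroup.closure_isThreeCycles_eq_top, Subgroup.closure_le]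
  intro g hg
  have hg3 : (g : Perm (Fin n)).IsThreeCycle := hg
  by_cases ha : a ∈ (g : Perm (Fin n)).support
  · have h1 := (hg3.eq_swap_mul_swap_iff_mem_support (a := a)).2 ha
    have h2 := (hg3.nodup_iff_mem_support (a := a)).2 ha
    simp only [List.nodup_cons, List.mem_cons, List.not_mem_nil, or_false, not_or,
      not_false_eq_true, List.nodup_nil, and_true] at h2
    exact P2 _ _ (Ne.symm h2.1.1) (Ne.symm h2.1.2) h2.2 g h1
  · obtain ⟨x, hx⟩ : ∃ x, x ∈ (g : Perm (Fin n)).support := by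
      apply Finset.card_pos.1
      rw [hg3.card_support]
      norm_num
    have h1 := (hg3.eq_swap_mul_swap_iff_mem_support (a := x)).2 hx
    have h2 := (hg3.nodup_iff_mem_support (a := x)).2 hx
    simp only [List.nodup_cons, List.mem_cons, List.not_mem_nil, or_false, not_or,
      not_false_eq_true, List.nodup_nil, and_true] at h2
    have hx1 : (g : Perm (Fin n)) x ∈ (g : Perm (Fin n)).support := Perm.apply_mem_support.2 hx
    have hx2 : (g : Perm (Fin n)) ((g : Perm (Fin n)) x) ∈ (g : Perm (Fin n)).support :=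
      Perm.apply_mem_support.2 hx1
    exact P3 _ _ _ (fun e => ha (e ▸ hx)) (fun e => ha (e ▸ hx1)) (fun e => ha (e ▸ hx2)) h2.1.1 h2.2 h2.1.2 g h1
-- END au3

-- BEGIN au4
/-- the cycle `a → b → c → a` -/
private def au4_cyc {n : ℕ} (a b c : Fin n) : Perm (Fin n) := swap b a * swap b c

private theorem au4_cyc_a {n : ℕ} {a b c : Fin n} (hab : a ≠ b) (hac : a ≠ c) :
    au4_cyc a b c a = b := by
  unfold au4_cyc
  rw [Perm.mul_apply, swap_apply_of_ne_of_ne hab hac, swap_apply_right]

private theorem au4_cyc_b {n : ℕ} {a b c : Fin n} (hac : a ≠ c) (hbc : b ≠ c) :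
    au4_cyc a b c b = c := by
  unfold au4_cyc
  rw [Perm.mul_apply, swap_apply_left, swap_apply_of_ne_of_ne hbc.symm hac.symm]

private theorem au4_cyc_c {n : ℕ} {a b c : Fin n} : au4_cyc a b c c = a := by
  unfold au4_cyc
  rw [Perm.mul_apply, swap_apply_right, swap_apply_left]

private theorem au4_cyc_o {n : ℕ} {a b c x : Fin n} (ha : x ≠ a) (hb : x ≠ b) (hc : x ≠ c) :
    au4_cyc a b c x = x := by
  unfold au4_cyc
  rw [Perm.mul_apply, swap_apply_of_ne_of_ne hb hc, swap_apply_of_ne_of_ne hb ha]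

private theorem au4_cyc_three {n : ℕ} {a b c : Fin n} (hab : a ≠ b) (hac : a ≠ c) (hbc : b ≠ c) :
    (au4_cyc a b c).IsThreeCycle := by
  unfold au4_cyc
  exact Perm.isThreeCycle_swap_mul_swap_same hab.symm hbc hac

private theorem au4_form {n : ℕ} {t : Perm (Fin n)} (ht : t.IsThreeCycle) {a b : Fin n} (hab : a ≠ b)
    (h : t a = b) : t b ≠ a ∧ t b ≠ b ∧ t (t b) = a ∧ ∀ x, x ≠ a → x ≠ b → x ≠ t b → t x = x := by
  have h3 : ∀ x, t (t (t x)) = x := by
    intro x
    have h4 : t ^ 3 = 1 := by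
      rw [← ht.orderOf]
      exact pow_orderOf_eq_one t
    have h5 := congrArg (fun f : Perm (Fin n) => f x) h4
    simpa [pow_succ, Perm.mul_apply] using h5
  have h1 : t b ≠ b := by
    intro h4
    rw [← h] at h4
    exact hab ((t.injective h4).symm.trans h)
  have h2 : t b ≠ a := by
    intro h4
    have h5 := h3 a
    rw [h, h4] at h5
    exact hab (h5.symm.trans h)
  have h4 : t (t b) = a := by
    have h5 := h3 a
    rw [h] at h5
    exact h5
  refine ⟨h2, h1, h4, fun x hxa hxb hxc => ?_⟩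
  by_contra hx
  have hsub : ({a, b, t b, x} : Finset (Fin n)) ⊆ t.support := by
    intro y hy
    rw [Perm.mem_support]
    simp only [Finset.mem_insert, Finset.mem_singleton] at hy
    rcases hy with rfl | rfl | rfl | rfl
    · rw [h]
      exact hab.symm
    · exact h1
    · rw [h4]
      exact h2.symm
    · exact hx
  have hcard : ({a, b, t b, x} : Finset (Fin n)).card = 4 := by
    rw [Finset.card_insert_of_notMem, Finset.card_insert_of_notMem, Finset.card_insert_of_notMem,
      Finset.card_singleton]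
    · rw [Finset.mem_singleton]
      exact hxc.symm
    · rw [Finset.mem_insert, Finset.mem_singleton]
      push Not
      exact ⟨h1.symm, hxb.symm⟩
    · rw [Finset.mem_insert, Finset.mem_insert, Finset.mem_singleton]
      push Not
      exact ⟨hab, h2.symm, hxa.symm⟩
  have h5 := Finset.card_le_card hsub
  rw [hcard, ht.card_support] at h5
  omega

private theorem au4_sq {n : ℕ} {a b c d : Fin n} (hab : a ≠ b) (hac : a ≠ c) (had : a ≠ d)
    (hbc : b ≠ c) (hbd : b ≠ d) (hcd : c ≠ d) :
    (au4_cyc a b c * au4_cyc a b d) ^ 2 = 1 ∧ au4_cyc a b c * au4_cyc a b d ≠ 1 := by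
  constructor
  · rw [pow_two]
    ext x
    rw [Perm.mul_apply, Perm.mul_apply, Perm.mul_apply, Perm.one_apply]
    by_cases hxa : x = a
    · subst hxa
      rw [au4_cyc_a hab had, au4_cyc_b hac hbc, au4_cyc_o hac.symm hbc.symm hcd, au4_cyc_c]
    · by_cases hxb : x = b
      · subst hxb
        rw [au4_cyc_b had hbd, au4_cyc_o had.symm hbd.symm hcd.symm, au4_cyc_c, au4_cyc_a hab hac]
      · by_cases hxc : x = c
        · subst hxc
          rw [au4_cyc_o hac.symm hbc.symm hcd, au4_cyc_c, au4_cyc_a hab had, au4_cyc_b hac hbc]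
        · by_cases hxd : x = d
          · subst hxd
            rw [au4_cyc_c, au4_cyc_a hab hac, au4_cyc_b had hbd,
              au4_cyc_o had.symm hbd.symm hcd.symm]
          · rw [au4_cyc_o hxa hxb hxd, au4_cyc_o hxa hxb hxc, au4_cyc_o hxa hxb hxd,
              au4_cyc_o hxa hxb hxc]
  · intro h
    have h1 := congrArg (fun f : Perm (Fin n) => f a) h
    simp only [Perm.mul_apply, Perm.one_apply] at h1
    rw [au4_cyc_a hab had, au4_cyc_b hac hbc] at h1
    exact hac h1.symm

private theorem au4_eq {n : ℕ} {t : Perm (Fin n)} (ht : t.IsThreeCycle) {a b : Fin n} (hab : a ≠ b)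
    (h : t a = b) : t = au4_cyc a b (t b) := by
  obtain ⟨h1, h2, h3, h4⟩ := au4_form ht hab h
  refine Equiv.ext fun x => ?_
  by_cases hxa : x = a
  · rw [hxa, au4_cyc_a hab h1.symm, h]
  · by_cases hxb : x = b
    · rw [hxb, au4_cyc_b h1.symm h2.symm]
    · by_cases hxc : x = t b
      · rw [hxc, au4_cyc_c, h3]
      · rw [h4 x hxa hxb hxc, au4_cyc_o hxa hxb hxc]

/-- PROOF. Let `s c = (0 1 c)`, `c ≠ 0, 1`; `(s c s d) ^ 2 = 1`, `s c s d ≠ 1` for `c ≠ d`. By `au1`, `au2` the `t c = φ (s c)` are `3`-cycles with `t c a = b`, `f c = t c b`, `t c = (a b (f c))`, `f` is injective. The permutation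
`ρ : 0 ↦ a, 1 ↦ b, c ↦ f c` satisfies `ρ (s c) ρ⁻¹ = t c`. The homomorphisms `φ` and conjugation by `ρ` agree on the generators of `au3` (for `a = 0, b = 1`). -/
theorem autA {n : ℕ} (hn : 9 ≤ n) (φ : alternatingGroup (Fin n) ≃* alternatingGroup (Fin n)) :
    ∃ ρ : Perm (Fin n), ∀ x : alternatingGroup (Fin n),
      ((φ x : alternatingGroup (Fin n)) : Perm (Fin n)) = ρ * (x : Perm (Fin n)) * ρ⁻¹ := by
  obtain ⟨z0, z1, z2, z3, h01, h02, h03, h12, h13, h23⟩ : ∃ z0 z1 z2 z3 : Fin n,
      z0 ≠ z1 ∧ z0 ≠ z2 ∧ z0 ≠ z3 ∧ z1 ≠ z2 ∧ z1 ≠ z3 ∧ z2 ≠ z3 := by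
    refine ⟨⟨0, by omega⟩, ⟨1, by omega⟩, ⟨2, by omega⟩, ⟨3, by omega⟩, ?_, ?_, ?_, ?_, ?_, ?_⟩ <;>
      simp [Fin.ext_iff]
  have hmem : ∀ c : {c : Fin n // z0 ≠ c ∧ z1 ≠ c}, (au4_cyc z0 z1 (c : Fin n)) ∈ alternatingGroup (Fin n) :=
    fun c => (au4_cyc_three h01 c.2.1 c.2.2).mem_alternatingGroup
  let s : {c : Fin n // z0 ≠ c ∧ z1 ≠ c} → alternatingGroup (Fin n) := fun c => ⟨au4_cyc z0 z1 c, hmem c⟩
  have hs : ∀ c, ((s c : alternatingGroup (Fin n)) : Perm (Fin n)) = au4_cyc z0 z1 c := fun c => rfl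
  let t : {c : Fin n // z0 ≠ c ∧ z1 ≠ c} → Perm (Fin n) := fun c => (φ (s c) : alternatingGroup (Fin n))
  have ht3 : ∀ c, (t c).IsThreeCycle := fun c => au1 hn φ (s c) (au4_cyc_three h01 c.2.1 c.2.2)
  have ht2 : ∀ c d, c ≠ d → (t c * t d) ^ 2 = 1 ∧ t c * t d ≠ 1 := by
    intro c d hcd
    have hcd' : (c : Fin n) ≠ d := fun h => hcd (Subtype.ext h)
    obtain ⟨h1, h2⟩ := au4_sq h01 c.2.1 d.2.1 c.2.2 d.2.2 hcd'
    constructor
    · have h3 : (s c * s d) ^ 2 = 1 := Subtype.ext h1
      have h4 : (φ (s c) * φ (s d)) ^ 2 = 1 := by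
        rw [← map_mul, ← map_pow, h3, map_one]
      exact congrArg (fun y : alternatingGroup (Fin n) => (y : Perm (Fin n))) h4
    · intro h3
      have h4 : φ (s c) * φ (s d) = 1 := Subtype.ext h3
      rw [← map_mul, ← map_one φ] at h4
      have h5 := φ.injective h4
      exact h2 (congrArg (fun y : alternatingGroup (Fin n) => (y : Perm (Fin n))) h5)
  obtain ⟨a, b, hab, hb⟩ := au2 t ht3 ht2 ⟨z2, h02, h12⟩ ⟨z3, h03, h13⟩
    (fun h => h23 (congrArg Subtype.val h))
  have hinjt : ∀ c d, t c b = t d b → c = d := by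
    intro c d h
    have h1 : t c = t d := by
      rw [au4_eq (ht3 c) hab (hb c), au4_eq (ht3 d) hab (hb d), h]
    have h2 : s c = s d := φ.injective (Subtype.ext h1)
    have h3 : au4_cyc z0 z1 (c : Fin n) = au4_cyc z0 z1 (d : Fin n) :=
      congrArg (fun y : alternatingGroup (Fin n) => (y : Perm (Fin n))) h2
    have h4 : au4_cyc z0 z1 (c : Fin n) z1 = au4_cyc z0 z1 (d : Fin n) z1 := by rw [h3]
    rw [au4_cyc_b c.2.1 c.2.2, au4_cyc_b d.2.1 d.2.2] at h4
    exact Subtype.ext h4
  let g : Fin n → Fin n := fun x =>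
    if h : z0 ≠ x ∧ z1 ≠ x then t ⟨x, h⟩ b else if x = z0 then a else b
  have g0 : g z0 = a := by
    change (if h : z0 ≠ z0 ∧ z1 ≠ z0 then t ⟨z0, h⟩ b else if z0 = z0 then a else b) = a
    rw [dif_neg (fun h => h.1 rfl), if_pos rfl]
  have g1 : g z1 = b := by
    change (if h : z0 ≠ z1 ∧ z1 ≠ z1 then t ⟨z1, h⟩ b else if z1 = z0 then a else b) = b
    rw [dif_neg (fun h => h.2 rfl), if_neg h01.symm]
  have gc : ∀ c : {c : Fin n // z0 ≠ c ∧ z1 ≠ c}, g c = t c b := by
    intro c
    change (if h : z0 ≠ (c : Fin n) ∧ z1 ≠ (c : Fin n) then t ⟨c, h⟩ b else if (c : Fin n) = z0 then a else b) = _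
    rw [dif_pos c.2]
  have hcase : ∀ x, x = z0 ∨ x = z1 ∨ (z0 ≠ x ∧ z1 ≠ x) := by
    intro x
    by_cases h1 : x = z0
    · exact Or.inl h1
    · by_cases h2 : x = z1
      · exact Or.inr (Or.inl h2)
      · exact Or.inr (Or.inr ⟨Ne.symm h1, Ne.symm h2⟩)
  have hta : ∀ c, t c b ≠ a := fun c => (au4_form (ht3 c) hab (hb c)).1
  have htb : ∀ c, t c b ≠ b := fun c => (au4_form (ht3 c) hab (hb c)).2.1
  have hginj : Function.Injective g := by
    intro x y hxy
    rcases hcase x with rfl | rfl | hx <;> rcases hcase y with rfl | rfl | hy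
    · rfl
    · rw [g0, g1] at hxy
      exact (hab hxy).elim
    · rw [g0, gc ⟨y, hy⟩] at hxy
      exact (hta _ hxy.symm).elim
    · rw [g0, g1] at hxy
      exact (hab hxy.symm).elim
    · rfl
    · rw [g1, gc ⟨y, hy⟩] at hxy
      exact (htb _ hxy.symm).elim
    · rw [g0, gc ⟨x, hx⟩] at hxy
      exact (hta _ hxy).elim
    · rw [g1, gc ⟨x, hx⟩] at hxy
      exact (htb _ hxy).elim
    · rw [gc ⟨x, hx⟩, gc ⟨y, hy⟩] at hxy
      exact congrArg Subtype.val (hinjt _ _ hxy)
  have hgbij : Function.Bijective g := Finite.injective_iff_bijective.1 hginj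
  let ρ : Perm (Fin n) := Equiv.ofBijective g hgbij
  have hρ : ∀ x, ρ x = g x := fun x => rfl
  have hconj : ∀ c, t c = ρ * au4_cyc z0 z1 (c : Fin n) * ρ⁻¹ := by
    intro c
    rw [eq_mul_inv_iff_mul_eq]
    obtain ⟨_, _, k3, k4⟩ := au4_form (ht3 c) hab (hb c)
    refine Equiv.ext fun x => ?_
    rw [Perm.mul_apply, Perm.mul_apply, hρ, hρ]
    by_cases hx0 : x = z0
    · rw [hx0, au4_cyc_a h01 c.2.1, g0, g1, hb]
    · by_cases hx1 : x = z1
      · rw [hx1, au4_cyc_b c.2.1 c.2.2, g1, gc]
      · by_cases hxc : x = c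
        · rw [hxc, au4_cyc_c, g0, gc, k3]
        · rw [au4_cyc_o hx0 hx1 hxc]
          apply k4
          · rw [← g0]
            exact fun h => hx0 (hginj h)
          · rw [← g1]
            exact fun h => hx1 (hginj h)
          · rw [← gc]
            exact fun h => hxc (hginj h)
  refine ⟨ρ, ?_⟩
  have hfin : (alternatingGroup (Fin n)).subtype.comp φ.toMonoidHom =
      (MulAut.conj ρ).toMonoidHom.comp (alternatingGroup (Fin n)).subtype := by
    refine MonoidHom.eq_of_eqOn_dense (au3 h01) ?_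
    rintro x ⟨hx3, hx1⟩
    obtain ⟨k1, k2, _, _⟩ := au4_form hx3 h01 hx1
    have h0 := au4_eq hx3 h01 hx1
    have hxs : x = s ⟨(x : Perm (Fin n)) z1, k1.symm, k2.symm⟩ := Subtype.ext h0
    have h5 := hconj ⟨(x : Perm (Fin n)) z1, k1.symm, k2.symm⟩
    have h6 := congrArg (fun y : alternatingGroup (Fin n) =>
      ((φ y : alternatingGroup (Fin n)) : Perm (Fin n))) hxs
    have h7 := congrArg (fun y : Perm (Fin n) => ρ * y * ρ⁻¹) h0
    exact (h6.trans h5).trans h7.symm
  intro x
  have h7 := DFunLike.congr_fun hfin x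
  simpa using h7
-- END au4

end Pool.Agent.EgO
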