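import Pool.Agent.EgO.Defs

/-!
# The recursion for mean values over the symmetric group
-/

set_option autoImplicit false

namespace Pool.Agent.EgO

open Equiv

-- BEGIN avz
private theorem avz_dec (s : Multiset ℕ) (hs : ∀ a ∈ s, 0 < a) :
    s = s.filter (fun n => 2 ≤ n) + Multiset.replicate (s.sum - (s.filter fun n => 2 ≤ n).sum) 1 := by
  have h1 : s.filter (fun n => ¬ 2 ≤ n) = Multiset.replicate (Multiset.card (s.filter fun n => ¬ 2 ≤ n)) 1 := by
    refine Multiset.eq_replicate_card.2 fun b hb => ?_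
    have := Multiset.mem_filter.1 hb
    have := hs b this.1
    omega
  have h2 := Multiset.filter_add_not (fun n => 2 ≤ n) s
  have h3 : (s.filter fun n => ¬ 2 ≤ n).sum = Multiset.card (s.filter fun n => ¬ 2 ≤ n) := by
    conv_lhs => rw [h1]
    simp
  have h4 : s.sum - (s.filter fun n => 2 ≤ n).sum = Multiset.card (s.filter fun n => ¬ 2 ≤ n) := by
    have := congrArg Multiset.sum h2
    rw [Multiset.sum_add, h3] at this
    omega
  rw [h4, ← h1, h2]

private theorem avz_zz (s : Multiset ℕ) (hs : ∀ a ∈ s, 0 < a) :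
    zz s = (s.sum - (s.filter fun n => 2 ≤ n).sum).factorial * (s.filter fun n => 2 ≤ n).prod *
      ∏ a ∈ (s.filter fun n => 2 ≤ n).toFinset, ((s.filter fun n => 2 ≤ n).count a).factorial := by
  set m := s.filter fun n => 2 ≤ n with hm
  have h := avz_dec s hs
  rw [← hm] at h
  have hp : s.prod = m.prod := by
    conv_lhs => rw [h]
    rw [Multiset.prod_add, Multiset.prod_replicate, one_pow, mul_one]
  have h1 : 1 ∉ m.toFinset := by
    rw [Multiset.mem_toFinset, hm, Multiset.mem_filter]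
    omega
  have hc1 : s.count 1 = s.sum - m.sum := by
    conv_lhs => rw [h]
    rw [Multiset.count_add, Multiset.count_replicate_self, Multiset.count_eq_zero_of_notMem, zero_add]
    exact fun h => h1 (Multiset.mem_toFinset.2 h)
  have hsub : s.toFinset ⊆ insert 1 m.toFinset := by
    intro a ha
    rw [Multiset.mem_toFinset] at ha
    rw [Finset.mem_insert, Multiset.mem_toFinset, hm, Multiset.mem_filter]
    have := hs a ha
    by_cases h : a = 1
    · exact Or.inl h
    · exact Or.inr ⟨ha, by omega⟩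
  have hfac : ∏ a ∈ s.toFinset, (s.count a).factorial = ∏ a ∈ insert 1 m.toFinset, (s.count a).factorial := by
    refine Finset.prod_subset hsub fun a _ ha => ?_
    rw [Multiset.mem_toFinset] at ha
    rw [Multiset.count_eq_zero_of_notMem ha, Nat.factorial_zero]
  have hcm : ∀ a ∈ m.toFinset, s.count a = m.count a := by
    intro a ha
    rw [Multiset.mem_toFinset, hm, Multiset.mem_filter] at ha
    rw [hm, Multiset.count_filter_of_pos ha.2]
  rw [zz, hp, hfac, Finset.prod_insert h1, hc1, Finset.prod_congr rfl fun a ha => by rw [hcm a ha]]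
  ring

/-- PROOF. Group the permutations by `σ.partition`; the number of the permutations with the partition `μ` is `n! / zz μ.parts`
(`Equiv.Perm.card_of_cycleType`, `Equiv.Perm.partition`, `Equiv.Perm.parts_partition`: `μ.parts = cycleType + replicate _ 1`, the factorial of the
number of ones in `zz` is `(n - sum)!`). -/
theorem avz (F : Multiset ℕ → ℚ) (n : ℕ) : av F n = ∑ μ : n.Partition, F μ.parts / zz μ.parts := by
  classical
  let f : Perm (Fin n) → n.Partition := fun σ =>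
    ⟨σ.partition.parts, σ.partition.parts_pos, by rw [σ.partition.parts_sum, Fintype.card_fin]⟩
  have hf : ∀ (σ : Perm (Fin n)) (μ : n.Partition), f σ = μ ↔ σ.cycleType = μ.parts.filter fun n => 2 ≤ n := by
    intro σ μ
    constructor
    · rintro rfl
      exact Perm.filter_parts_partition_eq_cycleType.symm
    · intro h
      refine Nat.Partition.ext ?_
      change σ.partition.parts = μ.parts
      rw [avz_dec μ.parts fun a ha => μ.parts_pos ha, ← h, Perm.parts_partition, Perm.sum_cycleType, μ.parts_sum,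
        Fintype.card_fin]
  have hfib : ∀ μ : n.Partition, ((Finset.univ.filter fun σ : Perm (Fin n) => f σ = μ).card : ℚ) * zz μ.parts =
      n.factorial := by
    intro μ
    have h1 : (Finset.univ.filter fun σ : Perm (Fin n) => f σ = μ) =
        Finset.univ.filter fun σ : Perm (Fin n) => σ.cycleType = μ.parts.filter fun n => 2 ≤ n := by
      ext σ
      simp only [Finset.mem_filter, Finset.mem_univ, true_and]
      exact hf σ μ
    have h2 := Perm.card_of_cycleType_mul_eq (Fin n) (μ.parts.filter fun n => 2 ≤ n)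
    have h3 : (μ.parts.filter fun n => 2 ≤ n).sum ≤ n := by
      have := congrArg Multiset.sum (Multiset.filter_add_not (fun n => 2 ≤ n) μ.parts)
      rw [Multiset.sum_add, μ.parts_sum] at this
      omega
    rw [if_pos ⟨by rw [Fintype.card_fin]; exact h3, fun a ha => (Multiset.mem_filter.1 ha).2⟩, Fintype.card_fin] at h2
    rw [h1, avz_zz μ.parts fun a ha => μ.parts_pos ha, μ.parts_sum]
    exact_mod_cast h2
  have hz : ∀ μ : n.Partition, (zz μ.parts : ℚ) ≠ 0 := by
    intro μ h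
    have := hfib μ
    rw [h, mul_zero] at this
    exact (Nat.cast_ne_zero.2 n.factorial_ne_zero) this.symm
  rw [av, ← Finset.sum_fiberwise (s := Finset.univ) (g := f) (f := fun σ => F σ.partition.parts), Finset.sum_div]
  refine Finset.sum_congr rfl fun μ _ => ?_
  have h1 : ∑ σ ∈ Finset.univ.filter (fun σ : Perm (Fin n) => f σ = μ), F σ.partition.parts =
      ((Finset.univ.filter fun σ : Perm (Fin n) => f σ = μ).card : ℚ) * F μ.parts := by
    rw [← nsmul_eq_mul, ← Finset.sum_const]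
    refine Finset.sum_congr rfl fun σ hσ => ?_
    rw [← (Finset.mem_filter.1 hσ).2]
  rw [h1, div_eq_div_iff (Nat.cast_ne_zero.2 n.factorial_ne_zero) (hz μ), ← hfib μ]
  ring
-- END avz

-- BEGIN zcons
private theorem zcons_aux (a : ℕ) (s : Multiset ℕ) :
    ∏ x ∈ s.toFinset, (s.count x).factorial = (s.count a).factorial * ∏ x ∈ s.toFinset.erase a, (s.count x).factorial := by
  by_cases h : a ∈ s.toFinset
  · rw [Finset.mul_prod_erase s.toFinset (fun x => (s.count x).factorial) h]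
  · have h1 : s.count a = 0 := Multiset.count_eq_zero.2 fun h2 => h (Multiset.mem_toFinset.2 h2)
    rw [Finset.erase_eq_of_notMem h, h1, Nat.factorial_zero, one_mul]

/-- PROOF. `(a ::ₘ s).prod = a * s.prod`, only the count of `a` changes: `(c + 1)! = (c + 1) c!`. -/
theorem zcons (a : ℕ) (s : Multiset ℕ) : zz (a ::ₘ s) = a * (s.count a + 1) * zz s := by
  unfold zz
  have h1 : ∏ x ∈ (a ::ₘ s).toFinset, ((a ::ₘ s).count x).factorial =
      (s.count a + 1).factorial * ∏ x ∈ s.toFinset.erase a, (s.count x).factorial := by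
    rw [zcons_aux a (a ::ₘ s), Multiset.count_cons_self]
    congr 1
    have h2 : (a ::ₘ s).toFinset.erase a = s.toFinset.erase a := by
      ext x
      simp only [Finset.mem_erase, Multiset.mem_toFinset, Multiset.mem_cons]
      tauto
    rw [h2]
    refine Finset.prod_congr rfl fun x hx => ?_
    rw [Multiset.count_cons_of_ne (Finset.ne_of_mem_erase hx)]
  rw [h1, zcons_aux a s, Multiset.prod_cons, Nat.factorial_succ]
  ring
-- END zcons

-- BEGIN prec
private theorem prec_n {n : ℕ} (μ : n.Partition) :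
    (n : ℚ) = ∑ j ∈ Finset.range n, ((j : ℚ) + 1) * (μ.parts.count (j + 1) : ℚ) := by
  have h1 : μ.parts.sum = ∑ a ∈ (Finset.range n).image (fun j => j + 1), μ.parts.count a • a := by
    refine Finset.sum_multiset_count_of_subset _ _ ?_
    intro a ha
    rw [Multiset.mem_toFinset] at ha
    have h0 := μ.parts_pos ha
    have h2 : a ≤ μ.parts.sum := Multiset.le_sum_of_mem ha
    rw [μ.parts_sum] at h2
    rw [Finset.mem_image]
    exact ⟨a - 1, Finset.mem_range.2 (by omega), by omega⟩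
  rw [μ.parts_sum, Finset.sum_image (fun a _ b _ h => Nat.succ_injective h)] at h1
  have h3 := congrArg (fun x : ℕ => (x : ℚ)) h1
  simp only [smul_eq_mul] at h3
  rw [h3, Nat.cast_sum]
  refine Finset.sum_congr rfl fun j _ => ?_
  push_cast
  ring

/-- PROOF. `n = ∑_a a (μ.parts.count a)`. So the left side is `∑_{a = 1..n} ∑_{μ, a ∈ μ} a (count a μ) F μ / zz μ`. The partitions `μ` of `n` with `a ∈ μ` are
`a ::ₘ μ'`, `μ'` a partition of `n - a`, and `a (count a μ) / zz μ = 1 / zz μ'` (`zcons`). -/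
theorem prec (F : Multiset ℕ → ℚ) (n : ℕ) : (n : ℚ) * ∑ μ : n.Partition, F μ.parts / zz μ.parts =
    ∑ j ∈ Finset.range n, ∑ μ : (n - 1 - j).Partition, F ((j + 1) ::ₘ μ.parts) / zz μ.parts := by
  have h1 : (n : ℚ) * ∑ μ : n.Partition, F μ.parts / zz μ.parts =
      ∑ j ∈ Finset.range n, ∑ μ : n.Partition,
        ((j : ℚ) + 1) * (μ.parts.count (j + 1) : ℚ) * (F μ.parts / zz μ.parts) := by
    rw [Finset.sum_comm, Finset.mul_sum]
    refine Finset.sum_congr rfl fun μ _ => ?_
    rw [← Finset.sum_mul, ← prec_n μ]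
  rw [h1]
  refine Finset.sum_congr rfl fun j hj => ?_
  rw [Finset.mem_range] at hj
  let e : (n - 1 - j).Partition → n.Partition := fun μ =>
    { parts := (j + 1) ::ₘ μ.parts
      parts_pos := by
        intro a ha
        rw [Multiset.mem_cons] at ha
        rcases ha with ha | ha
        · omega
        · exact μ.parts_pos ha
      parts_sum := by
        rw [Multiset.sum_cons, μ.parts_sum]
        omega }
  symm
  refine Finset.sum_of_injOn e ?_ ?_ ?_ ?_
  · intro μ _ ν _ h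
    have h2 : (j + 1) ::ₘ μ.parts = (j + 1) ::ₘ ν.parts := congrArg Nat.Partition.parts h
    exact Nat.Partition.ext ((Multiset.cons_inj_right _).1 h2)
  · intro μ _
    exact Finset.mem_coe.2 (Finset.mem_univ _)
  · intro μ _ hμ
    have h2 : (j + 1) ∉ μ.parts := by
      intro hm
      apply hμ
      refine ⟨{ parts := μ.parts.erase (j + 1), parts_pos := ?_, parts_sum := ?_ },
        Finset.mem_coe.2 (Finset.mem_univ _), ?_⟩
      · intro a ha
        exact μ.parts_pos (Multiset.mem_of_mem_erase ha)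
      · have h3 := Multiset.sum_erase hm
        rw [μ.parts_sum] at h3
        omega
      · exact Nat.Partition.ext (Multiset.cons_erase hm)
    rw [Multiset.count_eq_zero_of_notMem h2]
    simp
  · intro μ _
    show F ((j + 1) ::ₘ μ.parts) / (zz μ.parts : ℚ) =
      ((j : ℚ) + 1) * ((((j + 1) ::ₘ μ.parts).count (j + 1) : ℕ) : ℚ) *
        (F ((j + 1) ::ₘ μ.parts) / (zz ((j + 1) ::ₘ μ.parts) : ℚ))
    rw [Multiset.count_cons_self, zcons]
    push_cast
    have h4 : ((j : ℚ) + 1) * ((μ.parts.count (j + 1) : ℚ) + 1) ≠ 0 := by positivity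
    rw [← mul_div_assoc, mul_div_mul_left _ _ h4]
-- END prec

theorem av_rec (F : Multiset ℕ → ℚ) (n : ℕ) :
    (n : ℚ) * av F n = ∑ j ∈ Finset.range n, av (fun s => F ((j + 1) ::ₘ s)) (n - 1 - j) := by
  rw [avz, prec]
  exact Finset.sum_congr rfl fun j _ => (avz (fun s => F ((j + 1) ::ₘ s)) _).symm

-- BEGIN W0
/-- PROOF. `Perm (Fin 0)` has one element, with no cycle. -/
theorem W_zero (w : ℕ → ℚ) : W w 0 = 1 := by
  unfold W av
  have h : ∀ σ : Perm (Fin 0), (σ.partition.parts.map w).prod = 1 := by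
    intro σ
    have h1 : σ.partition.parts = 0 := by
      rw [Multiset.eq_zero_iff_forall_notMem]
      intro a ha
      have h2 := σ.partition.parts_pos ha
      have h3 : a ≤ σ.partition.parts.sum := Multiset.le_sum_of_mem ha
      rw [σ.partition.parts_sum, Fintype.card_fin] at h3
      omega
    rw [h1]
    simp
  rw [Finset.sum_congr rfl fun σ _ => h σ]
  simp

private theorem W0_mul (F : Multiset ℕ → ℚ) (c : ℚ) (n : ℕ) :
    av (fun s => c * F s) n = c * av F n := by
  unfold av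
  rw [← Finset.mul_sum, mul_div_assoc]

/-- PROOF. `av_rec`, `Multiset.map_cons`, `Multiset.prod_cons`. -/
theorem W_rec (w : ℕ → ℚ) (n : ℕ) : (n : ℚ) * W w n = ∑ j ∈ Finset.range n, w (j + 1) * W w (n - 1 - j) := by
  unfold W
  rw [av_rec]
  refine Finset.sum_congr rfl fun j _ => ?_
  rw [← W0_mul]
  simp only [Multiset.map_cons, Multiset.prod_cons]
-- END W0

-- BEGIN sgn
theorem sgn_aux (s : Multiset ℕ) : (s.map fun a => (-1 : ℚ) ^ (a + 1)).prod =
    (((s.map fun a => -(-1 : ℤˣ) ^ a).prod : ℤ) : ℚ) := by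
  induction s using Multiset.induction with
  | empty => simp
  | cons a s ih =>
    rw [Multiset.map_cons, Multiset.prod_cons, Multiset.map_cons, Multiset.prod_cons, ih]
    push_cast
    ring

/-- PROOF. `Equiv.Perm.sign_of_cycleType` (or `sign_of_cycleType'`), the ones contribute `1`. -/
theorem sgn {n : ℕ} (σ : Perm (Fin n)) :
    (σ.partition.parts.map fun a => (-1 : ℚ) ^ (a + 1)).prod = ((Perm.sign σ : ℤ) : ℚ) := by
  rw [Equiv.Perm.parts_partition, Multiset.map_add, Multiset.prod_add, Multiset.map_replicate,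
    Multiset.prod_replicate, Equiv.Perm.sign_of_cycleType', sgn_aux]
  norm_num
-- END sgn

-- BEGIN hit
private theorem hit_lcm (q : ℕ) (hq : IsPrimePow q) (a b : ℕ) (ha : a ≠ 0) (hb : b ≠ 0) :
    q ∣ Nat.lcm a b ↔ q ∣ a ∨ q ∣ b := by
  obtain ⟨p, k, hp, hk, rfl⟩ := hq
  have hp' : p.Prime := Nat.prime_iff.2 hp
  rw [hp'.pow_dvd_iff_le_factorization (Nat.lcm_ne_zero ha hb),
    hp'.pow_dvd_iff_le_factorization ha, hp'.pow_dvd_iff_le_factorization hb,
    Nat.factorization_lcm ha hb, Finsupp.sup_apply, le_sup_iff]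

private theorem hit_mlcm (q : ℕ) (hq : IsPrimePow q) (s : Multiset ℕ) (hs : ∀ a ∈ s, a ≠ 0) :
    q ∣ s.lcm ↔ ∃ a ∈ s, q ∣ a := by
  induction s using Multiset.induction_on with
  | empty =>
    have h1 : q ≠ 1 := hq.one_lt.ne'
    simp [h1]
  | cons a s ih =>
    have hs' : ∀ b ∈ s, b ≠ 0 := fun b hb => hs b (Multiset.mem_cons_of_mem hb)
    have h0 : s.lcm ≠ 0 := by
      intro h
      exact hs' 0 ((Multiset.lcm_eq_zero_iff s).1 h) rfl
    rw [Multiset.lcm_cons, show lcm a s.lcm = Nat.lcm a s.lcm from rfl,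
      hit_lcm q hq a s.lcm (hs a (Multiset.mem_cons_self a s)) h0, ih hs']
    constructor
    · rintro (h | ⟨b, hb, h⟩)
      · exact ⟨a, Multiset.mem_cons_self a s, h⟩
      · exact ⟨b, Multiset.mem_cons_of_mem hb, h⟩
    · rintro ⟨b, hb, h⟩
      rcases Multiset.mem_cons.1 hb with rfl | hb
      · exact Or.inl h
      · exact Or.inr ⟨b, hb, h⟩

/-- PROOF. `orderOf σ = σ.cycleType.lcm` (`Equiv.Perm.lcm_cycleType`), the ones do not matter. A prime power divides a least common multiple iff it divides one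
of the numbers; `Q` is pairwise coprime, so `∏ Q ∣ x` iff all `q ∈ Q` divide `x`. -/
theorem hit {n : ℕ} (σ : Perm (Fin n)) (Q : Finset ℕ) (hQ : ∀ q ∈ Q, IsPrimePow q) (hc : (Q : Set ℕ).Pairwise Nat.Coprime) :
    (∏ q ∈ Q, q) ∣ orderOf σ ↔ ∀ q ∈ Q, ∃ a ∈ σ.partition.parts, q ∣ a := by
  have key : ∀ q ∈ Q, (q ∣ orderOf σ ↔ ∃ a ∈ σ.partition.parts, q ∣ a) := by
    intro q hq
    rw [← Equiv.Perm.lcm_cycleType, hit_mlcm q (hQ q hq) σ.cycleType (fun a ha => by
      have := Equiv.Perm.two_le_of_mem_cycleType ha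
      omega), Equiv.Perm.parts_partition]
    constructor
    · rintro ⟨a, ha, h⟩
      exact ⟨a, Multiset.mem_add.2 (Or.inl ha), h⟩
    · rintro ⟨a, ha, h⟩
      rcases Multiset.mem_add.1 ha with ha | ha
      · exact ⟨a, ha, h⟩
      · have h1 : a = 1 := Multiset.eq_of_mem_replicate ha
        subst h1
        have h2 := (hQ q hq).one_lt
        have h3 := Nat.le_of_dvd one_pos h
        omega
  constructor
  · intro h q hq
    exact (key q hq).1 ((Finset.dvd_prod_of_mem (fun q => q) hq).trans h)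
  · intro h
    apply Finset.prod_dvd_of_isRelPrime
    · intro a ha b hb hab
      exact Nat.coprime_iff_isRelPrime.1 (hc ha hb hab)
    · intro q hq
      exact (key q hq).2 (h q hq)
-- END hit

-- BEGIN ind
private theorem ind_prod (S : Finset ℕ) (s : Multiset ℕ) (x : ℕ → ℚ) (hx0 : ∀ q, (∃ a ∈ s, q ∣ a) → x q = 0)
    (hx1 : ∀ q, (¬ ∃ a ∈ s, q ∣ a) → x q = 1) : ∏ q ∈ S, x q = (s.map fun a => (nd S a : ℚ)).prod := by
  by_cases h : ∃ q ∈ S, ∃ a ∈ s, q ∣ a
  · obtain ⟨q, hq, a, ha, hqa⟩ := h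
    rw [Finset.prod_eq_zero hq (hx0 q ⟨a, ha, hqa⟩)]
    refine (Multiset.prod_eq_zero ?_).symm
    refine Multiset.mem_map.2 ⟨a, ha, ?_⟩
    rw [nd, if_pos ⟨q, hq, hqa⟩, Int.cast_zero]
  · rw [Finset.prod_eq_one fun q hq => hx1 q fun ⟨a, ha, hqa⟩ => h ⟨q, hq, a, ha, hqa⟩]
    refine (Multiset.prod_eq_one fun b hb => ?_).symm
    obtain ⟨a, ha, rfl⟩ := Multiset.mem_map.1 hb
    rw [nd, if_neg fun ⟨q, hq, hqa⟩ => h ⟨q, hq, a, ha, hqa⟩, Int.cast_one]

/-- PROOF. Both sides are `0` or `1`: expand `∏_{q ∈ Q} (1 - x q)` with `x q = 1` if no element of `s` is divisible by `q` and `0` otherwise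
(`Finset.prod_one_sub..`, `Finset.prod_add` / `Finset.prod_sub_one..`), and `∏_{q ∈ S} x q = (s.map (nd S)).prod`. -/
theorem ind (Q : Finset ℕ) (s : Multiset ℕ) [Decidable (∀ q ∈ Q, ∃ a ∈ s, q ∣ a)] :
    (if ∀ q ∈ Q, ∃ a ∈ s, q ∣ a then (1 : ℚ) else 0) =
      ∑ S ∈ Q.powerset, (-1) ^ S.card * (s.map fun a => (nd S a : ℚ)).prod := by
  classical
  let x : ℕ → ℚ := fun q => if ∃ a ∈ s, q ∣ a then 0 else 1
  have hx0 : ∀ q, (∃ a ∈ s, q ∣ a) → x q = 0 := fun q h => if_pos h
  have hx1 : ∀ q, (¬ ∃ a ∈ s, q ∣ a) → x q = 1 := fun q h => if_neg h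
  have h1 : (if ∀ q ∈ Q, ∃ a ∈ s, q ∣ a then (1 : ℚ) else 0) = ∏ q ∈ Q, (-x q + 1) := by
    by_cases h : ∀ q ∈ Q, ∃ a ∈ s, q ∣ a
    · rw [if_pos h, Finset.prod_eq_one fun q hq => by rw [hx0 q (h q hq)]; norm_num]
    · rw [if_neg h]
      push Not at h
      obtain ⟨q, hq, hqa⟩ := h
      refine (Finset.prod_eq_zero hq ?_).symm
      rw [hx1 q fun ⟨a, ha, h⟩ => hqa a ha h]
      norm_num
  rw [h1, Finset.prod_add]
  refine Finset.sum_congr rfl fun S _ => ?_
  rw [Finset.prod_const_one, mul_one, ← ind_prod S s x hx0 hx1, ← Finset.prod_const, ← Finset.prod_mul_distrib]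
  exact Finset.prod_congr rfl fun q _ => by ring
-- END ind

-- BEGIN ccW
private theorem ccW_hit {n : ℕ} (Q : Finset ℕ) (hQ : ∀ q ∈ Q, IsPrimePow q)
    (hc : (Q : Set ℕ).Pairwise Nat.Coprime) (σ : Perm (Fin n)) [Decidable ((∏ q ∈ Q, q) ∣ orderOf σ)] :
    (if (∏ q ∈ Q, q) ∣ orderOf σ then (1 : ℚ) else 0) =
      ∑ S ∈ Q.powerset, (-1) ^ S.card * (σ.partition.parts.map fun a => (nd S a : ℚ)).prod := by
  classical
  rw [← ind Q σ.partition.parts]
  exact if_congr (hit σ Q hQ hc) rfl rfl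

private theorem ccW_ns (S : Finset ℕ) (a : ℕ) : (ns S a : ℚ) = (nd S a : ℚ) * (-1 : ℚ) ^ (a + 1) := by
  unfold ns nd
  by_cases h : ∃ q ∈ S, q ∣ a
  · rw [if_pos h, if_pos h]
    simp
  · rw [if_neg h, if_neg h]
    by_cases h2 : a % 2 = 0
    · rw [if_pos h2]
      have h3 : Odd (a + 1) := by
        rw [Nat.odd_add_one, Nat.not_odd_iff_even, Nat.even_iff]
        exact h2
      rw [h3.neg_one_pow]
      simp
    · rw [if_neg h2]
      have h3 : Even (a + 1) := by
        rw [Nat.even_add_one, Nat.even_iff]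
        exact h2
      rw [h3.neg_one_pow]
      simp

/-- PROOF. `hit`, `ind`, linearity of `av`. -/
theorem ccW (Q : Finset ℕ) (hQ : ∀ q ∈ Q, IsPrimePow q) (hc : (Q : Set ℕ).Pairwise Nat.Coprime) (n : ℕ) :
    cc (∏ q ∈ Q, q) n = ∑ S ∈ Q.powerset, (-1) ^ S.card * W (fun a => (nd S a : ℚ)) n := by
  classical
  have h1 : (Nat.card {σ : Perm (Fin n) // (∏ q ∈ Q, q) ∣ orderOf σ} : ℚ) =
      ∑ σ : Perm (Fin n), if (∏ q ∈ Q, q) ∣ orderOf σ then (1 : ℚ) else 0 := by
    rw [Nat.card_eq_fintype_card, Fintype.card_subtype, Finset.sum_boole]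
  unfold cc W av
  rw [h1, Finset.sum_congr rfl fun σ _ => ccW_hit Q hQ hc σ, Finset.sum_comm, Finset.sum_div]
  refine Finset.sum_congr rfl fun S _ => ?_
  rw [← Finset.mul_sum, mul_div_assoc]

/-- PROOF. `2 [sign σ = ε] = 1 + ε sign σ`; `hit`, `ind`, `sgn`; `ns S a = nd S a * (-1) ^ (a + 1)`. -/
theorem ddW (Q : Finset ℕ) (hQ : ∀ q ∈ Q, IsPrimePow q) (hc : (Q : Set ℕ).Pairwise Nat.Coprime) (ε : ℤˣ) (n : ℕ) :
    dd (∏ q ∈ Q, q) ε n = ∑ S ∈ Q.powerset, (-1) ^ S.card * W (fun a => (nd S a : ℚ)) n +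
      ((ε : ℤ) : ℚ) * ∑ S ∈ Q.powerset, (-1) ^ S.card * W (fun a => (ns S a : ℚ)) n := by
  classical
  have hsg : ∀ σ : Perm (Fin n), 2 * (if Perm.sign σ = ε then (1 : ℚ) else 0) =
      1 + ((ε : ℤ) : ℚ) * ((Perm.sign σ : ℤ) : ℚ) := by
    intro σ
    rcases Int.units_eq_one_or (Perm.sign σ) with h | h <;> rcases Int.units_eq_one_or ε with h' | h' <;>
      rw [h, h'] <;> norm_num
  have h1 : 2 * (E n (∏ q ∈ Q, q) ε : ℚ) =
      ∑ σ : Perm (Fin n), (1 + ((ε : ℤ) : ℚ) * ((Perm.sign σ : ℤ) : ℚ)) *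
        (if (∏ q ∈ Q, q) ∣ orderOf σ then (1 : ℚ) else 0) := by
    unfold E
    rw [Nat.card_eq_fintype_card, Fintype.card_subtype, ← Finset.sum_boole, Finset.mul_sum]
    refine Finset.sum_congr rfl fun σ _ => ?_
    rw [← hsg σ]
    by_cases h2 : Perm.sign σ = ε <;> by_cases h3 : (∏ q ∈ Q, q) ∣ orderOf σ <;> simp [h2, h3]
  have h2 : ∀ σ : Perm (Fin n), (1 + ((ε : ℤ) : ℚ) * ((Perm.sign σ : ℤ) : ℚ)) *
        (if (∏ q ∈ Q, q) ∣ orderOf σ then (1 : ℚ) else 0) =
      ∑ S ∈ Q.powerset, ((-1) ^ S.card * (σ.partition.parts.map fun a => (nd S a : ℚ)).prod +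
        ((ε : ℤ) : ℚ) * ((-1) ^ S.card * (σ.partition.parts.map fun a => (ns S a : ℚ)).prod)) := by
    intro σ
    rw [ccW_hit Q hQ hc σ, Finset.mul_sum]
    refine Finset.sum_congr rfl fun S _ => ?_
    have h3 : (σ.partition.parts.map fun a => (ns S a : ℚ)).prod =
        (σ.partition.parts.map fun a => (nd S a : ℚ)).prod * ((Perm.sign σ : ℤ) : ℚ) := by
      rw [← sgn σ, ← Multiset.prod_map_mul]
      exact congrArg Multiset.prod (Multiset.map_congr rfl fun a _ => ccW_ns S a)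
    rw [h3]
    ring
  unfold dd W av
  rw [h1, Finset.sum_congr rfl fun σ _ => h2 σ, Finset.sum_comm, Finset.sum_div, Finset.mul_sum,
    ← Finset.sum_add_distrib]
  refine Finset.sum_congr rfl fun S _ => ?_
  rw [Finset.sum_add_distrib, ← Finset.mul_sum, ← Finset.mul_sum, ← Finset.mul_sum, add_div,
    mul_div_assoc, mul_div_assoc, mul_div_assoc]
-- END ccW

end Pool.Agent.EgO
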