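import Pool.Agent.EgO.Av

/-!
# Large degrees
-/

set_option autoImplicit false

namespace Pool.Agent.EgO

open Equiv

-- BEGIN wq
private theorem wq_R {q : ℕ} (hq : 2 ≤ q) (g : ℕ → ℚ)
    (hg : ∀ t : ℕ, ((q : ℚ) * (t + 1)) * g (t + 1) = ((q : ℚ) * (t + 1) - 1) * g t) (r : ℕ) (hr : r < q) (t : ℕ) :
    ∑ j ∈ Finset.range (q * t + r), (if q ∣ j + 1 then (0 : ℚ) else 1) * g ((q * t + r - 1 - j) / q) =
      (q * t + r) * g t := by
  induction t with
  | zero =>
    simp only [mul_zero, zero_add, CharP.cast_eq_zero]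
    have h1 : ∀ j ∈ Finset.range r, (if q ∣ j + 1 then (0 : ℚ) else 1) * g ((r - 1 - j) / q) = g 0 := by
      intro j hj
      have hj' := Finset.mem_range.1 hj
      have h2 : ¬ q ∣ j + 1 := fun h => by
        have := Nat.le_of_dvd (by omega) h
        omega
      have h3 : (r - 1 - j) / q = 0 := Nat.div_eq_of_lt (by omega)
      rw [if_neg h2, h3, one_mul]
    rw [Finset.sum_congr rfl h1, Finset.sum_const, Finset.card_range, nsmul_eq_mul]
  | succ t ih =>
    have e1 : q * (t + 1) + r = q + (q * t + r) := by ring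
    obtain ⟨s, hs⟩ : ∃ s, q = r + s + 1 := ⟨q - 1 - r, by omega⟩
    have h1 : ∑ j ∈ Finset.range (q * t + r), (if q ∣ (q + j) + 1 then (0 : ℚ) else 1) *
        g ((q + (q * t + r) - 1 - (q + j)) / q) = (q * t + r) * g t := by
      rw [← ih]
      apply Finset.sum_congr rfl
      intro j hj
      have hj' := Finset.mem_range.1 hj
      have h2 : q ∣ (q + j) + 1 ↔ q ∣ j + 1 := by
        rw [add_assoc]; exact Nat.dvd_add_right (dvd_refl q)
      have h3 : q + (q * t + r) - 1 - (q + j) = q * t + r - 1 - j := by omega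
      simp only [h2, h3]
    have h4 : ∑ j ∈ Finset.range q, (if q ∣ j + 1 then (0 : ℚ) else 1) * g ((q + (q * t + r) - 1 - j) / q) =
        r * g (t + 1) + s * g t := by
      have h5 : Finset.range q = Finset.range (r + s + 1) := by rw [← hs]
      rw [h5, Finset.sum_range_succ, if_pos (show q ∣ r + s + 1 by rw [← hs]), zero_mul, add_zero, Finset.sum_range_add]
      have h6 : ∀ j ∈ Finset.range r, (if q ∣ j + 1 then (0 : ℚ) else 1) * g ((q + (q * t + r) - 1 - j) / q) = g (t + 1) := by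
        intro j hj
        have hj' := Finset.mem_range.1 hj
        have h2 : ¬ q ∣ j + 1 := fun h => by
          have := Nat.le_of_dvd (by omega) h
          omega
        have h3 : (q + (q * t + r) - 1 - j) / q = t + 1 := by
          have h7 : q + (q * t + r) - 1 - j = (r - 1 - j) + q * (t + 1) := by
            have : q * (t + 1) = q * t + q := by ring
            omega
          rw [h7, Nat.add_mul_div_left _ _ (by omega), Nat.div_eq_of_lt (by omega), zero_add]
        rw [if_neg h2, h3, one_mul]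
      have h8 : ∀ j ∈ Finset.range s, (if q ∣ (r + j) + 1 then (0 : ℚ) else 1) * g ((q + (q * t + r) - 1 - (r + j)) / q) = g t := by
        intro j hj
        have hj' := Finset.mem_range.1 hj
        have h2 : ¬ q ∣ (r + j) + 1 := fun h => by
          have := Nat.le_of_dvd (by omega) h
          omega
        have h3 : (q + (q * t + r) - 1 - (r + j)) / q = t := by
          have h7 : q + (q * t + r) - 1 - (r + j) = (q - 1 - j) + q * t := by omega
          rw [h7, Nat.add_mul_div_left _ _ (by omega), Nat.div_eq_of_lt (by omega), zero_add]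
        rw [if_neg h2, h3, one_mul]
      rw [Finset.sum_congr rfl h6, Finset.sum_congr rfl h8, Finset.sum_const, Finset.sum_const, Finset.card_range,
        Finset.card_range, nsmul_eq_mul, nsmul_eq_mul]
    rw [e1, Finset.sum_range_add, h1, h4]
    have h9 := hg t
    have h10 : (q : ℚ) = r + s + 1 := by exact_mod_cast hs
    push_cast
    have h11 : (s : ℚ) = q - 1 - r := by linarith
    rw [h11]
    linear_combination -h9

/-- PROOF. Let `f n` be the left side, `f 0 = 1`, `n f n = ∑_{j ≤ n, q ∤ j} f (n - j)` (`W_rec`). With `g t = ∏_{i < t} (1 - 1 / (q (i + 1)))`: `q t g t = (q - 1) ∑_{u < t} g u`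
(induction on `t`). Strong induction: for `n = q t + r`, `r < q`, the sum of all `f k`, `k < n`, is `q ∑_{u < t} g u + r g t`, the sum over `k ≡ n mod q`, `k < n`, is
`∑_{u < t} g u`; the difference is `(q - 1) ∑_{u < t} g u + r g t = (q t + r) g t`. -/
theorem wq {q : ℕ} (hq : 2 ≤ q) (n : ℕ) :
    W (fun a => (nd {q} a : ℚ)) n = ∏ i ∈ Finset.range (n / q), (1 - 1 / ((q : ℚ) * (i + 1))) := by
  have hq0 : (q : ℚ) ≠ 0 := by
    have : q ≠ 0 := by omega
    exact_mod_cast this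
  have hnd : ∀ a, ((nd {q} a : ℤ) : ℚ) = if q ∣ a then (0 : ℚ) else 1 := by
    intro a
    unfold nd
    simp only [Finset.mem_singleton, exists_eq_left]
    split_ifs <;> simp
  have hg : ∀ t : ℕ, ((q : ℚ) * (t + 1)) * (∏ i ∈ Finset.range (t + 1), (1 - 1 / ((q : ℚ) * (i + 1)))) =
      ((q : ℚ) * (t + 1) - 1) * ∏ i ∈ Finset.range t, (1 - 1 / ((q : ℚ) * (i + 1))) := by
    intro t
    rw [Finset.prod_range_succ]
    have ht : (t : ℚ) + 1 ≠ 0 := by positivity
    field_simp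
  induction n using Nat.strong_induction_on with
  | _ n ih =>
    rcases Nat.eq_zero_or_pos n with h0 | h0
    · subst h0
      rw [W_zero]; simp
    · have h1 := W_rec (fun a => ((nd {q} a : ℤ) : ℚ)) n
      have h2 : ∑ j ∈ Finset.range n, ((nd {q} (j + 1) : ℤ) : ℚ) * W (fun a => ((nd {q} a : ℤ) : ℚ)) (n - 1 - j) =
          ∑ j ∈ Finset.range n, (if q ∣ j + 1 then (0 : ℚ) else 1) *
            (fun t => ∏ i ∈ Finset.range t, (1 - 1 / ((q : ℚ) * (i + 1)))) ((n - 1 - j) / q) := by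
        apply Finset.sum_congr rfl
        intro j hj
        have hj' := Finset.mem_range.1 hj
        rw [ih (n - 1 - j) (by omega), hnd]
      have h3 := wq_R hq (fun t => ∏ i ∈ Finset.range t, (1 - 1 / ((q : ℚ) * (i + 1)))) hg (n % q)
        (Nat.mod_lt _ (by omega)) (n / q)
      rw [Nat.div_add_mod] at h3
      rw [h2, h3] at h1
      have h4 : ((q : ℚ) * ((n / q : ℕ) : ℚ) + ((n % q : ℕ) : ℚ)) = n := by
        exact_mod_cast Nat.div_add_mod n q
      rw [h4] at h1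
      have h5 : (n : ℚ) ≠ 0 := by
        have : n ≠ 0 := by omega
        exact_mod_cast this
      exact mul_left_cancel₀ h5 h1
-- END wq

-- BEGIN wqle
private theorem wqle_tel (t : ℕ) : ∏ i ∈ Finset.range t, (((i : ℚ) + 1) / ((i : ℚ) + 2)) = 1 / ((t : ℚ) + 1) := by
  induction t with
  | zero => simp
  | succ t ih =>
    rw [Finset.prod_range_succ, ih]
    push_cast
    field_simp
    ring

private theorem wqle_fac {q : ℕ} (hq : 2 ≤ q) (i : ℕ) :
    0 ≤ (1 - 1 / ((q : ℚ) * (i + 1))) ∧ (1 - 1 / ((q : ℚ) * (i + 1))) ^ q ≤ ((i : ℚ) + 1) / ((i : ℚ) + 2) := by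
  have hq0 : (2 : ℚ) ≤ q := by exact_mod_cast hq
  have hi : (0 : ℚ) ≤ i := by positivity
  have hqi : (1 : ℚ) ≤ (q : ℚ) * (i + 1) := by nlinarith
  have hy0 : (0 : ℚ) ≤ 1 / ((q : ℚ) * (i + 1)) := by positivity
  have hy1 : 1 / ((q : ℚ) * (i + 1)) ≤ 1 := by
    rw [div_le_one (by linarith)]
    exact hqi
  have hqy : (q : ℚ) * (1 / ((q : ℚ) * (i + 1))) = 1 / ((i : ℚ) + 1) := by
    have h1 : (q : ℚ) ≠ 0 := by linarith
    have h2 : (i : ℚ) + 1 ≠ 0 := by linarith
    field_simp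
  set y := 1 / ((q : ℚ) * (i + 1)) with hy
  refine ⟨by linarith, ?_⟩
  have hb : 1 + (q : ℚ) * y ≤ (1 + y) ^ q := one_add_mul_le_pow (by linarith) q
  rw [hqy] at hb
  have h1 : (1 - y) ^ q * (1 + y) ^ q ≤ 1 := by
    rw [← mul_pow]
    apply pow_le_one₀
    · exact mul_nonneg (by linarith) (by linarith)
    · nlinarith
  have h2 : 1 + 1 / ((i : ℚ) + 1) = ((i : ℚ) + 2) / ((i : ℚ) + 1) := by
    field_simp
    ring
  rw [h2] at hb
  have h3 : (1 - y) ^ q * (((i : ℚ) + 2) / ((i : ℚ) + 1)) ≤ 1 :=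
    le_trans (mul_le_mul_of_nonneg_left hb (pow_nonneg (by linarith) _)) h1
  have h4 : (0 : ℚ) < ((i : ℚ) + 2) / ((i : ℚ) + 1) := by positivity
  have h5 := (le_div_iff₀ h4).2 h3
  have h6 : 1 / (((i : ℚ) + 2) / ((i : ℚ) + 1)) = ((i : ℚ) + 1) / ((i : ℚ) + 2) := by
    rw [one_div_div]
  rw [h6] at h5
  exact h5

/-- PROOF. `(1 - x / q) ^ q ≤ 1 / (1 + x)` for `x = 1 / (i + 1)` (`(1 - x / q) ^ q * (1 + x / q) ^ q ≤ 1` and Bernoulli `one_add_mul_le_pow`), the product
of `1 / (1 + 1 / (i + 1)) = (i + 1) / (i + 2)` is `1 / (t + 1)`, `t = n / q`. So `W ^ q * (t + 1) ≤ 1 ≤ c ^ q * (t + 1)`. -/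
theorem wqle {q n : ℕ} (hq : 2 ≤ q) {c : ℚ} (hc : 0 ≤ c) (h : 1 ≤ c ^ q * ((n / q : ℕ) + 1)) :
    W (fun a => (nd {q} a : ℚ)) n ≤ c := by
  rw [wq hq]
  have h0 : 0 ≤ ∏ i ∈ Finset.range (n / q), (1 - 1 / ((q : ℚ) * (i + 1))) :=
    Finset.prod_nonneg fun i _ => (wqle_fac hq i).1
  have h1 : (∏ i ∈ Finset.range (n / q), (1 - 1 / ((q : ℚ) * (i + 1)))) ^ q ≤ 1 / (((n / q : ℕ) : ℚ) + 1) := by
    rw [← Finset.prod_pow, ← wqle_tel]
    exact Finset.prod_le_prod (fun i _ => pow_nonneg (wqle_fac hq i).1 _) (fun i _ => (wqle_fac hq i).2)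
  have ht : (0 : ℚ) < ((n / q : ℕ) : ℚ) + 1 := by positivity
  have h2 : 1 / (((n / q : ℕ) : ℚ) + 1) ≤ c ^ q := by
    rw [div_le_iff₀ ht]
    exact h
  exact (pow_le_pow_iff_left₀ h0 hc (by omega)).1 (h1.trans h2)
-- END wqle

-- BEGIN ub
private theorem ub_half {n : ℕ} (hn : 2 ≤ n) (ε : ℤˣ) :
    2 * ((Finset.univ.filter fun σ : Perm (Fin n) => Perm.sign σ = ε).card) = n.factorial := by
  haveI : Nontrivial (Fin n) := Fin.nontrivial_iff_two_le.2 hn
  have h1 : 2 * ((Finset.univ.filter fun σ : Perm (Fin n) => Perm.sign σ = 1).card) = n.factorial := by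
    have h := two_mul_card_alternatingGroup (α := Fin n)
    rw [Fintype.card_perm, Fintype.card_fin] at h
    rw [← h]
    congr 1
    rw [← Fintype.card_subtype]
    exact Fintype.card_congr (Equiv.refl _)
  rcases Int.units_eq_one_or ε with h | h
  · rw [h]; exact h1
  · rw [h]
    have h2 := Finset.card_filter_add_card_filter_not (s := (Finset.univ : Finset (Perm (Fin n)))) (fun σ => Perm.sign σ = 1)
    rw [Finset.card_univ, Fintype.card_perm, Fintype.card_fin] at h2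
    have h3 : (Finset.univ.filter fun σ : Perm (Fin n) => ¬ Perm.sign σ = 1) =
        Finset.univ.filter fun σ : Perm (Fin n) => Perm.sign σ = -1 := by
      ext σ
      simp only [Finset.mem_filter, Finset.mem_univ, true_and]
      constructor
      · intro h4
        exact (Int.units_eq_one_or _).resolve_left h4
      · intro h4 h5
        rw [h5] at h4
        exact absurd h4 (by decide)
    rw [h3] at h2
    omega

private theorem ub_W {q n : ℕ} : (((Finset.univ.filter fun σ : Perm (Fin n) => ∀ a ∈ σ.partition.parts, ¬ q ∣ a).card : ℕ) : ℚ) /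
    n.factorial ≤ W (fun a => (nd {q} a : ℚ)) n := by
  unfold W av
  refine div_le_div_of_nonneg_right ?_ (by positivity)
  rw [Finset.card_filter]
  push_cast
  refine Finset.sum_le_sum fun σ _ => ?_
  split_ifs with h
  · refine le_of_eq (Multiset.prod_eq_one ?_).symm
    intro x hx
    obtain ⟨a, ha, rfl⟩ := Multiset.mem_map.1 hx
    have h1 : nd {q} a = 1 := by
      unfold nd
      rw [if_neg]
      rintro ⟨r, hr, hra⟩
      rw [Finset.mem_singleton] at hr
      rw [hr] at hra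
      exact h a ha hra
    rw [h1]
    norm_num
  · refine Multiset.prod_nonneg ?_
    intro x hx
    obtain ⟨a, ha, rfl⟩ := Multiset.mem_map.1 hx
    have h1 : (0 : ℤ) ≤ nd {q} a := by
      unfold nd
      split_ifs <;> norm_num
    exact_mod_cast h1

/-- PROOF. Union bound. -/
theorem ub (Q : Finset ℕ) (hQ : ∀ q ∈ Q, IsPrimePow q) (hc : (Q : Set ℕ).Pairwise Nat.Coprime) {n : ℕ} (hn : 2 ≤ n) :
    1 - 2 * ∑ q ∈ Q, W (fun a => (nd {q} a : ℚ)) n ≤ dm (∏ q ∈ Q, q) n := by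
  classical
  have key : ∀ ε : ℤˣ, 1 - 2 * ∑ q ∈ Q, W (fun a => (nd {q} a : ℚ)) n ≤ dd (∏ q ∈ Q, q) ε n := by
    intro ε
    set B : ℕ → Finset (Perm (Fin n)) := fun q => Finset.univ.filter fun σ => ∀ a ∈ σ.partition.parts, ¬ q ∣ a with hB
    set T : Finset (Perm (Fin n)) := Finset.univ.filter fun σ => Perm.sign σ = ε ∧ (∏ q ∈ Q, q) ∣ orderOf σ with hT
    have hE : E n (∏ q ∈ Q, q) ε = T.card := by
      unfold E
      rw [Nat.card_eq_fintype_card, Fintype.card_subtype]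
    have hsub : (Finset.univ.filter fun σ : Perm (Fin n) => Perm.sign σ = ε) ⊆ T ∪ Q.biUnion B := by
      intro σ hσ
      rw [Finset.mem_filter] at hσ
      rw [Finset.mem_union]
      by_cases h : (∏ q ∈ Q, q) ∣ orderOf σ
      · exact Or.inl (Finset.mem_filter.2 ⟨Finset.mem_univ _, hσ.2, h⟩)
      · right
        rw [hit σ Q hQ hc] at h
        push Not at h
        obtain ⟨q, hq, hqa⟩ := h
        exact Finset.mem_biUnion.2 ⟨q, hq, Finset.mem_filter.2 ⟨Finset.mem_univ _, hqa⟩⟩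
    have hcard : (Finset.univ.filter fun σ : Perm (Fin n) => Perm.sign σ = ε).card ≤ T.card + ∑ q ∈ Q, (B q).card :=
      (Finset.card_le_card hsub).trans ((Finset.card_union_le _ _).trans
        (Nat.add_le_add_left Finset.card_biUnion_le _))
    have h1 := ub_half hn ε
    have h2 : n.factorial ≤ 2 * T.card + 2 * ∑ q ∈ Q, (B q).card := by omega
    have h3 : (n.factorial : ℚ) ≤ 2 * T.card + 2 * ∑ q ∈ Q, ((B q).card : ℚ) := by exact_mod_cast h2
    have hf : (0 : ℚ) < n.factorial := by exact_mod_cast n.factorial_pos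
    have h4 : ∑ q ∈ Q, ((B q).card : ℚ) / n.factorial ≤ ∑ q ∈ Q, W (fun a => (nd {q} a : ℚ)) n :=
      Finset.sum_le_sum fun q _ => ub_W
    rw [← Finset.sum_div] at h4
    unfold dd
    rw [hE]
    have h5 : 1 ≤ 2 * (T.card : ℚ) / n.factorial + 2 * ((∑ q ∈ Q, ((B q).card : ℚ)) / n.factorial) := by
      rw [mul_div_assoc', ← add_div, le_div_iff₀ hf, one_mul]
      exact h3
    linarith
  unfold dm
  exact le_min (key 1) (key (-1))
-- END ub

-- BEGIN b1
theorem b1_w {q n : ℕ} (a d : ℕ) (hq : 2 ≤ q) (hd : 0 < d) (h : d ^ q ≤ a ^ q * (n / q + 1)) :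
    W (fun a => (nd {q} a : ℚ)) n ≤ (a : ℚ) / d := by
  have hd' : (0 : ℚ) < d := by exact_mod_cast hd
  refine wqle hq (by positivity) ?_
  rw [div_pow, div_mul_eq_mul_div, le_div_iff₀ (by positivity), one_mul]
  exact_mod_cast h

/-- PROOF. `K = Nat.log 2 n`. `K ≤ 23`: `Q = {3, 4, 5, 7}`, `m = 420`, `n ≥ 2 ^ 18`, `wqle` with `c = 1/44, 1/16, 4/35, 2/9`: `420 * (1 - 2 * sum) = 65.7 > (1485 / 100) * (K / 11) ^ 2`.
`K ≤ 37` (`n ≥ 2 ^ 21`): `c = 1/88, 1/26, 1/13, 1/6`: `173`. -/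
theorem b1 {n K : ℕ} (h1 : 2 ^ K ≤ n) (h18 : 18 ≤ K) (h37 : K ≤ 37) :
    (1485 / 100 : ℚ) * ((K : ℚ) / 11) ^ 2 < 420 * dm 420 n := by
  have hK0 : (0 : ℚ) ≤ K := Nat.cast_nonneg K
  have h4 : IsPrimePow 4 := by
    rw [show (4 : ℕ) = 2 ^ 2 by norm_num]
    exact (Nat.prime_two.isPrimePow).pow (by norm_num)
  have hP : ∀ q ∈ ({3, 4, 5, 7} : Finset ℕ), IsPrimePow q := by
    intro q hq
    simp only [Finset.mem_insert, Finset.mem_singleton] at hq
    rcases hq with rfl | rfl | rfl | rfl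
    · exact Nat.prime_three.isPrimePow
    · exact h4
    · exact Nat.prime_five.isPrimePow
    · exact (by norm_num : Nat.Prime 7).isPrimePow
  have hC : ((({3, 4, 5, 7} : Finset ℕ)) : Set ℕ).Pairwise Nat.Coprime := by
    intro a ha b hb hab
    simp only [Finset.coe_insert, Finset.coe_singleton, Set.mem_insert_iff, Set.mem_singleton_iff] at ha hb
    rcases ha with rfl | rfl | rfl | rfl <;> rcases hb with rfl | rfl | rfl | rfl <;>
      first | exact absurd rfl hab | norm_num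
  have h18' : 2 ^ 18 ≤ n := (Nat.pow_le_pow_right (by norm_num) h18).trans h1
  have hu := ub {3, 4, 5, 7} hP hC (n := n) (by omega)
  rw [show (∏ q ∈ ({3, 4, 5, 7} : Finset ℕ), q) = 420 by decide] at hu
  have hs : ∑ q ∈ ({3, 4, 5, 7} : Finset ℕ), W (fun a => (nd {q} a : ℚ)) n =
      W (fun a => (nd {3} a : ℚ)) n + (W (fun a => (nd {4} a : ℚ)) n + (W (fun a => (nd {5} a : ℚ)) n +
        W (fun a => (nd {7} a : ℚ)) n)) := by
    rw [Finset.sum_insert (by decide), Finset.sum_insert (by decide), Finset.sum_insert (by decide), Finset.sum_singleton]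
  rw [hs] at hu
  rcases Nat.lt_or_ge K 24 with hK | hK
  · have w3 := b1_w (q := 3) (n := n) 1 44 (by norm_num) (by norm_num) (by norm_num at h18' ⊢; omega)
    have w4 := b1_w (q := 4) (n := n) 1 16 (by norm_num) (by norm_num) (by norm_num at h18' ⊢; omega)
    have w5 := b1_w (q := 5) (n := n) 4 35 (by norm_num) (by norm_num) (by norm_num at h18' ⊢; omega)
    have w7 := b1_w (q := 7) (n := n) 2 9 (by norm_num) (by norm_num) (by norm_num at h18' ⊢; omega)
    have hK' : (K : ℚ) ≤ 23 := by exact_mod_cast (by omega : K ≤ 23)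
    have h5 : (1485 / 100 : ℚ) * ((K : ℚ) / 11) ^ 2 ≤ 1485 / 100 * (23 / 11) ^ 2 := by gcongr
    norm_num at w3 w4 w5 w7 h5 ⊢
    linarith
  · have h24 : 2 ^ 24 ≤ n := (Nat.pow_le_pow_right (by norm_num) hK).trans h1
    have w3 := b1_w (q := 3) (n := n) 1 88 (by norm_num) (by norm_num) (by norm_num at h24 ⊢; omega)
    have w4 := b1_w (q := 4) (n := n) 1 26 (by norm_num) (by norm_num) (by norm_num at h24 ⊢; omega)
    have w5 := b1_w (q := 5) (n := n) 1 13 (by norm_num) (by norm_num) (by norm_num at h24 ⊢; omega)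
    have w7 := b1_w (q := 7) (n := n) 1 6 (by norm_num) (by norm_num) (by norm_num at h24 ⊢; omega)
    have hK' : (K : ℚ) ≤ 37 := by exact_mod_cast h37
    have h5 : (1485 / 100 : ℚ) * ((K : ℚ) / 11) ^ 2 ≤ 1485 / 100 * (37 / 11) ^ 2 := by gcongr
    norm_num at w3 w4 w5 w7 h5 ⊢
    linarith
-- END b1

-- BEGIN b2
theorem b2_a {n K : ℕ} (h1 : 2 ^ 38 ≤ n) (h : K ≤ 110) : (1485 / 100 : ℚ) * ((K : ℚ) / 11) ^ 2 < (2520 : ℕ) * dm 2520 n := by
  have hP : ∀ q ∈ ({5, 7, 8, 9} : Finset ℕ), IsPrimePow q := by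
    intro q hq
    simp only [Finset.mem_insert, Finset.mem_singleton] at hq
    rcases hq with rfl | rfl | rfl | rfl
    · exact Nat.prime_five.isPrimePow
    · exact (by norm_num : Nat.Prime 7).isPrimePow
    · rw [show (8 : ℕ) = 2 ^ 3 by norm_num]
      exact (Nat.prime_two.isPrimePow).pow (by norm_num)
    · rw [show (9 : ℕ) = 3 ^ 2 by norm_num]
      exact (Nat.prime_three.isPrimePow).pow (by norm_num)
  have hC : ((({5, 7, 8, 9} : Finset ℕ)) : Set ℕ).Pairwise Nat.Coprime := by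
    intro a ha b hb hab
    simp only [Finset.coe_insert, Finset.coe_singleton, Set.mem_insert_iff, Set.mem_singleton_iff] at ha hb
    rcases ha with rfl | rfl | rfl | rfl <;> rcases hb with rfl | rfl | rfl | rfl <;>
      first | exact absurd rfl hab | norm_num
  have hu := ub {5, 7, 8, 9} hP hC (n := n) (by omega)
  rw [show (∏ q ∈ ({5, 7, 8, 9} : Finset ℕ), q) = 2520 by decide] at hu
  have hs : ∑ q ∈ ({5, 7, 8, 9} : Finset ℕ), W (fun a => (nd {q} a : ℚ)) n =
      W (fun a => (nd {5} a : ℚ)) n + (W (fun a => (nd {7} a : ℚ)) n + (W (fun a => (nd {8} a : ℚ)) n +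
        W (fun a => (nd {9} a : ℚ)) n)) := by
    rw [Finset.sum_insert (by decide), Finset.sum_insert (by decide), Finset.sum_insert (by decide), Finset.sum_singleton]
  rw [hs] at hu
  have w5 := b1_w (q := 5) (n := n) 1 100 (by norm_num) (by norm_num) (by norm_num at h1 ⊢; omega)
  have w7 := b1_w (q := 7) (n := n) 1 32 (by norm_num) (by norm_num) (by norm_num at h1 ⊢; omega)
  have w8 := b1_w (q := 8) (n := n) 1 20 (by norm_num) (by norm_num) (by norm_num at h1 ⊢; omega)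
  have w9 := b1_w (q := 9) (n := n) 1 14 (by norm_num) (by norm_num) (by norm_num at h1 ⊢; omega)
  have hK0 : (0 : ℚ) ≤ K := Nat.cast_nonneg K
  have hK' : (K : ℚ) ≤ 110 := by exact_mod_cast h
  have h5 : (1485 / 100 : ℚ) * ((K : ℚ) / 11) ^ 2 ≤ 1485 / 100 * (110 / 11) ^ 2 := by gcongr
  norm_num at w5 w7 w8 w9 h5 ⊢
  linarith

theorem b2_b {n K : ℕ} (h1 : 2 ^ 100 ≤ n) (h : K ≤ 1000) :
    (1485 / 100 : ℚ) * ((K : ℚ) / 11) ^ 2 < (720720 : ℕ) * dm 720720 n := by
  have hP : ∀ q ∈ ({5, 7, 9, 11, 13, 16} : Finset ℕ), IsPrimePow q := by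
    intro q hq
    simp only [Finset.mem_insert, Finset.mem_singleton] at hq
    rcases hq with rfl | rfl | rfl | rfl | rfl | rfl
    · exact Nat.prime_five.isPrimePow
    · exact (by norm_num : Nat.Prime 7).isPrimePow
    · rw [show (9 : ℕ) = 3 ^ 2 by norm_num]
      exact (Nat.prime_three.isPrimePow).pow (by norm_num)
    · exact (by norm_num : Nat.Prime 11).isPrimePow
    · exact (by norm_num : Nat.Prime 13).isPrimePow
    · rw [show (16 : ℕ) = 2 ^ 4 by norm_num]
      exact (Nat.prime_two.isPrimePow).pow (by norm_num)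
  have hC : ((({5, 7, 9, 11, 13, 16} : Finset ℕ)) : Set ℕ).Pairwise Nat.Coprime := by
    intro a ha b hb hab
    simp only [Finset.coe_insert, Finset.coe_singleton, Set.mem_insert_iff, Set.mem_singleton_iff] at ha hb
    rcases ha with rfl | rfl | rfl | rfl | rfl | rfl <;> rcases hb with rfl | rfl | rfl | rfl | rfl | rfl <;>
      first | exact absurd rfl hab | norm_num
  have hu := ub {5, 7, 9, 11, 13, 16} hP hC (n := n) (by omega)
  rw [show (∏ q ∈ ({5, 7, 9, 11, 13, 16} : Finset ℕ), q) = 720720 by decide] at hu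
  have hs : ∑ q ∈ ({5, 7, 9, 11, 13, 16} : Finset ℕ), W (fun a => (nd {q} a : ℚ)) n =
      W (fun a => (nd {5} a : ℚ)) n + (W (fun a => (nd {7} a : ℚ)) n + (W (fun a => (nd {9} a : ℚ)) n +
        (W (fun a => (nd {11} a : ℚ)) n + (W (fun a => (nd {13} a : ℚ)) n + W (fun a => (nd {16} a : ℚ)) n)))) := by
    rw [Finset.sum_insert (by decide), Finset.sum_insert (by decide), Finset.sum_insert (by decide),
      Finset.sum_insert (by decide), Finset.sum_insert (by decide), Finset.sum_singleton]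
  rw [hs] at hu
  have w5 := b1_w (q := 5) (n := n) 1 1024 (by norm_num) (by norm_num) (by norm_num at h1 ⊢; omega)
  have w7 := b1_w (q := 7) (n := n) 1 1024 (by norm_num) (by norm_num) (by norm_num at h1 ⊢; omega)
  have w9 := b1_w (q := 9) (n := n) 1 1024 (by norm_num) (by norm_num) (by norm_num at h1 ⊢; omega)
  have w11 := b1_w (q := 11) (n := n) 1 256 (by norm_num) (by norm_num) (by norm_num at h1 ⊢; omega)
  have w13 := b1_w (q := 13) (n := n) 1 128 (by norm_num) (by norm_num) (by norm_num at h1 ⊢; omega)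
  have w16 := b1_w (q := 16) (n := n) 1 64 (by norm_num) (by norm_num) (by norm_num at h1 ⊢; omega)
  have hK0 : (0 : ℚ) ≤ K := Nat.cast_nonneg K
  have hK' : (K : ℚ) ≤ 1000 := by exact_mod_cast h
  have h5 : (1485 / 100 : ℚ) * ((K : ℚ) / 11) ^ 2 ≤ 1485 / 100 * (1000 / 11) ^ 2 := by gcongr
  norm_num at w5 w7 w9 w11 w13 w16 h5 ⊢
  linarith

/-- PROOF. `K ≤ 110`, `n ≥ 2 ^ 38`: `Q = {5, 7, 8, 9}`, `m = 2520`, `c = 1/100, 1/32, 1/20, 1/14`: `1700`. `K ≤ 1000`, `n ≥ 2 ^ 100`: `Q = {5, 7, 9, 11, 13, 16}`, `m = 720720`,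
`c = 1/1024, 1/1024, 1/1024, 1/256, 1/128, 1/64`. -/
theorem b2 {n K : ℕ} (h1 : 2 ^ K ≤ n) (h38 : 38 ≤ K) (h : K ≤ 1000) :
    ∃ m : ℕ, 0 < m ∧ (1485 / 100 : ℚ) * ((K : ℚ) / 11) ^ 2 < m * dm m n := by
  rcases Nat.lt_or_ge 110 K with hK | hK
  · exact ⟨720720, by norm_num, b2_b ((Nat.pow_le_pow_right (by norm_num) (by omega)).trans h1) h⟩
  · exact ⟨2520, by norm_num, b2_a ((Nat.pow_le_pow_right (by norm_num) h38).trans h1) hK⟩
-- END b2

-- BEGIN b3
private theorem b3_q {p y K n : ℕ} (hp : p.Prime) (hp7 : p ≤ 7) (hy : 200 ≤ y) (hK : 5 * y ≤ K) (h1 : 2 ^ K ≤ n) :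
    2 ≤ p ^ Nat.log p y ∧ y < p * p ^ Nat.log p y ∧ IsPrimePow (p ^ Nat.log p y) ∧
      W (fun a => (nd {p ^ Nat.log p y} a : ℚ)) n ≤ 1 / 16 := by
  have hp1 : 1 < p := hp.one_lt
  have hlog : 1 ≤ Nat.log p y := Nat.log_pos hp1 (by omega)
  have h2 : 2 ≤ p ^ Nat.log p y := by
    calc 2 ≤ p := hp.two_le
      _ = p ^ 1 := (pow_one p).symm
      _ ≤ p ^ Nat.log p y := Nat.pow_le_pow_right hp.pos hlog
  have hle : p ^ Nat.log p y ≤ y := Nat.pow_log_le_self p (by omega)
  refine ⟨h2, ?_, hp.isPrimePow.pow (by omega), ?_⟩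
  · have := Nat.lt_pow_succ_log_self hp1 y
    rwa [pow_succ'] at this
  · refine wqle h2 (by norm_num) ?_
    set q := p ^ Nat.log p y with hq
    have h3 : 16 ^ q * q ≤ n := by
      calc 16 ^ q * q ≤ 16 ^ y * y := Nat.mul_le_mul (Nat.pow_le_pow_right (by norm_num) hle) hle
        _ ≤ 16 ^ y * 2 ^ y := Nat.mul_le_mul_left _ Nat.lt_two_pow_self.le
        _ = 2 ^ (5 * y) := by
          rw [show (16 : ℕ) = 2 ^ 4 by norm_num, ← pow_mul, ← pow_add]
          congr 1
          ring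
        _ ≤ 2 ^ K := Nat.pow_le_pow_right (by norm_num) hK
        _ ≤ n := h1
    have h4 : 16 ^ q ≤ n / q := (Nat.le_div_iff_mul_le (by omega)).2 h3
    have h5 : ((16 : ℚ)) ^ q ≤ ((n / q : ℕ) : ℚ) := by exact_mod_cast h4
    have h6 : (0 : ℚ) < 16 ^ q := by positivity
    rw [div_pow, one_pow, div_mul_eq_mul_div, one_mul, le_div_iff₀ h6, one_mul]
    linarith

/-- PROOF. Four prime powers of size about `K / 5`. -/
theorem b3 {n K : ℕ} (h1 : 2 ^ K ≤ n) (h : 1000 ≤ K) :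
    ∃ m : ℕ, 0 < m ∧ (1485 / 100 : ℚ) * ((K : ℚ) / 11) ^ 2 < m * dm m n := by
  set y := K / 5 with hy
  have hy200 : 200 ≤ y := by omega
  have hyK : 5 * y ≤ K := by omega
  have hKy : K ≤ 5 * y + 4 := by omega
  have hn2 : 2 ≤ n := by
    calc 2 = 2 ^ 1 := by norm_num
      _ ≤ 2 ^ K := Nat.pow_le_pow_right (by norm_num) (by omega)
      _ ≤ n := h1
  obtain ⟨a2, b2', c2, d2⟩ := b3_q (p := 2) (by norm_num) (by norm_num) hy200 hyK h1
  obtain ⟨a3, b3', c3, d3⟩ := b3_q (p := 3) (by norm_num) (by norm_num) hy200 hyK h1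
  obtain ⟨a5, b5', c5, d5⟩ := b3_q (p := 5) (by norm_num) (by norm_num) hy200 hyK h1
  obtain ⟨a7, b7', c7, d7⟩ := b3_q (p := 7) (by norm_num) (by norm_num) hy200 hyK h1
  have e23 : Nat.Coprime (2 ^ Nat.log 2 y) (3 ^ Nat.log 3 y) := Nat.Coprime.pow _ _ (by norm_num)
  have e25 : Nat.Coprime (2 ^ Nat.log 2 y) (5 ^ Nat.log 5 y) := Nat.Coprime.pow _ _ (by norm_num)
  have e27 : Nat.Coprime (2 ^ Nat.log 2 y) (7 ^ Nat.log 7 y) := Nat.Coprime.pow _ _ (by norm_num)
  have e35 : Nat.Coprime (3 ^ Nat.log 3 y) (5 ^ Nat.log 5 y) := Nat.Coprime.pow _ _ (by norm_num)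
  have e37 : Nat.Coprime (3 ^ Nat.log 3 y) (7 ^ Nat.log 7 y) := Nat.Coprime.pow _ _ (by norm_num)
  have e57 : Nat.Coprime (5 ^ Nat.log 5 y) (7 ^ Nat.log 7 y) := Nat.Coprime.pow _ _ (by norm_num)
  generalize 2 ^ Nat.log 2 y = q2 at *
  generalize 3 ^ Nat.log 3 y = q3 at *
  generalize 5 ^ Nat.log 5 y = q5 at *
  generalize 7 ^ Nat.log 7 y = q7 at *
  have hne : ∀ {a b : ℕ}, 2 ≤ a → Nat.Coprime a b → a ≠ b := by
    intro a b ha hab e
    rw [← e, Nat.coprime_self] at hab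
    omega
  have n23 := hne a2 e23
  have n25 := hne a2 e25
  have n27 := hne a2 e27
  have n35 := hne a3 e35
  have n37 := hne a3 e37
  have n57 := hne a5 e57
  have hub := ub ({q2, q3, q5, q7} : Finset ℕ) (by
    intro q hq
    simp only [Finset.mem_insert, Finset.mem_singleton] at hq
    rcases hq with rfl | rfl | rfl | rfl <;> assumption) (by
    intro a ha b hb hab
    simp only [Finset.coe_insert, Finset.coe_singleton, Set.mem_insert_iff, Set.mem_singleton_iff] at ha hb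
    rcases ha with rfl | rfl | rfl | rfl <;> rcases hb with rfl | rfl | rfl | rfl <;>
      first | exact absurd rfl hab | assumption | (apply Nat.Coprime.symm; assumption)) hn2
  have s1 : q2 ∉ ({q3, q5, q7} : Finset ℕ) := by simp [n23, n25, n27]
  have s2 : q3 ∉ ({q5, q7} : Finset ℕ) := by simp [n35, n37]
  have s3 : q5 ∉ ({q7} : Finset ℕ) := by simp [n57]
  rw [Finset.sum_insert s1, Finset.sum_insert s2, Finset.sum_insert s3, Finset.sum_singleton,
    Finset.prod_insert s1, Finset.prod_insert s2, Finset.prod_insert s3, Finset.prod_singleton] at hub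
  refine ⟨q2 * (q3 * (q5 * q7)), by positivity, ?_⟩
  have hdm : (1 / 2 : ℚ) ≤ dm (q2 * (q3 * (q5 * q7))) n := by linarith
  have hm : y * (y * (y * y)) ≤ 210 * (q2 * (q3 * (q5 * q7))) := by
    calc y * (y * (y * y)) ≤ (2 * q2) * ((3 * q3) * ((5 * q5) * (7 * q7))) :=
          Nat.mul_le_mul b2'.le (Nat.mul_le_mul b3'.le (Nat.mul_le_mul b5'.le b7'.le))
      _ = 210 * (q2 * (q3 * (q5 * q7))) := by ring
  have hmq : (y : ℚ) * (y * (y * y)) ≤ 210 * ((q2 * (q3 * (q5 * q7)) : ℕ) : ℚ) := by exact_mod_cast hm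
  set m := q2 * (q3 * (q5 * q7)) with hmdef
  have hyq : (200 : ℚ) ≤ y := by exact_mod_cast hy200
  have hKq : (K : ℚ) ≤ 6 * y := by
    have : K ≤ 6 * y := by omega
    exact_mod_cast this
  have hK0 : (0 : ℚ) ≤ K := by positivity
  have t1 : ((K : ℚ) / 11) ^ 2 ≤ (6 * y / 11) ^ 2 := by
    apply pow_le_pow_left₀ (by positivity)
    linarith
  have t2 : (1485 / 100 : ℚ) * (6 * y / 11) ^ 2 < y * (y * (y * y)) / 420 := by
    have t3 : (40000 : ℚ) ≤ y ^ 2 := by nlinarith
    have t4 : (0 : ℚ) < y ^ 2 := by linarith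
    have t5 : (40000 : ℚ) * y ^ 2 ≤ y ^ 2 * y ^ 2 := mul_le_mul_of_nonneg_right t3 t4.le
    nlinarith
  have t6 : (m : ℚ) * (1 / 2) ≤ m * dm m n := mul_le_mul_of_nonneg_left hdm (by positivity)
  linarith
-- END b3

end Pool.Agent.EgO
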