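import Pool.Agent.EgO.Defs

/-!
# Quotients and blocks
-/

set_option autoImplicit false

namespace Pool.Agent.EgO

open Equiv

-- BEGIN qt
theorem qt_fib {G : Type*} [Group G] [Finite G] {n : ℕ} (π : G →* Perm (Fin n)) (hπ : Function.Surjective π)
    (P : Perm (Fin n) → Prop) : Nat.card {g : G // P (π g)} = Nat.card {σ : Perm (Fin n) // P σ} * Nat.card π.ker := by
  classical
  have := Fintype.ofFinite G
  have h1 : Nat.card {g : G // P (π g)} = (Finset.univ.filter fun g : G => P (π g)).card := by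
    rw [Nat.card_eq_fintype_card, Fintype.card_subtype]
  have h2 : Nat.card {σ : Perm (Fin n) // P σ} = (Finset.univ.filter fun σ : Perm (Fin n) => P σ).card := by
    rw [Nat.card_eq_fintype_card, Fintype.card_subtype]
  rw [h1, h2, Finset.card_eq_sum_card_fiberwise (f := fun g => π g) (t := Finset.univ.filter fun σ : Perm (Fin n) => P σ)
    (fun g hg => by simpa using hg)]
  rw [← smul_eq_mul, ← Finset.sum_const]
  refine Finset.sum_congr rfl fun σ hσ => ?_
  have hσ' : P σ := (Finset.mem_filter.1 hσ).2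
  rw [← Nat.card_congr (π.fiberEquivKerOfSurjective hπ σ)]
  rw [Nat.card_eq_fintype_card, ← Set.toFinset_card]
  congr 1
  ext g
  simp only [Finset.mem_filter, Finset.mem_univ, true_and, Set.mem_toFinset, Set.mem_preimage, Set.mem_singleton_iff]
  exact ⟨fun h => h.2, fun h => ⟨h ▸ hσ', h⟩⟩

/-- PROOF. The fibres of `π` have `|G| / n!` elements; if `m ∣ orderOf (π g)` then `m ∣ orderOf g` (`orderOf_map_dvd`). -/
theorem qt {G : Type*} [Group G] [Finite G] {n : ℕ} (π : G →* Perm (Fin n)) (hπ : Function.Surjective π) (m : ℕ) :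
    (Nat.card G : ℚ) * cc m n ≤ Nat.card {g : G // m ∣ orderOf g} := by
  have h0 : Nat.card G = n.factorial * Nat.card π.ker := by
    have h := qt_fib π hπ (fun _ => True)
    rw [Nat.card_congr (Equiv.subtypeUnivEquiv fun _ => trivial), Nat.card_congr (Equiv.subtypeUnivEquiv fun _ => trivial)] at h
    rw [h, Nat.card_perm, Nat.card_fin]
  have h1 := qt_fib π hπ (fun σ => m ∣ orderOf σ)
  have h2 : Nat.card {g : G // m ∣ orderOf (π g)} ≤ Nat.card {g : G // m ∣ orderOf g} :=
    Nat.card_le_card_of_injective (fun g => ⟨g.1, g.2.trans (orderOf_map_dvd π g.1)⟩) fun a b hab => by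
      simpa [Subtype.ext_iff] using hab
  have h3 : (n.factorial : ℚ) ≠ 0 := by exact_mod_cast n.factorial_ne_zero
  calc (Nat.card G : ℚ) * cc m n = Nat.card {σ : Perm (Fin n) // m ∣ orderOf σ} * Nat.card π.ker := by
        rw [h0, cc]
        push_cast
        field_simp
    _ = (Nat.card {g : G // m ∣ orderOf (π g)} : ℚ) := by
        rw [h1]
        push_cast
        ring
    _ ≤ Nat.card {g : G // m ∣ orderOf g} := by exact_mod_cast h2
-- END qt

-- BEGIN bp
/-- PROOF. Let `l ≥ 1` be minimal such that `g ^ l` maps the block `B = range b` to itself (`l` exists, `g` has finite order), `g ^ l • b i = b (ρ i)`. For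
`0 < j < l` the points `g ^ j • b i` are outside `B` (`blk`). By induction `(g a) ^ j • b i = g ^ j • b (τ i)` for `1 ≤ j ≤ l`, so
`(g a) ^ l • b i = b (ρ (τ i))` and `(g a) ^ (l k) • b i = b ((ρ τ) ^ k i)`; take `k = orderOf (g a)`. -/
theorem bp {G Ω : Type*} [Group G] [Finite G] [MulAction G Ω] {n : ℕ} {b : Fin n → Ω} (hb : Blk G b) (g : G) :
    ∃ ρ : Perm (Fin n), ∀ (τ : Perm (Fin n)) (a : G), (∀ i, a • b i = b (τ i)) → (∀ ω, ω ∉ Set.range b → a • ω = ω) →
      orderOf (ρ * τ) ∣ orderOf (g * a) := by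
  classical
  have hex : ∃ l : ℕ, 0 < l ∧ ∀ i, g ^ l • b i ∈ Set.range b := by
    refine ⟨orderOf g, orderOf_pos g, fun i => ?_⟩
    rw [pow_orderOf_eq_one, one_smul]
    exact ⟨i, rfl⟩
  obtain ⟨hl, hlB⟩ := Nat.find_spec hex
  have hmin : ∀ j, 0 < j → j < Nat.find hex → ∀ i, g ^ j • b i ∉ Set.range b := by
    intro j hj hjl
    rcases hb.blk (g ^ j) with h | h
    · exact absurd ⟨hj, h⟩ (Nat.find_min hex hjl)
    · exact h
  set l := Nat.find hex with hldef
  choose r hr using hlB
  have hrinj : Function.Injective r := by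
    intro i j hij
    have h1 : g ^ l • b i = g ^ l • b j := by rw [← hr i, ← hr j, hij]
    exact hb.inj (MulAction.injective (g ^ l) h1)
  have hrbij : Function.Bijective r := Finite.injective_iff_bijective.1 hrinj
  refine ⟨Equiv.ofBijective r hrbij, fun τ a ha hfix => ?_⟩
  have hstep : ∀ j, 0 < j → j ≤ l → ∀ i, (g * a) ^ j • b i = g ^ j • b (τ i) := by
    intro j
    induction j with
    | zero => intro h; exact absurd h (lt_irrefl _)
    | succ j ih =>
      intro _ hjl i
      rcases Nat.eq_zero_or_pos j with h0 | h0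
      · subst h0
        rw [zero_add, pow_one, pow_one, mul_smul, ha]
      · rw [pow_succ' (g * a), mul_smul, ih h0 (by omega) i, mul_smul,
          hfix _ (hmin j h0 (by omega) (τ i)), ← mul_smul, ← pow_succ']
  have hl1 : ∀ i, (g * a) ^ l • b i = b ((Equiv.ofBijective r hrbij * τ) i) := by
    intro i
    rw [hstep l hl le_rfl i, ← hr]
    rfl
  have hk : ∀ (k : ℕ) (i : Fin n), ((g * a) ^ l) ^ k • b i =
      b (((Equiv.ofBijective r hrbij * τ) ^ k) i) := by
    intro k
    induction k with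
    | zero => intro i; simp
    | succ k ih =>
      intro i
      rw [pow_succ, mul_smul, hl1, ih, pow_succ]
      rfl
  apply orderOf_dvd_of_pow_eq_one
  ext i
  have h1 := hk (orderOf (g * a)) i
  rw [← pow_mul, mul_comm l, pow_mul, pow_orderOf_eq_one, one_pow, one_smul] at h1
  rw [← hb.inj h1]
  rfl
-- END bp

-- BEGIN bc
private theorem bc_card {n : ℕ} (ρ : Perm (Fin n)) (m : ℕ) :
    Nat.card {τ : alternatingGroup (Fin n) // m ∣ orderOf (ρ * (τ : Perm (Fin n)))} = E n m (Perm.sign ρ) := by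
  unfold E
  refine Nat.card_congr
    { toFun := fun τ => ⟨ρ * (τ.1 : Perm (Fin n)), ?_, τ.2⟩
      invFun := fun σ => ⟨⟨ρ⁻¹ * σ.1, ?_⟩, ?_⟩
      left_inv := fun τ => by simp
      right_inv := fun σ => by simp }
  · have h : Perm.sign (τ.1 : Perm (Fin n)) = 1 := Perm.mem_alternatingGroup.1 τ.1.2
    rw [Perm.sign_mul, h, mul_one]
  · rw [Perm.mem_alternatingGroup, Perm.sign_mul, Perm.sign_inv, σ.2.1]
    exact Int.units_mul_self _
  · have h := σ.2.2
    simpa using h

private theorem bc_dm (n m : ℕ) (ε : ℤˣ) : dm m n * n.factorial ≤ 2 * (E n m ε : ℚ) := by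
  have hf : (0 : ℚ) < n.factorial := by exact_mod_cast n.factorial_pos
  have h1 : dm m n ≤ dd m ε n := by
    unfold dm
    rcases Int.units_eq_one_or ε with h | h
    · rw [h]; exact min_le_left _ _
    · rw [h]; exact min_le_right _ _
  have h2 : dd m ε n * n.factorial = 2 * (E n m ε : ℚ) := by
    unfold dd
    field_simp
  rw [← h2]
  exact mul_le_mul_of_nonneg_right h1 hf.le

/-- PROOF. Choose `a τ` for each even `τ` (`hb.alt`). For fixed `τ`, `g ↦ g * a τ` is a bijection of `G`. So `|Alt| #{g : m ∣ orderOf g} = ∑_g #{τ : m ∣ orderOf (g * a τ)} ≥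
∑_g #{τ ∈ Alt : m ∣ orderOf (ρ_g * τ)}` (`bp`), and `τ ↦ ρ * τ` maps `{τ ∈ Alt : m ∣ orderOf (ρ τ)}` onto `{σ : sign σ = sign ρ, m ∣ orderOf σ}`, whose number is
`E n m (sign ρ) ≥ dm m n * n! / 2`. `|Alt| = n! / 2`. -/
theorem bc {G Ω : Type*} [Group G] [Finite G] [MulAction G Ω] {n : ℕ} (hn : 2 ≤ n) {b : Fin n → Ω} (hb : Blk G b) (m : ℕ) :
    (Nat.card G : ℚ) * dm m n ≤ Nat.card {g : G // m ∣ orderOf g} := by
  classical
  have : Fintype G := Fintype.ofFinite G
  have : Nontrivial (Fin n) := Fin.nontrivial_iff_two_le.2 hn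
  choose a ha using fun τ : alternatingGroup (Fin n) => hb.alt τ.1 τ.2
  choose ρ hρ using fun g : G => bp hb g
  have hA : 2 * Fintype.card (alternatingGroup (Fin n)) = n.factorial := by
    rw [two_mul_card_alternatingGroup, Fintype.card_perm, Fintype.card_fin]
  have hA' : 2 * (Fintype.card (alternatingGroup (Fin n)) : ℚ) = n.factorial := by exact_mod_cast hA
  have hf : (0 : ℚ) < n.factorial := by exact_mod_cast n.factorial_pos
  have hApos : (0 : ℚ) < Fintype.card (alternatingGroup (Fin n)) := by linarith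
  have hN : (Nat.card {g : G // m ∣ orderOf g} : ℚ) = ∑ g : G, if m ∣ orderOf g then (1 : ℚ) else 0 := by
    rw [Nat.card_eq_fintype_card, Fintype.card_subtype, Finset.sum_boole]
  have h1 : ∑ g : G, ∑ τ : alternatingGroup (Fin n), (if m ∣ orderOf (g * a τ) then (1 : ℚ) else 0) =
      Fintype.card (alternatingGroup (Fin n)) * (Nat.card {g : G // m ∣ orderOf g} : ℚ) := by
    rw [Finset.sum_comm, hN]
    have h2 : ∀ τ : alternatingGroup (Fin n), ∑ g : G, (if m ∣ orderOf (g * a τ) then (1 : ℚ) else 0) =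
        ∑ g : G, if m ∣ orderOf g then (1 : ℚ) else 0 := fun τ =>
      Fintype.sum_equiv (Equiv.mulRight (a τ)) _ _ fun g => rfl
    rw [Finset.sum_congr rfl fun τ _ => h2 τ, Finset.sum_const, Finset.card_univ, nsmul_eq_mul]
  have h3 : ∀ g : G, dm m n * Fintype.card (alternatingGroup (Fin n)) ≤
      ∑ τ : alternatingGroup (Fin n), (if m ∣ orderOf (g * a τ) then (1 : ℚ) else 0) := by
    intro g
    have h4 : ∑ τ : alternatingGroup (Fin n), (if m ∣ orderOf (ρ g * (τ : Perm (Fin n))) then (1 : ℚ) else 0) =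
        (E n m (Perm.sign (ρ g)) : ℚ) := by
      rw [← bc_card, Nat.card_eq_fintype_card, Fintype.card_subtype, Finset.sum_boole]
    have h5 : ∑ τ : alternatingGroup (Fin n), (if m ∣ orderOf (ρ g * (τ : Perm (Fin n))) then (1 : ℚ) else 0) ≤
        ∑ τ : alternatingGroup (Fin n), (if m ∣ orderOf (g * a τ) then (1 : ℚ) else 0) := by
      refine Finset.sum_le_sum fun τ _ => ?_
      split_ifs with h6 h7
      · exact le_rfl
      · exact absurd (h6.trans (hρ g τ.1 (a τ) (ha τ).1 (ha τ).2)) h7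
      · norm_num
      · exact le_rfl
    have h6 := bc_dm n m (Perm.sign (ρ g))
    rw [h4] at h5
    rw [← hA'] at h6
    linarith
  have h7 : (Nat.card G : ℚ) * (dm m n * Fintype.card (alternatingGroup (Fin n))) ≤
      Fintype.card (alternatingGroup (Fin n)) * (Nat.card {g : G // m ∣ orderOf g} : ℚ) := by
    rw [← h1, Nat.card_eq_fintype_card, ← nsmul_eq_mul, ← Finset.card_univ, ← Finset.sum_const]
    exact Finset.sum_le_sum fun g _ => h3 g
  have h8 : ((Nat.card G : ℚ) * dm m n) * Fintype.card (alternatingGroup (Fin n)) ≤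
      (Nat.card {g : G // m ∣ orderOf g} : ℚ) * Fintype.card (alternatingGroup (Fin n)) := by
    linarith
  exact le_of_mul_le_mul_right h8 hApos
-- END bc

end Pool.Agent.EgO
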