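import Mathlib

/-!
# Finite groups whose classes have distinct sizes (MP_3a125c_al): orders of elements and alternating sections. Definitions.
-/

set_option autoImplicit false

namespace Pool.Agent.EgO

open Equiv

/-- Distinct conjugacy classes have distinct cardinalities. -/
def Ah (G : Type*) [Group G] : Prop :=
  ∀ C D : ConjClasses G, Nat.card C.carrier = Nat.card D.carrier → C = D

/-- `b` enumerates a block of the action of `G`, and every even permutation of the block, extended by the identity, is induced by an element
of `G`. -/
structure Blk (G : Type*) {Ω : Type*} [Group G] [MulAction G Ω] {n : ℕ} (b : Fin n → Ω) : Prop where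
  inj : Function.Injective b
  blk : ∀ g : G, (∀ i, g • b i ∈ Set.range b) ∨ (∀ i, g • b i ∉ Set.range b)
  alt : ∀ τ ∈ alternatingGroup (Fin n), ∃ a : G, (∀ i, a • b i = b (τ i)) ∧ ∀ ω, ω ∉ Set.range b → a • ω = ω

/-- The product of `p / (p - 1)` over the primes `p ≤ y`. -/
def M (y : ℕ) : ℚ := ∏ p ∈ (Finset.range (y + 1)).filter Nat.Prime, (p : ℚ) / (p - 1)

/-- The number of permutations of `n` points of sign `ε` and of order divisible by `m`. -/
noncomputable def E (n m : ℕ) (ε : ℤˣ) : ℕ := Nat.card {σ : Perm (Fin n) // Perm.sign σ = ε ∧ m ∣ orderOf σ}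

/-- The proportion of the permutations of `n` points of order divisible by `m`. -/
noncomputable def cc (m n : ℕ) : ℚ := (Nat.card {σ : Perm (Fin n) // m ∣ orderOf σ} : ℚ) / n.factorial

/-- The proportion of the elements of order divisible by `m` in the coset of the alternating group of sign `ε` (for `2 ≤ n`). -/
noncomputable def dd (m : ℕ) (ε : ℤˣ) (n : ℕ) : ℚ := 2 * (E n m ε : ℚ) / n.factorial

/-- The minimum over the two cosets. -/
noncomputable def dm (m n : ℕ) : ℚ := min (dd m 1 n) (dd m (-1) n)

/-- The mean value of `F` (cycle lengths, fixed points included) over all permutations of `n` points. -/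
noncomputable def av (F : Multiset ℕ → ℚ) (n : ℕ) : ℚ := (∑ σ : Perm (Fin n), F σ.partition.parts) / n.factorial

/-- The order of the centralizer of a permutation with the cycle lengths `s` (fixed points included). -/
def zz (s : Multiset ℕ) : ℕ := s.prod * ∏ a ∈ s.toFinset, (s.count a).factorial

/-- The mean value of a multiplicative function. -/
noncomputable def W (w : ℕ → ℚ) (n : ℕ) : ℚ := av (fun s => (s.map w).prod) n

/-- The indicator function of the integers which are divisible by no element of `S`. -/
def nd (S : Finset ℕ) (a : ℕ) : ℤ := if ∃ q ∈ S, q ∣ a then 0 else 1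

/-- The same with the sign of a cycle of length `a`. -/
def ns (S : Finset ℕ) (a : ℕ) : ℤ := if ∃ q ∈ S, q ∣ a then 0 else if a % 2 = 0 then -1 else 1

end Pool.Agent.EgO
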