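import Pool.Agent.EgO.Aut
import Pool.Agent.EgO.Blk

/-!
# Alternating composition factors
-/

set_option autoImplicit false

namespace Pool.Agent.EgO

open Equiv

/-- `f` embeds the alternating group in `H`, and each conjugate of the image is equal to the image or commutes with it. -/
structure Emb {H : Type*} [Group H] {n : ℕ} (f : alternatingGroup (Fin n) →* H) : Prop where
  inj : Function.Injective f
  con : ∀ g : H, (∀ x, ∃ y, g * f x * g⁻¹ = f y) ∨ (∀ x y, g * f x * g⁻¹ * f y = f y * (g * f x * g⁻¹))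

-- BEGIN se1
/-- The case distinction for a simple group. -/
private theorem se1_con {H A : Type*} [Group H] [Group A] [Finite A] [IsSimpleGroup A] (f : A →* H)
    (inj : Function.Injective f) (N : Subgroup H) [N.Normal] (hN : ∀ x, f x ∈ N)
    (hf : ∀ g ∈ N, ∀ x, ∃ y, g * f x * g⁻¹ = f y) (g : H) :
    (∀ x, ∃ y, g * f x * g⁻¹ = f y) ∨ (∀ x y, g * f x * g⁻¹ * f y = f y * (g * f x * g⁻¹)) := by
  have hg : ∀ z : A, ∀ y : A, ∃ y', f z * (g * f y * g⁻¹) * (f z)⁻¹ = g * f y' * g⁻¹ := by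
    intro z y
    have h1 : g⁻¹ * f z * g ∈ N := by
      have := ‹N.Normal›.conj_mem (f z) (hN z) g⁻¹
      rwa [inv_inv] at this
    obtain ⟨y', hy'⟩ := hf _ h1 y
    refine ⟨y', ?_⟩
    rw [← hy']
    group
  let D : Subgroup A :=
    { carrier := {x | ∃ y, g * f y * g⁻¹ = f x}
      mul_mem' := by
        rintro a b ⟨y, hy⟩ ⟨z, hz⟩
        refine ⟨y * z, ?_⟩
        rw [map_mul, map_mul, ← hy, ← hz]
        group
      one_mem' := ⟨1, by rw [map_one, mul_one, mul_inv_cancel]⟩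
      inv_mem' := by
        rintro a ⟨y, hy⟩
        refine ⟨y⁻¹, ?_⟩
        rw [map_inv, map_inv, ← hy]
        group }
  have hD : D.Normal := ⟨by
    rintro a ⟨y, hy⟩ z
    obtain ⟨y', hy'⟩ := hg z y
    refine ⟨y', ?_⟩
    rw [← hy', hy, map_mul, map_mul, map_inv]⟩
  rcases hD.eq_bot_or_eq_top with h | h
  · right
    intro x y
    have h1 : g * f x * g⁻¹ ∈ N := ‹N.Normal›.conj_mem _ (hN x) g
    obtain ⟨y', hy'⟩ := hf _ h1 y
    obtain ⟨x', hx'⟩ := hg y x⁻¹
    have h2 : y' * y⁻¹ ∈ D := by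
      refine ⟨x * x', ?_⟩
      rw [map_mul, map_mul, map_inv, ← hy']
      have h3 : g * (f x * f x') * g⁻¹ = (g * f x * g⁻¹) * (g * f x' * g⁻¹) := by group
      rw [h3, ← hx', map_inv]
      group
    rw [h, Subgroup.mem_bot] at h2
    have h3 : y' = y := mul_inv_eq_one.1 h2
    rw [h3] at hy'
    exact mul_inv_eq_iff_eq_mul.1 hy'
  · left
    have h1 : ∀ x, ∃ y, g * f y * g⁻¹ = f x := fun x => by
      have : x ∈ D := by rw [h]; exact Subgroup.mem_top x
      exact this
    choose k hk using h1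
    have hki : Function.Injective k := by
      intro a b hab
      apply inj
      rw [← hk a, ← hk b, hab]
    intro x
    obtain ⟨y, rfl⟩ := (Finite.injective_iff_surjective.1 hki) x
    exact ⟨y, hk y⟩

/-- PROOF. `f` = inverse of `e`, then `S / K → G / K`. In `H = G / K` let `T = range f` and `N` the image of `L`, `N` is normal in `H`, `T` normal in `N`. For `g ∈ H` the conjugate `T' = g T g⁻¹` is normal in `N` (`N` is normal in `H`). `T ⊓ T'`
is normal in `N`, hence in `T`, and `T` is simple (`alternatingGroup.isSimpleGroup`, `5 ≤ n`): if it is `T`, then `T = T'` (same cardinality), the first case; if it is trivial, the commutators of `T'` and `T` are in `T ⊓ T'`, the second case. -/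
theorem se1 {G : Type*} [Group G] [Finite G] {n : ℕ} (hn : 5 ≤ n) (K L S : Subgroup G) [K.Normal] [L.Normal] (hKS : K ≤ S)
    (hSL : S ≤ L) (hS : ∀ l ∈ L, ∀ s ∈ S, l * s * l⁻¹ ∈ S) (e : S ⧸ K.subgroupOf S ≃* alternatingGroup (Fin n)) :
    ∃ f : alternatingGroup (Fin n) →* G ⧸ K, Emb f := by
  have hsimp : IsSimpleGroup (alternatingGroup (Fin n)) :=
    alternatingGroup.isSimpleGroup (by simpa using hn)
  let i : S ⧸ K.subgroupOf S →* G ⧸ K := QuotientGroup.map (K.subgroupOf S) K S.subtype le_rfl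
  have hi : ∀ s : S, i (QuotientGroup.mk s) = QuotientGroup.mk (s : G) := fun s => rfl
  have hinj : Function.Injective i := by
    rw [injective_iff_map_eq_one]
    intro a ha
    obtain ⟨s, rfl⟩ := QuotientGroup.mk_surjective a
    rw [hi, QuotientGroup.eq_one_iff] at ha
    exact (QuotientGroup.eq_one_iff s).2 (Subgroup.mem_subgroupOf.2 ha)
  let f : alternatingGroup (Fin n) →* G ⧸ K := i.comp e.symm.toMonoidHom
  have hf : ∀ x, f x = i (e.symm x) := fun x => rfl
  have hf1 : ∀ x, ∃ s ∈ S, f x = QuotientGroup.mk s := by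
    intro x
    obtain ⟨s, hs⟩ := QuotientGroup.mk_surjective (e.symm x)
    exact ⟨s, s.2, by rw [hf, ← hs, hi]⟩
  have hf2 : ∀ s ∈ S, ∃ x, f x = QuotientGroup.mk s := by
    intro s hs
    exact ⟨e (QuotientGroup.mk (⟨s, hs⟩ : S)), by rw [hf, e.symm_apply_apply, hi]⟩
  have hfi : Function.Injective f := hinj.comp e.symm.injective
  refine ⟨f, hfi, ?_⟩
  have hNn : (L.map (QuotientGroup.mk' K)).Normal :=
    Subgroup.Normal.map ‹L.Normal› _ (QuotientGroup.mk'_surjective K)
  refine se1_con f hfi (L.map (QuotientGroup.mk' K)) ?_ ?_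
  · intro x
    obtain ⟨s, hs, h⟩ := hf1 x
    exact ⟨s, hSL hs, h.symm⟩
  · rintro _ ⟨l, hl, rfl⟩ x
    obtain ⟨s, hs, h⟩ := hf1 x
    obtain ⟨y, hy⟩ := hf2 _ (hS l hl s hs)
    refine ⟨y, ?_⟩
    rw [hy, h]
    rfl
-- END se1

-- BEGIN bp2
private theorem bp2_cent {n : ℕ} (hn : 9 ≤ n) (π : Perm (Fin n))
    (h : ∀ x : alternatingGroup (Fin n), π * (x : Perm (Fin n)) = (x : Perm (Fin n)) * π) :
    π = 1 := by
  classical
  have hex : ∀ s : Finset (Fin n), s.card ≤ 3 → ∃ c, c ∉ s := by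
    intro s hs
    by_contra hcon
    push Not at hcon
    have h1 : (Finset.univ : Finset (Fin n)) ⊆ s := fun x _ => hcon x
    have h2 := Finset.card_le_card h1
    rw [Finset.card_univ, Fintype.card_fin] at h2
    omega
  ext1 a
  by_contra hab
  rw [Perm.one_apply] at hab
  obtain ⟨c, hc⟩ := hex {a, π a} (Finset.card_le_two.trans (by norm_num))
  obtain ⟨d, hd⟩ := hex {a, π a, c} Finset.card_le_three
  simp only [Finset.mem_insert, Finset.mem_singleton, not_or] at hc hd
  have hx : swap (π a) c * swap c d ∈ alternatingGroup (Fin n) := by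
    rw [Perm.mem_alternatingGroup, Perm.sign_mul, Perm.sign_swap (fun h => hc.2 h.symm),
      Perm.sign_swap (fun h => hd.2.2 h.symm)]
    decide
  have h1 := congrFun (congrArg DFunLike.coe (h ⟨_, hx⟩)) a
  rw [Perm.mul_apply, Perm.mul_apply] at h1
  change π (swap (π a) c (swap c d a)) = swap (π a) c (swap c d (π a)) at h1
  rw [swap_apply_of_ne_of_ne (fun h => hc.1 h.symm) (fun h => hd.1 h.symm),
    swap_apply_of_ne_of_ne (fun h => hab h.symm) (fun h => hc.1 h.symm),
    swap_apply_of_ne_of_ne (fun h => hc.2 h.symm) (fun h => hd.2.1 h.symm), swap_apply_left] at h1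
  exact hc.2 h1.symm

/-- PROOF. Write `ḡ, ā` for the images in `G / K`, `T = range f`. Let `l ≥ 1` be minimal such that `ḡ ^ l` normalizes `T` (first case of `con`). Conjugation by `ḡ ^ l` gives an automorphism `φ` of the alternating group, `φ x = ρ x ρ⁻¹`
(`autA`). For `0 < j < l` the elements `ḡ ^ j f y ḡ ^ (-j)` commute with `T` (second case). Let `ā = f τ`, `σ = ρ τ`. By induction `(ḡ ā) ^ j f x (ḡ ā) ^ (-j) = ḡ ^ j f (τ x τ⁻¹) ḡ ^ (-j)` for `1 ≤ j ≤ l`, so conjugation by `(ḡ ā) ^ l` maps `f x` to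
`f (σ x σ⁻¹)`. With `N = orderOf (g * a)`: `(ḡ ā) ^ (l N) = 1`, so `σ ^ N` commutes with all even permutations, `σ ^ N = 1`. -/
theorem bp2 {G : Type*} [Group G] [Finite G] {n : ℕ} (hn : 9 ≤ n) {K : Subgroup G} [K.Normal]
    {f : alternatingGroup (Fin n) →* G ⧸ K} (hf : Emb f) (g : G) :
    ∃ ρ : Perm (Fin n), ∀ (τ : alternatingGroup (Fin n)) (a : G), (a : G ⧸ K) = f τ →
      orderOf (ρ * (τ : Perm (Fin n))) ∣ orderOf (g * a) := by
  classical
  set γ : G ⧸ K := (g : G ⧸ K) with hγ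
  have hex : ∃ j : ℕ, 0 < j ∧ ∀ x, ∃ y, γ ^ j * f x * (γ ^ j)⁻¹ = f y :=
    ⟨orderOf γ, orderOf_pos γ, fun x => ⟨x, by rw [pow_orderOf_eq_one, one_mul, inv_one, mul_one]⟩⟩
  obtain ⟨l, ⟨hl0, hl⟩, hmin⟩ : ∃ l : ℕ, (0 < l ∧ ∀ x, ∃ y, γ ^ l * f x * (γ ^ l)⁻¹ = f y) ∧
      ∀ j, 0 < j → j < l → ∀ x y, γ ^ j * f x * (γ ^ j)⁻¹ * f y =
        f y * (γ ^ j * f x * (γ ^ j)⁻¹) := by
    refine ⟨Nat.find hex, Nat.find_spec hex, fun j hj hjl => ?_⟩
    rcases hf.con (γ ^ j) with h1 | h1
    · exact absurd ⟨hj, h1⟩ (Nat.find_min hex hjl)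
    · exact h1
  choose φ0 hφ0 using hl
  have hφinj : Function.Injective φ0 := by
    intro x y hxy
    have h1 := hφ0 x
    rw [hxy, ← hφ0 y] at h1
    exact hf.inj (mul_left_cancel (mul_right_cancel h1))
  let φ : alternatingGroup (Fin n) ≃* alternatingGroup (Fin n) :=
    MulEquiv.ofBijective (MonoidHom.mk' φ0 (fun x y => by
      apply hf.inj
      rw [map_mul, ← hφ0, ← hφ0, ← hφ0, map_mul]
      group)) (Finite.injective_iff_bijective.1 hφinj)
  have hφ : ∀ x, φ x = φ0 x := fun x => rfl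
  obtain ⟨ρ, hρ⟩ := autA hn φ
  refine ⟨ρ, fun τ a ha => ?_⟩
  set β : G ⧸ K := γ * f τ with hβ
  have hβ' : ((g * a : G) : G ⧸ K) = β := by
    rw [QuotientGroup.mk_mul, ha]
  have step1 : ∀ j, 0 < j → j ≤ l → ∀ x, β ^ j * f x * (β ^ j)⁻¹ =
      γ ^ j * f (τ * x * τ⁻¹) * (γ ^ j)⁻¹ := by
    intro j
    induction j with
    | zero => intro h; exact absurd h (lt_irrefl 0)
    | succ j ih =>
      intro _ hjl x
      rcases Nat.eq_zero_or_pos j with hj | hj
      · subst hj
        rw [zero_add, pow_one, pow_one, hβ, map_mul, map_mul, map_inv]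
        group
      · have h1 := ih hj (by omega) x
        have h2 := hmin j hj (by omega) (τ * x * τ⁻¹) τ
        calc β ^ (j + 1) * f x * (β ^ (j + 1))⁻¹ = β * (β ^ j * f x * (β ^ j)⁻¹) * β⁻¹ := by
              rw [pow_succ', mul_inv_rev]
              group
          _ = γ * (f τ * (γ ^ j * f (τ * x * τ⁻¹) * (γ ^ j)⁻¹)) * (f τ)⁻¹ * γ⁻¹ := by
              rw [h1, hβ, mul_inv_rev]
              group
          _ = γ * ((γ ^ j * f (τ * x * τ⁻¹) * (γ ^ j)⁻¹) * f τ) * (f τ)⁻¹ * γ⁻¹ := by rw [h2]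
          _ = γ ^ (j + 1) * f (τ * x * τ⁻¹) * (γ ^ (j + 1))⁻¹ := by
              rw [pow_succ', mul_inv_rev]
              group
  have step2 : ∀ x, β ^ l * f x * (β ^ l)⁻¹ = f (φ (τ * x * τ⁻¹)) := by
    intro x
    rw [step1 l hl0 le_rfl x, hφ0, hφ]
  set σ : Perm (Fin n) := ρ * (τ : Perm (Fin n)) with hσ
  set ψ : alternatingGroup (Fin n) → alternatingGroup (Fin n) := fun x => φ (τ * x * τ⁻¹) with hψ
  have hψσ : ∀ x, ((ψ x : alternatingGroup (Fin n)) : Perm (Fin n)) = σ * x * σ⁻¹ := by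
    intro x
    rw [hψ]
    beta_reduce
    rw [hρ, hσ]
    push_cast
    group
  clear_value σ
  have step3 : ∀ (m : ℕ) (x : alternatingGroup (Fin n)),
      (β ^ l) ^ m * f x * ((β ^ l) ^ m)⁻¹ = f (ψ^[m] x) ∧
        ((ψ^[m] x : alternatingGroup (Fin n)) : Perm (Fin n)) = σ ^ m * x * (σ ^ m)⁻¹ := by
    intro m
    induction m with
    | zero =>
      intro x
      simp
    | succ m ih =>
      intro x
      obtain ⟨h1, h2⟩ := ih x
      rw [Function.iterate_succ_apply']
      constructor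
      · calc (β ^ l) ^ (m + 1) * f x * ((β ^ l) ^ (m + 1))⁻¹ =
            β ^ l * ((β ^ l) ^ m * f x * ((β ^ l) ^ m)⁻¹) * (β ^ l)⁻¹ := by
              rw [pow_succ', mul_inv_rev]
              group
          _ = f (ψ (ψ^[m] x)) := by rw [h1, step2]
      · rw [hψσ, h2, pow_succ', mul_inv_rev]
        group
  refine orderOf_dvd_of_pow_eq_one (bp2_cent hn _ fun x => ?_)
  obtain ⟨h1, h2⟩ := step3 (orderOf (g * a)) x
  have h3 : (β ^ l) ^ orderOf (g * a) = 1 := by
    rw [← pow_mul, mul_comm, pow_mul, ← hβ', ← QuotientGroup.mk_pow, pow_orderOf_eq_one,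
      QuotientGroup.mk_one, one_pow]
  rw [h3, one_mul, inv_one, mul_one] at h1
  rw [← hf.inj h1] at h2
  have h4 : (x : Perm (Fin n)) * σ ^ orderOf (g * a) = σ ^ orderOf (g * a) * x := by
    conv_lhs => rw [h2]
    group
  exact h4.symm
-- END bp2

-- BEGIN bc2
private theorem bc2_card {n : ℕ} (ρ : Perm (Fin n)) (m : ℕ) :
    Nat.card {τ : alternatingGroup (Fin n) // m ∣ orderOf (ρ * (τ : Perm (Fin n)))} = E n m (Perm.sign ρ) := by
  unfold E
  refine Nat.card_congr
    { toFun := fun τ => ⟨ρ * (τ.1 : Perm (Fin n)), ?_, τ.2⟩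
      invFun := fun σ => ⟨⟨ρ⁻¹ * σ.1, ?_⟩, ?_⟩
      left_inv := fun τ => by simp
      right_inv := fun σ => by simp }
  · have h : Perm.sign (τ.1 : Perm (Fin n)) = 1 := Perm.mem_alternatingGroup.1 τ.1.2
    rw [Perm.sign_mul, h, mul_one]
  · rw [Perm.mem_alternatingGroup, Perm.sign_mul, Perm.sign_inv, σ.2.1]
    exact Int.units_mul_self _
  · have h := σ.2.2
    simpa using h

private theorem bc2_dm (n m : ℕ) (ε : ℤˣ) : dm m n * n.factorial ≤ 2 * (E n m ε : ℚ) := by
  have hf : (0 : ℚ) < n.factorial := by exact_mod_cast n.factorial_pos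
  have h1 : dm m n ≤ dd m ε n := by
    unfold dm
    rcases Int.units_eq_one_or ε with h | h
    · rw [h]; exact min_le_left _ _
    · rw [h]; exact min_le_right _ _
  have h2 : dd m ε n * n.factorial = 2 * (E n m ε : ℚ) := by
    unfold dd
    field_simp
  rw [← h2]
  exact mul_le_mul_of_nonneg_right h1 hf.le

/-- PROOF. As `bc` (see its block in Blk.lean), with `bp2` instead of `bp`: choose `a τ ∈ G` over `f τ` for each `τ`. -/
theorem bc2 {G : Type*} [Group G] [Finite G] {n : ℕ} (hn : 9 ≤ n) {K : Subgroup G} [K.Normal]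
    {f : alternatingGroup (Fin n) →* G ⧸ K} (hf : Emb f) (m : ℕ) :
    (Nat.card G : ℚ) * dm m n ≤ Nat.card {g : G // m ∣ orderOf g} := by
  classical
  have : Fintype G := Fintype.ofFinite G
  have : Nontrivial (Fin n) := Fin.nontrivial_iff_two_le.2 (by omega)
  choose a ha using fun τ : alternatingGroup (Fin n) => QuotientGroup.mk_surjective (f τ)
  choose ρ hρ using fun g : G => bp2 hn hf g
  have hA : 2 * Fintype.card (alternatingGroup (Fin n)) = n.factorial := by
    rw [two_mul_card_alternatingGroup, Fintype.card_perm, Fintype.card_fin]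
  have hA' : 2 * (Fintype.card (alternatingGroup (Fin n)) : ℚ) = n.factorial := by exact_mod_cast hA
  have hf : (0 : ℚ) < n.factorial := by exact_mod_cast n.factorial_pos
  have hApos : (0 : ℚ) < Fintype.card (alternatingGroup (Fin n)) := by linarith
  have hN : (Nat.card {g : G // m ∣ orderOf g} : ℚ) = ∑ g : G, if m ∣ orderOf g then (1 : ℚ) else 0 := by
    rw [Nat.card_eq_fintype_card, Fintype.card_subtype, Finset.sum_boole]
  have h1 : ∑ g : G, ∑ τ : alternatingGroup (Fin n), (if m ∣ orderOf (g * a τ) then (1 : ℚ) else 0) =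
      Fintype.card (alternatingGroup (Fin n)) * (Nat.card {g : G // m ∣ orderOf g} : ℚ) := by
    rw [Finset.sum_comm, hN]
    have h2 : ∀ τ : alternatingGroup (Fin n), ∑ g : G, (if m ∣ orderOf (g * a τ) then (1 : ℚ) else 0) =
        ∑ g : G, if m ∣ orderOf g then (1 : ℚ) else 0 := fun τ =>
      Fintype.sum_equiv (Equiv.mulRight (a τ)) _ _ fun g => rfl
    rw [Finset.sum_congr rfl fun τ _ => h2 τ, Finset.sum_const, Finset.card_univ, nsmul_eq_mul]
  have h3 : ∀ g : G, dm m n * Fintype.card (alternatingGroup (Fin n)) ≤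
      ∑ τ : alternatingGroup (Fin n), (if m ∣ orderOf (g * a τ) then (1 : ℚ) else 0) := by
    intro g
    have h4 : ∑ τ : alternatingGroup (Fin n), (if m ∣ orderOf (ρ g * (τ : Perm (Fin n))) then (1 : ℚ) else 0) =
        (E n m (Perm.sign (ρ g)) : ℚ) := by
      rw [← bc2_card, Nat.card_eq_fintype_card, Fintype.card_subtype, Finset.sum_boole]
    have h5 : ∑ τ : alternatingGroup (Fin n), (if m ∣ orderOf (ρ g * (τ : Perm (Fin n))) then (1 : ℚ) else 0) ≤
        ∑ τ : alternatingGroup (Fin n), (if m ∣ orderOf (g * a τ) then (1 : ℚ) else 0) := by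
      refine Finset.sum_le_sum fun τ _ => ?_
      split_ifs with h6 h7
      · exact le_rfl
      · exact absurd (h6.trans (hρ g τ (a τ) (ha τ))) h7
      · norm_num
      · exact le_rfl
    have h6 := bc2_dm n m (Perm.sign (ρ g))
    rw [h4] at h5
    rw [← hA'] at h6
    linarith
  have h7 : (Nat.card G : ℚ) * (dm m n * Fintype.card (alternatingGroup (Fin n))) ≤
      Fintype.card (alternatingGroup (Fin n)) * (Nat.card {g : G // m ∣ orderOf g} : ℚ) := by
    rw [← h1, Nat.card_eq_fintype_card, ← nsmul_eq_mul, ← Finset.card_univ, ← Finset.sum_const]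
    exact Finset.sum_le_sum fun g _ => h3 g
  have h8 : ((Nat.card G : ℚ) * dm m n) * Fintype.card (alternatingGroup (Fin n)) ≤
      (Nat.card {g : G // m ∣ orderOf g} : ℚ) * Fintype.card (alternatingGroup (Fin n)) := by
    linarith
  exact le_of_mul_le_mul_right h8 hApos
-- END bc2

end Pool.Agent.EgO
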