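import Pool.Agent.EgO.Defs

/-!
# An upper bound for the product of `p / (p - 1)` over the primes `p ≤ n`
-/

set_option autoImplicit false

namespace Pool.Agent.EgO

-- BEGIN Mle
private theorem Mle_pos {p : ℕ} (hp : p.Prime) : (0 : ℚ) < (p : ℚ) - 1 ∧ (1 : ℚ) ≤ (p : ℚ) / (p - 1) := by
  have h1 : (2 : ℚ) ≤ p := by exact_mod_cast hp.two_le
  have h2 : (0 : ℚ) < (p : ℚ) - 1 := by linarith
  exact ⟨h2, (one_le_div h2).2 (by linarith)⟩

/-- PROOF. More factors, all `≥ 1`. -/
theorem M_mono {x y : ℕ} (h : x ≤ y) : M x ≤ M y := by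
  rw [M, M]
  have hsub : (Finset.range (x + 1)).filter Nat.Prime ⊆ (Finset.range (y + 1)).filter Nat.Prime := by
    intro p hp
    rw [Finset.mem_filter, Finset.mem_range] at hp ⊢
    exact ⟨by omega, hp.2⟩
  rw [← Finset.prod_sdiff hsub]
  have h1 : (1 : ℚ) ≤ ∏ p ∈ (Finset.range (y + 1)).filter Nat.Prime \ (Finset.range (x + 1)).filter Nat.Prime,
      (p : ℚ) / (p - 1) := by
    refine Finset.prod_induction _ (fun t : ℚ => 1 ≤ t) (fun a b ha hb => ?_) le_rfl ?_
    · nlinarith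
    · intro p hp
      exact (Mle_pos (Finset.mem_filter.1 (Finset.mem_sdiff.1 hp).1).2).2
  have h2 : (0 : ℚ) ≤ ∏ p ∈ (Finset.range (x + 1)).filter Nat.Prime, (p : ℚ) / (p - 1) := by
    refine Finset.prod_nonneg fun p hp => ?_
    have h := (Mle_pos (Finset.mem_filter.1 hp).2).2
    linarith
  exact le_mul_of_one_le_left h2 h1

theorem M_pos (x : ℕ) : 0 < M x := by
  rw [M]
  refine Finset.prod_pos fun p hp => ?_
  have h := (Mle_pos (Finset.mem_filter.1 hp).2).2
  linarith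
-- END Mle

-- BEGIN blkc
/-- PROOF. Let `t` be the number of the primes in `(2 ^ k, 2 ^ (k + 1)]`. Their product divides `Nat.choose (2 ^ (k + 1)) (2 ^ k)` (`= Nat.centralBinom (2 ^ k)`), which is
`≤ 4 ^ 2 ^ k`, and is `≥ (2 ^ k) ^ t`. So `k t ≤ 2 * 2 ^ k`. (Or from `primorial`: search Mathlib, e.g. the proof of `primorial_le_4_pow`, Bertrand, Chebyshev.) -/
theorem blkc (k : ℕ) : k * ((Finset.Ioc (2 ^ k) (2 ^ (k + 1))).filter Nat.Prime).card ≤ 2 * 2 ^ k := by
  have h1 : ∏ p ∈ (Finset.Ioc (2 ^ k) (2 ^ (k + 1))).filter Nat.Prime, p ∣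
      Nat.choose (2 ^ (k + 1)) (2 ^ k) := by
    apply Finset.prod_primes_dvd
    · intro p hp
      rw [Finset.mem_filter] at hp
      exact hp.2.prime
    · intro p hp
      rw [Finset.mem_filter, Finset.mem_Ioc] at hp
      have h2 : 2 ^ (k + 1) = 2 ^ k + 2 ^ k := by rw [pow_succ]; ring
      exact hp.2.dvd_choose hp.1.1 (by omega) hp.1.2
  have h3 : Nat.choose (2 ^ (k + 1)) (2 ^ k) ≤ 2 ^ 2 ^ (k + 1) := Nat.choose_le_two_pow _ _
  have h4 : 0 < Nat.choose (2 ^ (k + 1)) (2 ^ k) :=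
    Nat.choose_pos (Nat.pow_le_pow_right (by norm_num) (Nat.le_succ k))
  have h5 := (Nat.le_of_dvd h4 h1).trans h3
  have h6 : ∏ p ∈ (Finset.Ioc (2 ^ k) (2 ^ (k + 1))).filter Nat.Prime, 2 ^ k ≤
      ∏ p ∈ (Finset.Ioc (2 ^ k) (2 ^ (k + 1))).filter Nat.Prime, p := by
    apply Finset.prod_le_prod (fun _ _ => Nat.zero_le _)
    intro p hp
    rw [Finset.mem_filter, Finset.mem_Ioc] at hp
    exact hp.1.1.le
  rw [Finset.prod_const, ← pow_mul] at h6
  have h7 := (Nat.pow_le_pow_iff_right (a := 2) (by norm_num)).1 (h6.trans h5)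
  exact h7.trans (le_of_eq (by rw [pow_succ]; ring))
-- END blkc

-- BEGIN stepM
private theorem stepM_real {k : ℕ} (hk : 2 ≤ k) (t : ℕ) (ht : k * t ≤ 2 * 2 ^ k) :
    ((1 : ℝ) + 1 / 2 ^ k) ^ t ≤ ((k : ℝ) / (k - 1)) ^ 2 := by
  have hk0 : (0 : ℝ) < k := by exact_mod_cast (by omega : 0 < k)
  have hk1 : (0 : ℝ) < (k : ℝ) - 1 := by
    have : (2 : ℝ) ≤ k := by exact_mod_cast hk
    linarith
  have hN : (0 : ℝ) < 2 ^ k := by positivity
  have h1 : (1 : ℝ) + 1 / 2 ^ k ≤ Real.exp (1 / 2 ^ k) := by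
    have := Real.add_one_le_exp ((1 : ℝ) / 2 ^ k)
    linarith
  have h2 : ((1 : ℝ) + 1 / 2 ^ k) ^ t ≤ Real.exp (1 / 2 ^ k) ^ t := pow_le_pow_left₀ (by positivity) h1 t
  have h3 : Real.exp (1 / 2 ^ k) ^ t = Real.exp (t * (1 / 2 ^ k)) := (Real.exp_nat_mul _ t).symm
  have h4 : (t : ℝ) * (1 / 2 ^ k) ≤ ((2 : ℕ) : ℝ) * (1 / k) := by
    have h : (k : ℝ) * t ≤ 2 * 2 ^ k := by exact_mod_cast ht
    rw [mul_one_div, mul_one_div, div_le_div_iff₀ hN hk0]
    push_cast
    linarith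
  have h5 : Real.exp (((2 : ℕ) : ℝ) * (1 / k)) = Real.exp (1 / k) ^ 2 := Real.exp_nat_mul _ 2
  have h6 : Real.exp (1 / (k : ℝ)) ≤ k / (k - 1) := by
    have h7 := Real.add_one_le_exp (-(1 / (k : ℝ)))
    rw [Real.exp_neg] at h7
    have h8 : (0 : ℝ) < -(1 / (k : ℝ)) + 1 := by
      have : 1 / (k : ℝ) < 1 := by rw [div_lt_one hk0]; linarith
      linarith
    have h9 : Real.exp (1 / (k : ℝ)) ≤ (-(1 / (k : ℝ)) + 1)⁻¹ := by
      rw [le_inv_comm₀ (Real.exp_pos _) h8]
      exact h7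
    have h10 : -(1 / (k : ℝ)) + 1 = (k - 1) / k := by
      rw [sub_div, div_self hk0.ne']
      ring
    rw [h10, inv_div] at h9
    exact h9
  calc ((1 : ℝ) + 1 / 2 ^ k) ^ t ≤ Real.exp (t * (1 / 2 ^ k)) := h3 ▸ h2
    _ ≤ Real.exp (((2 : ℕ) : ℝ) * (1 / k)) := Real.exp_le_exp.2 h4
    _ = Real.exp (1 / k) ^ 2 := h5
    _ ≤ ((k : ℝ) / (k - 1)) ^ 2 := pow_le_pow_left₀ (Real.exp_pos _).le h6 2

/-- PROOF. `M (2 ^ (k + 1)) = M (2 ^ k) * ∏_{2 ^ k < p ≤ 2 ^ (k + 1)} p / (p - 1)`, each factor is `≤ 1 + 2 ^ (-k)`, there are `t ≤ 2 * 2 ^ k / k` of them,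
`(1 + 2 ^ (-k)) ^ t ≤ exp (t / 2 ^ k) ≤ exp (2 / k)` and `exp (1 / k) ≤ 1 / (1 - 1 / k) = k / (k - 1)` (`Real.add_one_le_exp (-1 / k)`). -/
theorem stepM {k : ℕ} (hk : 2 ≤ k) : M (2 ^ (k + 1)) ≤ M (2 ^ k) * ((k : ℚ) / (k - 1)) ^ 2 := by
  have hle : 2 ^ k ≤ 2 ^ (k + 1) := Nat.pow_le_pow_right (by norm_num) (by omega)
  have hset : (Finset.range (2 ^ (k + 1) + 1)).filter Nat.Prime =
      (Finset.range (2 ^ k + 1)).filter Nat.Prime ∪ (Finset.Ioc (2 ^ k) (2 ^ (k + 1))).filter Nat.Prime := by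
    ext p
    simp only [Finset.mem_filter, Finset.mem_range, Finset.mem_union, Finset.mem_Ioc]
    constructor
    · rintro ⟨h1, h2⟩
      by_cases h : p < 2 ^ k + 1
      · exact Or.inl ⟨h, h2⟩
      · exact Or.inr ⟨⟨by omega, by omega⟩, h2⟩
    · rintro (⟨h1, h2⟩ | ⟨⟨h0, h1⟩, h2⟩)
      · exact ⟨by omega, h2⟩
      · exact ⟨by omega, h2⟩
  have hdis : Disjoint ((Finset.range (2 ^ k + 1)).filter Nat.Prime) ((Finset.Ioc (2 ^ k) (2 ^ (k + 1))).filter Nat.Prime) := by
    rw [Finset.disjoint_left]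
    intro p h1 h2
    simp only [Finset.mem_filter, Finset.mem_range, Finset.mem_Ioc] at h1 h2
    omega
  have hM : M (2 ^ (k + 1)) = M (2 ^ k) *
      ∏ p ∈ (Finset.Ioc (2 ^ k) (2 ^ (k + 1))).filter Nat.Prime, (p : ℚ) / (p - 1) := by
    rw [M, M, hset, Finset.prod_union hdis]
  rw [hM]
  refine mul_le_mul_of_nonneg_left ?_ (M_pos _).le
  have h1 : ∏ p ∈ (Finset.Ioc (2 ^ k) (2 ^ (k + 1))).filter Nat.Prime, (p : ℚ) / (p - 1) ≤
      ∏ _p ∈ (Finset.Ioc (2 ^ k) (2 ^ (k + 1))).filter Nat.Prime, ((1 : ℚ) + 1 / 2 ^ k) := by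
    have hfac : ∀ p ∈ (Finset.Ioc (2 ^ k) (2 ^ (k + 1))).filter Nat.Prime, (2 : ℚ) ^ k + 1 ≤ p := by
      intro p hp
      simp only [Finset.mem_filter, Finset.mem_Ioc] at hp
      have : 2 ^ k + 1 ≤ p := hp.1.1
      exact_mod_cast this
    have hN : (0 : ℚ) < 2 ^ k := by positivity
    refine Finset.prod_le_prod (fun p hp => ?_) fun p hp => ?_
    · have := hfac p hp
      exact div_nonneg (by linarith) (by linarith)
    · have := hfac p hp
      have h2 : (0 : ℚ) < (p : ℚ) - 1 := by linarith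
      have h3 : (1 : ℚ) / (p - 1) ≤ 1 / 2 ^ k := one_div_le_one_div_of_le hN (by linarith)
      have h4 : (p : ℚ) / (p - 1) = 1 + 1 / (p - 1) := by
        field_simp
        ring
      rw [h4]
      linarith
  refine h1.trans ?_
  rw [Finset.prod_const]
  have h2 := stepM_real hk _ (blkc k)
  refine (Rat.cast_le (K := ℝ)).1 ?_
  push_cast
  exact h2
-- END stepM

-- BEGIN MK
/-- PROOF. Induction on `K` from `12` with `stepM`, and `M_mono`: `n ≤ 2 ^ (K + 1)`. -/
theorem MK {K n : ℕ} (hK : 11 ≤ K) (hn : n ≤ 2 ^ (K + 1)) : M n ≤ M 4096 * ((K : ℚ) / 11) ^ 2 := by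
  have hmain : ∀ K : ℕ, 11 ≤ K → M (2 ^ (K + 1)) ≤ M 4096 * ((K : ℚ) / 11) ^ 2 := by
    intro K hK
    induction K, hK using Nat.le_induction with
    | base => norm_num
    | succ K hK ih =>
      have h1 := stepM (k := K + 1) (by omega)
      have hKq : (11 : ℚ) ≤ K := by exact_mod_cast hK
      have hK0 : (K : ℚ) ≠ 0 := by linarith
      have h2 : (((K + 1 : ℕ) : ℚ) / (((K + 1 : ℕ) : ℚ) - 1)) ^ 2 = ((K + 1 : ℚ) / K) ^ 2 := by
        push_cast
        rw [add_sub_cancel_right]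
      rw [h2] at h1
      refine h1.trans ?_
      calc M (2 ^ (K + 1)) * ((K + 1 : ℚ) / K) ^ 2
          ≤ (M 4096 * ((K : ℚ) / 11) ^ 2) * ((K + 1 : ℚ) / K) ^ 2 := mul_le_mul_of_nonneg_right ih (by positivity)
        _ = M 4096 * (((K + 1 : ℕ) : ℚ) / 11) ^ 2 := by
          push_cast
          field_simp
  exact (M_mono hn).trans (hmain K hK)
-- END MK

-- BEGIN M4096
/-- the numerators `61 < a`, `a` prime to the primes `≤ 61` -/
private def M4096_n (a : ℕ) : ℕ := if Nat.gcd a 117288381359406970983270 = 1 then (if 61 < a then a else 1) else 1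

/-- the denominators -/
private def M4096_d (a : ℕ) : ℕ := if Nat.gcd a 117288381359406970983270 = 1 then (if 61 < a then a - 1 else 1) else 1

/-- product over `2 ^ k` values from `a` on, by halving -/
private def M4096_go (f : ℕ → ℕ) : ℕ → ℕ → ℕ
  | 0, a => f a
  | k + 1, a => M4096_go f k a * M4096_go f k (a + 2 ^ k)

private theorem M4096_go_eq (f : ℕ → ℕ) (k a : ℕ) : M4096_go f k a = ∏ i ∈ Finset.range (2 ^ k), f (a + i) := by
  induction k generalizing a with
  | zero => simp [M4096_go]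
  | succ k ih =>
    rw [M4096_go, ih, ih, pow_succ, mul_two, Finset.prod_range_add]
    simp only [add_assoc]

private theorem M4096_num : 100 * (117288381359406970983270 * M4096_go M4096_n 12 0) ≤ 1485 * (15433667505888952320000 * M4096_go M4096_d 12 0) := by
  decide +kernel

private theorem M4096_term (a : ℕ) : ((M4096_n a : ℕ) : ℚ) / ((M4096_d a : ℕ) : ℚ) =
    if 61 < a ∧ Nat.gcd a 117288381359406970983270 = 1 then (a : ℚ) / (a - 1) else 1 := by
  unfold M4096_n M4096_d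
  by_cases h1 : Nat.gcd a 117288381359406970983270 = 1
  · by_cases h2 : 61 < a
    · simp only [h1, h2, if_true, and_self]
      rw [Nat.cast_sub (by omega)]
      push_cast
      rfl
    · simp [h1, h2]
  · simp [h1]

private theorem M4096_prod : ∏ a ∈ (Finset.range 4096).filter (fun a => 61 < a ∧ Nat.gcd a 117288381359406970983270 = 1), (a : ℚ) / (a - 1) =
    (M4096_go M4096_n 12 0 : ℚ) / (M4096_go M4096_d 12 0 : ℚ) := by
  rw [Finset.prod_filter, M4096_go_eq, M4096_go_eq]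
  push_cast
  rw [← Finset.prod_div_distrib]
  refine Finset.prod_congr (by norm_num) fun a _ => ?_
  rw [← M4096_term a, Nat.zero_add]

/-- PROOF. Kernel computation: the primes `≤ 4096` are among the numbers `≤ 4096` which are `≤ 61` and prime or divisible by no prime `≤ 61`; the product of
`p / (p - 1)` over these numbers is `14.8464..`. (`decide +kernel` on natural numbers: `100 * ∏ p ≤ 1485 * ∏ (p - 1)`.) -/
theorem M4096 : M 4096 ≤ 1485 / 100 := by
  have one_le : ∀ a : ℕ, 2 ≤ a → (1 : ℚ) ≤ (a : ℚ) / (a - 1) := by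
    intro a ha
    have h2 : (2 : ℚ) ≤ a := by exact_mod_cast ha
    rw [le_div_iff₀ (by linarith)]
    linarith
  have hS : (Finset.range (4096 + 1)).filter Nat.Prime ⊆
      ({2, 3, 5, 7, 11, 13, 17, 19, 23, 29, 31, 37, 41, 43, 47, 53, 59, 61} : Finset ℕ) ∪ (Finset.range 4096).filter (fun a => 61 < a ∧ Nat.gcd a 117288381359406970983270 = 1) := by
    intro p hp
    rw [Finset.mem_filter, Finset.mem_range] at hp
    obtain ⟨hp1, hp2⟩ := hp
    rw [Finset.mem_union]
    by_cases h61 : p ≤ 61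
    · left
      revert hp2
      interval_cases p <;> first | (intro _; decide) | (intro h; exact absurd h (by norm_num))
    · right
      have hne : p ≠ 4096 := by
        rintro rfl
        exact absurd hp2 (by norm_num)
      rw [Finset.mem_filter, Finset.mem_range]
      refine ⟨by omega, by omega, ?_⟩
      have hf : (117288381359406970983270 : ℕ) ∣ Nat.factorial 61 := by decide +kernel
      have hnd : ¬ p ∣ Nat.factorial 61 := fun h => h61 (hp2.dvd_factorial.1 h)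
      have hco : Nat.Coprime p (Nat.factorial 61) := (Nat.Prime.coprime_iff_not_dvd hp2).2 hnd
      exact hco.coprime_dvd_right hf
  have hdis : Disjoint ({2, 3, 5, 7, 11, 13, 17, 19, 23, 29, 31, 37, 41, 43, 47, 53, 59, 61} : Finset ℕ) ((Finset.range 4096).filter (fun a => 61 < a ∧ Nat.gcd a 117288381359406970983270 = 1)) := by
    rw [Finset.disjoint_left]
    intro a ha ha'
    have h1 := (Finset.mem_filter.1 ha').2.1
    have h2 : ∀ x ∈ ({2, 3, 5, 7, 11, 13, 17, 19, 23, 29, 31, 37, 41, 43, 47, 53, 59, 61} : Finset ℕ), x ≤ 61 := by decide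
    have h3 := h2 a ha
    omega
  have hall : ∀ a ∈ ({2, 3, 5, 7, 11, 13, 17, 19, 23, 29, 31, 37, 41, 43, 47, 53, 59, 61} : Finset ℕ) ∪ (Finset.range 4096).filter (fun a => 61 < a ∧ Nat.gcd a 117288381359406970983270 = 1), 2 ≤ a := by
    intro a ha
    rcases Finset.mem_union.1 ha with h | h
    · have h2 : ∀ x ∈ ({2, 3, 5, 7, 11, 13, 17, 19, 23, 29, 31, 37, 41, 43, 47, 53, 59, 61} : Finset ℕ), 2 ≤ x := by decide
      exact h2 a h
    · have h1 := (Finset.mem_filter.1 h).2.1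
      omega
  have h1 : M 4096 ≤ ∏ a ∈ ({2, 3, 5, 7, 11, 13, 17, 19, 23, 29, 31, 37, 41, 43, 47, 53, 59, 61} : Finset ℕ) ∪ (Finset.range 4096).filter (fun a => 61 < a ∧ Nat.gcd a 117288381359406970983270 = 1), (a : ℚ) / (a - 1) := by
    unfold M
    rw [← Finset.prod_sdiff hS]
    refine le_mul_of_one_le_left ?_ ?_
    · exact Finset.prod_nonneg fun a ha => zero_le_one.trans (one_le a (Finset.mem_filter.1 ha).2.two_le)
    · calc (1 : ℚ) = ∏ _a ∈ (({2, 3, 5, 7, 11, 13, 17, 19, 23, 29, 31, 37, 41, 43, 47, 53, 59, 61} : Finset ℕ) ∪ (Finset.range 4096).filter (fun a => 61 < a ∧ Nat.gcd a 117288381359406970983270 = 1)) \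
            (Finset.range (4096 + 1)).filter Nat.Prime, (1 : ℚ) := Finset.prod_const_one.symm
        _ ≤ _ := Finset.prod_le_prod (fun _ _ => zero_le_one) fun a ha => one_le a (hall a (Finset.mem_sdiff.1 ha).1)
  rw [Finset.prod_union hdis, M4096_prod] at h1
  have h2 : ∏ a ∈ ({2, 3, 5, 7, 11, 13, 17, 19, 23, 29, 31, 37, 41, 43, 47, 53, 59, 61} : Finset ℕ), (a : ℚ) / (a - 1) = (117288381359406970983270 : ℚ) / 15433667505888952320000 := by
    norm_num
  rw [h2] at h1
  refine h1.trans ?_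
  have h3 : (100 * (117288381359406970983270 * M4096_go M4096_n 12 0) : ℚ) ≤ 1485 * (15433667505888952320000 * M4096_go M4096_d 12 0) := by
    exact_mod_cast M4096_num
  have hd : (0 : ℚ) < (M4096_go M4096_d 12 0 : ℚ) := by
    have h4 : 0 < M4096_go M4096_d 12 0 := by
      rw [M4096_go_eq]
      refine Finset.prod_pos fun i _ => ?_
      unfold M4096_d
      split_ifs <;> omega
    exact_mod_cast h4
  rw [div_mul_div_comm, div_le_div_iff₀ (by positivity) (by norm_num)]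
  linarith
-- END M4096

-- BEGIN Msm
/-- a test that all primes pass -/
private def Msm_T (a : ℕ) : Bool :=
  (decide (31 < a) && decide (Nat.gcd a 200560490130 = 1)) ||
    decide (a ∈ [2, 3, 5, 7, 11, 13, 17, 19, 23, 29, 31])

private def Msm_n (N a : ℕ) : ℕ := if decide (a ≤ N) && Msm_T a then a else 1

private def Msm_d (N a : ℕ) : ℕ := if decide (a ≤ N) && Msm_T a then a - 1 else 1

/-- product over `2 ^ k` values from `a` on, by halving -/
private def Msm_go (f : ℕ → ℕ) : ℕ → ℕ → ℕ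
  | 0, a => f a
  | k + 1, a => Msm_go f k a * Msm_go f k (a + 2 ^ k)

private theorem Msm_go_eq (f : ℕ → ℕ) (k a : ℕ) : Msm_go f k a = ∏ i ∈ Finset.range (2 ^ k), f (a + i) := by
  induction k generalizing a with
  | zero => simp [Msm_go]
  | succ k ih =>
    rw [Msm_go, ih, ih, pow_succ, mul_two, Finset.prod_range_add]
    simp only [add_assoc]

private theorem Msm_two {a : ℕ} (h : Msm_T a = true) : 2 ≤ a := by
  unfold Msm_T at h
  rw [Bool.or_eq_true, Bool.and_eq_true, decide_eq_true_eq, decide_eq_true_eq, decide_eq_true_eq] at h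
  rcases h with h | h
  · omega
  · have h2 : ∀ x ∈ [2, 3, 5, 7, 11, 13, 17, 19, 23, 29, 31], 2 ≤ x := by decide
    exact h2 a h

private theorem Msm_prime {p : ℕ} (hp : p.Prime) : Msm_T p = true := by
  unfold Msm_T
  rw [Bool.or_eq_true, Bool.and_eq_true, decide_eq_true_eq, decide_eq_true_eq, decide_eq_true_eq]
  by_cases h31 : p ≤ 31
  · right
    revert hp
    interval_cases p <;> first | (intro _; decide) | (intro h; exact absurd h (by norm_num))
  · left
    refine ⟨by omega, ?_⟩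
    have hf : (200560490130 : ℕ) ∣ Nat.factorial 31 := by decide +kernel
    have hnd : ¬ p ∣ Nat.factorial 31 := fun h => h31 (hp.dvd_factorial.1 h)
    have hco : Nat.Coprime p (Nat.factorial 31) := (Nat.Prime.coprime_iff_not_dvd hp).2 hnd
    exact hco.coprime_dvd_right hf

private theorem Msm_dpos (N a : ℕ) : 0 < Msm_d N a := by
  unfold Msm_d
  split_ifs with h
  · rw [Bool.and_eq_true] at h
    have := Msm_two h.2
    omega
  · exact Nat.one_pos

private theorem Msm_one_le (N a : ℕ) : (1 : ℚ) ≤ (Msm_n N a : ℚ) / (Msm_d N a : ℚ) := by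
  have h0 : (0 : ℚ) < (Msm_d N a : ℚ) := by exact_mod_cast Msm_dpos N a
  rw [one_le_div h0]
  have h1 : Msm_d N a ≤ Msm_n N a := by
    unfold Msm_d Msm_n
    split_ifs <;> omega
  exact_mod_cast h1

private theorem Msm_le (N : ℕ) (hN : N < 2 ^ 11) :
    M N ≤ (Msm_go (Msm_n N) 11 0 : ℚ) / (Msm_go (Msm_d N) 11 0 : ℚ) := by
  rw [Msm_go_eq, Msm_go_eq, Nat.cast_prod, Nat.cast_prod, ← Finset.prod_div_distrib]
  simp only [Nat.zero_add]
  have hsub : (Finset.range (N + 1)).filter Nat.Prime ⊆ Finset.range (2 ^ 11) := by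
    intro p hp
    rw [Finset.mem_filter, Finset.mem_range] at hp
    rw [Finset.mem_range]
    omega
  rw [← Finset.prod_sdiff hsub]
  have h1 : M N = ∏ x ∈ (Finset.range (N + 1)).filter Nat.Prime, (Msm_n N x : ℚ) / (Msm_d N x : ℚ) := by
    unfold M
    refine Finset.prod_congr rfl fun p hp => ?_
    rw [Finset.mem_filter, Finset.mem_range] at hp
    have hc : (decide (p ≤ N) && Msm_T p) = true := by
      rw [Bool.and_eq_true, decide_eq_true_eq]
      exact ⟨by omega, Msm_prime hp.2⟩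
    unfold Msm_n Msm_d
    rw [if_pos hc, if_pos hc, Nat.cast_sub hp.2.one_lt.le, Nat.cast_one]
  rw [h1]
  refine le_mul_of_one_le_left ?_ ?_
  · exact Finset.prod_nonneg fun a _ => zero_le_one.trans (Msm_one_le N a)
  · calc (1 : ℚ) = ∏ _a ∈ Finset.range (2 ^ 11) \ (Finset.range (N + 1)).filter Nat.Prime, (1 : ℚ) :=
          Finset.prod_const_one.symm
      _ ≤ _ := Finset.prod_le_prod (fun _ _ => zero_le_one) fun a _ => Msm_one_le N a

private theorem Msm_fin {N p q : ℕ} (hN : N < 2 ^ 11) (hq : 0 < q)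
    (h : q * Msm_go (Msm_n N) 11 0 ≤ p * Msm_go (Msm_d N) 11 0) : M N ≤ (p : ℚ) / q := by
  refine (Msm_le N hN).trans ?_
  have hd : (0 : ℚ) < (Msm_go (Msm_d N) 11 0 : ℚ) := by
    have h4 : 0 < Msm_go (Msm_d N) 11 0 := by
      rw [Msm_go_eq]
      exact Finset.prod_pos fun i _ => Msm_dpos N _
    exact_mod_cast h4
  have hq' : (0 : ℚ) < q := by exact_mod_cast hq
  rw [div_le_div_iff₀ hd hq']
  have h' : ((q * Msm_go (Msm_n N) 11 0 : ℕ) : ℚ) ≤ ((p * Msm_go (Msm_d N) 11 0 : ℕ) : ℚ) := by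
    exact_mod_cast h
  push_cast at h'
  linarith

/-- PROOF. Kernel computation or `norm_num` / `simp` with `Finset.filter`, `Nat.Prime` decided. -/
theorem M28 : M 28 ≤ 6114 / 1000 := by
  have := Msm_fin (N := 28) (p := 6114) (q := 1000) (by norm_num) (by norm_num) (by decide +kernel)
  exact_mod_cast this

theorem M30 : M 30 ≤ 6332 / 1000 := by
  have := Msm_fin (N := 30) (p := 6332) (q := 1000) (by norm_num) (by norm_num) (by decide +kernel)
  exact_mod_cast this

theorem M36 : M 36 ≤ 6543 / 1000 := by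
  have := Msm_fin (N := 36) (p := 6543) (q := 1000) (by norm_num) (by norm_num) (by decide +kernel)
  exact_mod_cast this

theorem M60 : M 60 ≤ 7476 / 1000 := by
  have := Msm_fin (N := 60) (p := 7476) (q := 1000) (by norm_num) (by norm_num) (by decide +kernel)
  exact_mod_cast this

theorem M130 : M 130 ≤ 8783 / 1000 := by
  have := Msm_fin (N := 130) (p := 8783) (q := 1000) (by norm_num) (by norm_num) (by decide +kernel)
  exact_mod_cast this

theorem M1024 : M 1024 ≤ 1241 / 100 := by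
  have := Msm_fin (N := 1024) (p := 1241) (q := 100) (by norm_num) (by norm_num) (by decide +kernel)
  exact_mod_cast this
-- END Msm

end Pool.Agent.EgO
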