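import Pool.Agent.EgO.Defs

/-!
# The order inequality
-/

set_option autoImplicit false

namespace Pool.Agent.EgO

open Equiv

-- BEGIN cent
private theorem cent_class {G : Type*} [Group G] [Finite G] (g : G) :
    Nat.card (ConjClasses.mk g).carrier * Nat.card (Subgroup.centralizer {g}) = Nat.card G := by
  have h := Nat.card_congr (MulAction.orbitProdStabilizerEquivGroup (ConjAct G) g)
  rw [Nat.card_prod, ConjAct.orbit_eq_carrier_conjClasses] at h
  rw [Subgroup.nat_card_centralizer_nat_card_stabilizer, h]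
  exact Nat.card_congr ConjAct.ofConjAct.toEquiv

private theorem cent_fib {G : Type*} [Group G] [Fintype G] [DecidableEq G] (hG : Ah G) (d : ℕ) :
    ((Finset.univ.filter fun g : G => Nat.card (Subgroup.centralizer {g}) = d).card : ℚ) ≤ Nat.card G * ((1 : ℚ) / d) := by
  by_cases h : (Finset.univ.filter fun g : G => Nat.card (Subgroup.centralizer {g}) = d).Nonempty
  · obtain ⟨g0, hg0⟩ := h
    have hd : Nat.card (Subgroup.centralizer {g0}) = d := (Finset.mem_filter.1 hg0).2
    have hdpos : 0 < d := by rw [← hd]; exact Nat.card_pos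
    have hc := cent_class g0
    rw [hd] at hc
    have hsub : (Finset.univ.filter fun g : G => Nat.card (Subgroup.centralizer {g}) = d) ⊆
        (ConjClasses.mk g0).carrier.toFinset := by
      intro g hg
      have hd' : Nat.card (Subgroup.centralizer {g}) = d := (Finset.mem_filter.1 hg).2
      have hc' := cent_class g
      rw [hd'] at hc'
      have h1 : Nat.card (ConjClasses.mk g).carrier = Nat.card (ConjClasses.mk g0).carrier :=
        Nat.eq_of_mul_eq_mul_right hdpos (hc'.trans hc.symm)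
      rw [Set.mem_toFinset, ConjClasses.mem_carrier_iff_mk_eq]
      exact hG _ _ h1
    have h2 := Finset.card_le_card hsub
    rw [Set.toFinset_card, ← Nat.card_eq_fintype_card] at h2
    have hdq : (0 : ℚ) < d := by exact_mod_cast hdpos
    rw [mul_one_div, le_div_iff₀ hdq, ← hc]
    push_cast
    exact mul_le_mul_of_nonneg_right (by exact_mod_cast h2) hdq.le
  · rw [Finset.not_nonempty_iff_eq_empty.1 h]
    simp only [Finset.card_empty, Nat.cast_zero]
    positivity

/-- PROOF. The set is a union of classes; a class `C` of it has `|G| / c` elements, `c = |C_G(y)|`, `y ∈ C`, `c ∈ U`, `c ∣ |G|`; `C ↦ c` is injective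
(`hG`). So the number is `∑_C |G| / c ≤ |G| ∑_{d ∣ |G|, d ∈ U} 1 / d`. (Class size times centralizer order is `|G|`:
`Subgroup.nat_card_centralizer_nat_card_stabilizer`, `ConjAct.orbit_eq_carrier_conjClasses`, `MulAction.orbitProdStabilizerEquivGroup`.) -/
theorem cent {G : Type*} [Group G] [Finite G] (hG : Ah G) (U : Set ℕ) [DecidablePred (· ∈ U)] :
    (Nat.card {g : G // Nat.card (Subgroup.centralizer {g}) ∈ U} : ℚ) ≤
      Nat.card G * ∑ d ∈ (Nat.card G).divisors.filter (· ∈ U), (1 : ℚ) / d := by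
  classical
  have : Fintype G := Fintype.ofFinite G
  have h1 : (Nat.card {g : G // Nat.card (Subgroup.centralizer {g}) ∈ U} : ℚ) =
      ((Finset.univ.filter fun g : G => Nat.card (Subgroup.centralizer {g}) ∈ U).card : ℚ) := by
    rw [Nat.card_eq_fintype_card, Fintype.card_subtype]
  have h2 := Finset.card_eq_sum_card_fiberwise (s := Finset.univ.filter fun g : G => Nat.card (Subgroup.centralizer {g}) ∈ U)
    (t := (Nat.card G).divisors.filter (· ∈ U)) (f := fun g => Nat.card (Subgroup.centralizer {g})) (by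
      intro g hg
      have hg' := (Finset.mem_filter.1 hg).2
      have h3 : Nat.card (Subgroup.centralizer {g}) ∣ Nat.card G := Subgroup.card_subgroup_dvd_card _
      exact Finset.mem_coe.2 (Finset.mem_filter.2 ⟨Nat.mem_divisors.2 ⟨h3, Nat.card_pos.ne'⟩, hg'⟩))
  rw [h1, h2, Finset.mul_sum]
  push_cast
  refine Finset.sum_le_sum fun d _ => ?_
  refine le_trans ?_ (cent_fib hG d)
  exact_mod_cast Finset.card_le_card fun g hg => by
    rw [Finset.mem_filter] at hg ⊢
    exact ⟨Finset.mem_univ _, hg.2⟩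
-- END cent

-- BEGIN star
/-- PROOF. `cent` for `U` the multiples of `m`: `m ∣ orderOf g` implies `m ∣ |C_G(g)|` (`zpowers g ≤ centralizer`). The divisors of `|G|` divisible by `m`
are `m e` with `e ∣ |G|`, so the sum is at most `(1 / m) ∑ 1 / e`. -/
theorem star {G : Type*} [Group G] [Finite G] (hG : Ah G) {m : ℕ} (hm : 0 < m) :
    (m : ℚ) * Nat.card {g : G // m ∣ orderOf g} ≤ Nat.card G * ∑ d ∈ (Nat.card G).divisors, (1 : ℚ) / d := by
  classical
  have h1 := cent hG {c : ℕ | m ∣ c}
  have hmq : (0 : ℚ) < m := by exact_mod_cast hm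
  have : Fintype G := Fintype.ofFinite G
  have h2 : (Nat.card {g : G // m ∣ orderOf g} : ℚ) ≤
      Nat.card {g : G // Nat.card (Subgroup.centralizer {g}) ∈ {c : ℕ | m ∣ c}} := by
    have h3 : Nat.card {g : G // m ∣ orderOf g} ≤
        Nat.card {g : G // Nat.card (Subgroup.centralizer {g}) ∈ {c : ℕ | m ∣ c}} := by
      refine Nat.card_le_card_of_injective
        (fun g => ⟨g.1, ?_⟩ : {g : G // m ∣ orderOf g} → {g : G // Nat.card (Subgroup.centralizer {g}) ∈ {c : ℕ | m ∣ c}}) ?_
      · have h4 : orderOf g.1 ∣ Nat.card (Subgroup.centralizer {g.1}) := by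
          rw [← Nat.card_zpowers]
          refine Subgroup.card_dvd_of_le ?_
          rw [Subgroup.zpowers_le, Subgroup.mem_centralizer_singleton_iff]
        exact g.2.trans h4
      · intro x y hxy
        have h9 : x.1 = y.1 := by
          injection hxy
        exact Subtype.ext h9
    exact_mod_cast h3
  have h5 : (m : ℚ) * ∑ d ∈ (Nat.card G).divisors.filter (· ∈ {c : ℕ | m ∣ c}), (1 : ℚ) / d ≤
      ∑ d ∈ (Nat.card G).divisors, (1 : ℚ) / d := by
    rw [Finset.mul_sum]
    have h6 : ∑ d ∈ (Nat.card G).divisors.filter (· ∈ {c : ℕ | m ∣ c}), (m : ℚ) * ((1 : ℚ) / d) =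
        ∑ e ∈ ((Nat.card G).divisors.filter (· ∈ {c : ℕ | m ∣ c})).image (· / m), (1 : ℚ) / e := by
      rw [Finset.sum_image]
      · refine Finset.sum_congr rfl fun d hd => ?_
        have h7 : m ∣ d := (Finset.mem_filter.1 hd).2
        obtain ⟨e, rfl⟩ := h7
        rw [Nat.mul_div_cancel_left _ hm]
        push_cast
        rcases eq_or_ne (e : ℚ) 0 with he | he
        · rw [he]; simp
        · field_simp
      · intro a ha b hb hab
        have h7 : m ∣ a := (Finset.mem_filter.1 (Finset.mem_coe.1 ha)).2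
        have h8 : m ∣ b := (Finset.mem_filter.1 (Finset.mem_coe.1 hb)).2
        obtain ⟨a', rfl⟩ := h7
        obtain ⟨b', rfl⟩ := h8
        simp only [Nat.mul_div_cancel_left _ hm] at hab
        rw [hab]
    rw [h6]
    refine Finset.sum_le_sum_of_subset_of_nonneg ?_ fun _ _ _ => by positivity
    intro e he
    obtain ⟨d, hd, rfl⟩ := Finset.mem_image.1 he
    have h7 := (Finset.mem_filter.1 hd).1
    have h8 : m ∣ d := (Finset.mem_filter.1 hd).2
    rw [Nat.mem_divisors] at h7 ⊢
    exact ⟨(Nat.div_dvd_of_dvd h8).trans h7.1, h7.2⟩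
  calc (m : ℚ) * Nat.card {g : G // m ∣ orderOf g}
      ≤ m * (Nat.card G * ∑ d ∈ (Nat.card G).divisors.filter (· ∈ {c : ℕ | m ∣ c}), (1 : ℚ) / d) :=
        mul_le_mul_of_nonneg_left (h2.trans h1) hmq.le
    _ = Nat.card G * (m * ∑ d ∈ (Nat.card G).divisors.filter (· ∈ {c : ℕ | m ∣ c}), (1 : ℚ) / d) := by ring
    _ ≤ Nat.card G * ∑ d ∈ (Nat.card G).divisors, (1 : ℚ) / d :=
        mul_le_mul_of_nonneg_left h5 (Nat.cast_nonneg _)
-- END star

-- BEGIN sg
theorem sg_pp {p : ℕ} (hp : p.Prime) (n : ℕ) :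
    ∑ d ∈ (p ^ n).divisors, (1 : ℚ) / d ≤ (p : ℚ) / (p - 1) := by
  rw [Nat.sum_divisors_prime_pow hp]
  have h1 : (1 : ℚ) < p := by exact_mod_cast hp.one_lt
  have h0 : (0 : ℚ) < p := by linarith
  have h2 : (0 : ℚ) < p - 1 := by linarith
  have key : ∀ m : ℕ, ∑ j ∈ Finset.range m, (1 : ℚ) / ((p ^ j : ℕ) : ℚ) =
      (p : ℚ) / (p - 1) - 1 / ((p - 1) * (p : ℚ) ^ m) * p := by
    intro m
    induction m with
    | zero =>
      rw [Finset.sum_range_zero, pow_zero, mul_one]
      ring
    | succ m ih =>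
      rw [Finset.sum_range_succ, ih]
      have h3 : (p : ℚ) ^ m ≠ 0 := (pow_pos h0 m).ne'
      push_cast
      field_simp
      ring
  rw [key]
  have h4 : 0 ≤ 1 / ((p - 1) * (p : ℚ) ^ (n + 1)) * p :=
    mul_nonneg (div_nonneg zero_le_one (mul_nonneg h2.le (pow_nonneg h0.le _))) h0.le
  linarith

theorem sg_mul {a b : ℕ} (h : a.Coprime b) : ∑ d ∈ (a * b).divisors, (1 : ℚ) / d =
    (∑ d ∈ a.divisors, (1 : ℚ) / d) * ∑ d ∈ b.divisors, (1 : ℚ) / d := by
  classical
  rw [Finset.sum_mul_sum, ← Finset.sum_product', Nat.divisors_mul]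
  change ∑ d ∈ Finset.image₂ (fun x y => x * y) a.divisors b.divisors, (1 : ℚ) / d = _
  rw [← Finset.image_uncurry_product, Finset.sum_image]
  · apply Finset.sum_congr rfl
    rintro ⟨x, y⟩ _
    simp only [Function.uncurry]
    push_cast
    rw [div_mul_div_comm, one_mul]
  · intro x hx y hy hxy
    exact h.mul_injOn_divisors hx hy hxy

/-- PROOF. Induction (`Nat.recOnPosPrimePosCoprime` or on the factorization): for `N = p ^ a` the sum is `∑_{j ≤ a} p ^ (-j) ≤ p / (p - 1)`; multiplicativity over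
coprime factors (`Nat.Coprime.sum_divisors_mul..`, `Nat.Coprime.primeFactors_mul`). -/
theorem sg {N : ℕ} (hN : N ≠ 0) : ∑ d ∈ N.divisors, (1 : ℚ) / d ≤ ∏ p ∈ N.primeFactors, (p : ℚ) / (p - 1) := by
  induction N using Nat.recOnPosPrimePosCoprime with
  | prime_pow p n hp hn =>
    rw [Nat.primeFactors_prime_pow hn.ne' hp, Finset.prod_singleton]
    exact sg_pp hp n
  | zero => exact absurd rfl hN
  | one => simp
  | coprime a b ha hb hab iha ihb =>
    rw [sg_mul hab, hab.primeFactors_mul, Finset.prod_union hab.disjoint_primeFactors]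
    have h1 := iha (by omega)
    have h2 := ihb (by omega)
    have h3 : (0 : ℚ) ≤ ∑ d ∈ a.divisors, (1 : ℚ) / d :=
      Finset.sum_nonneg fun d _ => div_nonneg zero_le_one (Nat.cast_nonneg d)
    have h4 : (0 : ℚ) ≤ ∑ d ∈ b.divisors, (1 : ℚ) / d :=
      Finset.sum_nonneg fun d _ => div_nonneg zero_le_one (Nat.cast_nonneg d)
    exact mul_le_mul h1 h2 h4 (h3.trans h1)
-- END sg

-- BEGIN pm
/-- PROOF. The prime factors are a subset, all factors are `≥ 1`. -/
theorem pm {N y : ℕ} (h : ∀ p, p.Prime → p ∣ N → p ≤ y) : ∏ p ∈ N.primeFactors, (p : ℚ) / (p - 1) ≤ M y := by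
  have one_le : ∀ p : ℕ, p.Prime → (1 : ℚ) ≤ (p : ℚ) / (p - 1) := by
    intro p hp
    have h2 : (2 : ℚ) ≤ p := by exact_mod_cast hp.two_le
    rw [le_div_iff₀ (by linarith)]
    linarith
  have hsub : N.primeFactors ⊆ (Finset.range (y + 1)).filter Nat.Prime := by
    intro p hp
    have hp' := Nat.prime_of_mem_primeFactors hp
    exact Finset.mem_filter.2 ⟨Finset.mem_range.2 (Nat.lt_succ_of_le (h p hp' (Nat.dvd_of_mem_primeFactors hp))), hp'⟩
  unfold M
  rw [← Finset.prod_sdiff hsub]
  have h1 : (1 : ℚ) ≤ ∏ p ∈ (Finset.range (y + 1)).filter Nat.Prime \ N.primeFactors, (p : ℚ) / (p - 1) := by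
    calc (1 : ℚ) = ∏ _p ∈ (Finset.range (y + 1)).filter Nat.Prime \ N.primeFactors, (1 : ℚ) := Finset.prod_const_one.symm
      _ ≤ _ := Finset.prod_le_prod (fun _ _ => zero_le_one) fun p hp =>
        one_le p (Finset.mem_filter.1 (Finset.mem_sdiff.1 hp).1).2
  have h2 : (0 : ℚ) ≤ ∏ p ∈ N.primeFactors, (p : ℚ) / (p - 1) :=
    Finset.prod_nonneg fun p hp => zero_le_one.trans (one_le p (Nat.prime_of_mem_primeFactors hp))
  exact le_mul_of_one_le_left h2 h1
-- END pm

/-- The order inequality with the primes `≤ y`. -/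
theorem star_M {G : Type*} [Group G] [Finite G] (hG : Ah G) {m y : ℕ} (hm : 0 < m)
    (h : ∀ p, p.Prime → p ∣ Nat.card G → p ≤ y) :
    (m : ℚ) * Nat.card {g : G // m ∣ orderOf g} ≤ Nat.card G * M y :=
  (star hG hm).trans (mul_le_mul_of_nonneg_left ((sg Nat.card_pos.ne').trans (pm h)) (Nat.cast_nonneg _))

end Pool.Agent.EgO
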