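import Pool.Agent.EgO.One
import Pool.Agent.EgO.Mer
import Pool.Agent.EgO.Star

/-!
# The number of the prime divisors
-/

set_option autoImplicit false

namespace Pool.Agent.EgO

open Equiv

/-- The proportion of the elements of order divisible by `∏ P` in a coset of the alternating group. -/
theorem dd_one (P : Finset ℕ) (hP : ∀ p ∈ P, p.Prime ∧ 4 < p) {n : ℕ} (hn : 4 * ∑ p ∈ P, p + 2 ≤ n) (ε : ℤˣ) :
    (∏ p ∈ P, (25 / 12 : ℚ) / p) * (1 - 25 / 6 * ∑ p ∈ P, (1 : ℚ) / p) ≤ dd (∏ p ∈ P, p) ε n := by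
  classical
  have he : ((ε : ℤ) : ℚ) = 1 ∨ ((ε : ℤ) : ℚ) = -1 := by
    rcases Int.units_eq_one_or ε with h | h <;> rw [h] <;> norm_num
  have h0 := one_ind P hP P subset_rfl he hn
  refine h0.trans ?_
  have hsg : ∀ σ : Perm (Fin n), 2 * (if Perm.sign σ = ε then (1 : ℚ) else 0) =
      1 + ((ε : ℤ) : ℚ) * ((Perm.sign σ : ℤ) : ℚ) := by
    intro σ
    rcases Int.units_eq_one_or (Perm.sign σ) with h | h <;> rcases Int.units_eq_one_or ε with h' | h' <;>
      rw [h, h'] <;> norm_num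
  have h1 : 2 * (E n (∏ q ∈ P, q) ε : ℚ) =
      ∑ σ : Perm (Fin n), (1 + ((ε : ℤ) : ℚ) * ((Perm.sign σ : ℤ) : ℚ)) *
        (if (∏ q ∈ P, q) ∣ orderOf σ then (1 : ℚ) else 0) := by
    unfold E
    rw [Nat.card_eq_fintype_card, Fintype.card_subtype, ← Finset.sum_boole, Finset.mul_sum]
    refine Finset.sum_congr rfl fun σ _ => ?_
    rw [← hsg σ]
    by_cases h2 : Perm.sign σ = ε <;> by_cases h3 : (∏ q ∈ P, q) ∣ orderOf σ <;> simp [h2, h3]
  unfold dd av
  rw [h1]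
  refine div_le_div_of_nonneg_right (Finset.sum_le_sum fun σ _ => ?_) (by positivity)
  have h2 : sg1 σ.partition.parts = ((Perm.sign σ : ℤ) : ℚ) := sgn σ
  show AA P P σ.partition.parts * (1 + ((ε : ℤ) : ℚ) * sg1 σ.partition.parts) ≤ _
  rw [h2, mul_comm]
  have h3 : 0 ≤ 1 + ((ε : ℤ) : ℚ) * ((Perm.sign σ : ℤ) : ℚ) := by
    rw [← hsg σ]
    split_ifs <;> norm_num
  refine mul_le_mul_of_nonneg_left ?_ h3
  by_cases h : AA P P σ.partition.parts = 0
  · rw [h]
    split_ifs <;> norm_num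
  · rw [(AA_or P P σ.partition.parts).resolve_left h]
    have h4 : (∏ q ∈ P, q) ∣ orderOf σ := by
      rw [hit σ P (fun p hp => (hP p hp).1.isPrimePow) fun a ha b hb hab =>
        (Nat.coprime_primes (hP a ha).1 (hP b hb).1).2 hab]
      exact (AA_one h).1
    rw [if_pos h4]

/-- For `k` primes in `(5 k, y]`. -/
theorem dm_one {P : Finset ℕ} {k y n : ℕ} (hP : ∀ p ∈ P, p.Prime ∧ 5 * k < p ∧ p ≤ y) (hk : P.card = k) (hk0 : 0 < k)
    (hn : 4 * (k * y) + 2 ≤ n) : (25 / 12 : ℚ) ^ k / 6 ≤ (∏ p ∈ P, p : ℕ) * dm (∏ p ∈ P, p) n := by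
  have hP' : ∀ p ∈ P, p.Prime ∧ 4 < p := fun p hp => ⟨(hP p hp).1, by have := (hP p hp).2.1; omega⟩
  have hs : ∑ p ∈ P, p ≤ k * y := by
    calc ∑ p ∈ P, p ≤ ∑ _p ∈ P, y := Finset.sum_le_sum fun p hp => (hP p hp).2.2
      _ = k * y := by rw [Finset.sum_const, hk, smul_eq_mul]
  have h1 := dd_one P hP' (n := n) (by omega) 1
  have h2 := dd_one P hP' (n := n) (by omega) (-1)
  have hkq : (0 : ℚ) < k := by exact_mod_cast hk0
  have h3 : ∑ p ∈ P, (1 : ℚ) / p ≤ 1 / 5 := by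
    calc ∑ p ∈ P, (1 : ℚ) / p ≤ ∑ _p ∈ P, 1 / (5 * (k : ℚ)) := Finset.sum_le_sum fun p hp => by
          refine one_div_le_one_div_of_le (by positivity) ?_
          exact_mod_cast (hP p hp).2.1.le
      _ = 1 / 5 := by
        rw [Finset.sum_const, hk, nsmul_eq_mul]
        field_simp
  have h4 : (0 : ℚ) < ∏ p ∈ P, (p : ℚ) := Finset.prod_pos fun p hp => by exact_mod_cast (hP p hp).1.pos
  have h5 : ∏ p ∈ P, (25 / 12 : ℚ) / p = (25 / 12 : ℚ) ^ k / ∏ p ∈ P, (p : ℚ) := by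
    rw [Finset.prod_div_distrib, Finset.prod_const, hk]
  have h6 : (25 / 12 : ℚ) ^ k / (∏ p ∈ P, (p : ℚ)) * (1 / 6) ≤ dm (∏ p ∈ P, p) n := by
    have h7 : (25 / 12 : ℚ) ^ k / (∏ p ∈ P, (p : ℚ)) * (1 / 6) ≤
        (∏ p ∈ P, (25 / 12 : ℚ) / p) * (1 - 25 / 6 * ∑ p ∈ P, (1 : ℚ) / p) := by
      rw [h5]
      refine mul_le_mul_of_nonneg_left ?_ (by positivity)
      linarith
    unfold dm
    exact le_min (h7.trans h1) (h7.trans h2)
  push_cast
  calc (25 / 12 : ℚ) ^ k / 6 = (∏ p ∈ P, (p : ℚ)) * ((25 / 12 : ℚ) ^ k / (∏ p ∈ P, (p : ℚ)) * (1 / 6)) := by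
        field_simp
    _ ≤ _ := mul_le_mul_of_nonneg_left h6 h4.le

/-- A lower bound for the number of primes. -/
theorem pc_ge {y L : ℕ} (hy : y + 1 ≤ 2 ^ L) : y ≤ L * ((Nat.primesLE y).card + 1) := by
  have h1 := Chebyshev.two_pow_le_mul_lcmUpto y
  have h2 : Nat.lcmUpto y ≤ (2 ^ L) ^ (Nat.primesLE y).card := by
    rw [Nat.lcmUpto_eq_prod_pow_log, ← Finset.prod_const]
    refine Finset.prod_le_prod' fun p hp => ?_
    have hp1 := Nat.prime_of_mem_primesLE hp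
    have hy0 : y ≠ 0 := by
      have := Nat.le_of_mem_primesLE hp
      have := hp1.pos
      omega
    exact (Nat.pow_log_le_self p hy0).trans (by omega)
  have h3 : 2 ^ y ≤ 2 ^ (L * ((Nat.primesLE y).card + 1)) := by
    calc 2 ^ y ≤ (y + 1) * Nat.lcmUpto y := h1
      _ ≤ 2 ^ L * (2 ^ L) ^ (Nat.primesLE y).card := Nat.mul_le_mul hy h2
      _ = 2 ^ (L * ((Nat.primesLE y).card + 1)) := by
        rw [← pow_mul, ← pow_add]
        congr 1
        ring
  exact (Nat.pow_le_pow_iff_right (by norm_num)).1 h3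

/-- The number of primes `≤ x` is at most `(x + 1) / 2`. -/
theorem pc_le (x : ℕ) : 2 * (Nat.primesLE x).card ≤ x + 1 := by
  have h1 : (Nat.primesLE x).card ≤ (Finset.range ((x + 1) / 2)).card := by
    refine Finset.card_le_card_of_injOn (fun p => if p = 2 then 0 else p / 2) ?_ ?_
    · intro p hp
      have hp1 := Nat.prime_of_mem_primesLE (Finset.mem_coe.1 hp)
      have hp2 := Nat.le_of_mem_primesLE (Finset.mem_coe.1 hp)
      have h2 := hp1.two_le
      rw [Finset.mem_coe, Finset.mem_range]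
      beta_reduce
      split_ifs with h
      · omega
      · have := hp1.eq_two_or_odd
        omega
    · intro p hp q hq hpq
      have hp1 := Nat.prime_of_mem_primesLE (Finset.mem_coe.1 hp)
      have hq1 := Nat.prime_of_mem_primesLE (Finset.mem_coe.1 hq)
      have h2 := hp1.two_le
      have h3 := hq1.two_le
      have h4 := hp1.eq_two_or_odd
      have h5 := hq1.eq_two_or_odd
      beta_reduce at hpq
      split_ifs at hpq <;> omega
  rw [Finset.card_range] at h1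
  omega

theorem exists_P {k s L : ℕ} (hk : 3 ≤ k) (hks : 4 * k ≤ s) (hL : 2 ≤ L) (hy : s * L ≤ 2 ^ L) :
    ∃ P : Finset ℕ, P.card = k ∧ ∀ p ∈ P, p.Prime ∧ 5 * k < p ∧ p ≤ s * L - 1 := by
  classical
  have hsL : 1 ≤ s * L := Nat.mul_pos (by omega) (by omega)
  have h1 := pc_ge (y := s * L - 1) (L := L) (by omega)
  have h2 := pc_le (5 * k)
  set u := (Nat.primesLE (s * L - 1)).card with hu
  have h3 : s ≤ u + 1 := by
    by_contra h
    have h4 : L * (u + 1) ≤ L * (s - 1) := Nat.mul_le_mul_left L (by omega)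
    have h5 : L * (s - 1) + L = s * L := by
      rw [← Nat.mul_succ, Nat.succ_eq_add_one, Nat.sub_add_cancel (by omega), mul_comm]
    omega
  have h4 : k ≤ (Nat.primesLE (s * L - 1) \ Nat.primesLE (5 * k)).card := by
    have h5 := Finset.le_card_sdiff (Nat.primesLE (5 * k)) (Nat.primesLE (s * L - 1))
    omega
  obtain ⟨P, hP, hc⟩ := Finset.exists_subset_card_eq h4
  refine ⟨P, hc, fun p hp => ?_⟩
  have h5 := Finset.mem_sdiff.1 (hP hp)
  have h6 := Nat.prime_of_mem_primesLE h5.1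
  refine ⟨h6, ?_, Nat.le_of_mem_primesLE h5.1⟩
  by_contra h
  exact h5.2 (Nat.mem_primesLE.2 ⟨by omega, h6⟩)

private theorem one_le_q {p : ℕ} (hp : p.Prime) : (1 : ℚ) ≤ (p : ℚ) / (p - 1) := by
  have h2 : (2 : ℚ) ≤ p := by exact_mod_cast hp.two_le
  rw [le_div_iff₀ (by linarith)]
  linarith

private theorem prod_sub {A B : Finset ℕ} (h : A ⊆ B) (hB : ∀ p ∈ B, p.Prime) :
    ∏ p ∈ A, (p : ℚ) / (p - 1) ≤ ∏ p ∈ B, (p : ℚ) / (p - 1) := by
  classical
  rw [← Finset.prod_sdiff h]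
  have h1 : (1 : ℚ) ≤ ∏ p ∈ B \ A, (p : ℚ) / (p - 1) := by
    calc (1 : ℚ) = ∏ _p ∈ B \ A, (1 : ℚ) := Finset.prod_const_one.symm
      _ ≤ _ := Finset.prod_le_prod (fun _ _ => zero_le_one) fun p hp => one_le_q (hB p (Finset.mem_sdiff.1 hp).1)
  have h2 : (0 : ℚ) ≤ ∏ p ∈ A, (p : ℚ) / (p - 1) :=
    Finset.prod_nonneg fun p hp => zero_le_one.trans (one_le_q (hB p (h hp)))
  exact le_mul_of_one_le_left h2 h1

private theorem pow_le_three {Y : ℕ} (hY : 0 < Y) : (1 + 1 / (Y : ℚ)) ^ Y ≤ 3 := by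
  have h0 : (0 : ℝ) < Y := by exact_mod_cast hY
  have h1 : (1 + 1 / (Y : ℝ)) ^ Y ≤ 3 := by
    calc (1 + 1 / (Y : ℝ)) ^ Y ≤ (Real.exp (1 / Y)) ^ Y := by
          refine pow_le_pow_left₀ (by positivity) ?_ Y
          have := Real.add_one_le_exp (1 / (Y : ℝ))
          linarith
      _ = Real.exp 1 := by
        rw [← Real.exp_nat_mul]
        congr 1
        field_simp
      _ ≤ 3 := by
        have := Real.exp_one_lt_d9
        linarith
  have h2 : (((1 + 1 / (Y : ℚ)) ^ Y : ℚ) : ℝ) ≤ ((3 : ℚ) : ℝ) := by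
    push_cast
    exact h1
  exact Rat.cast_le.1 h2

/-- Few primes have a small product. -/
theorem pm_card {N Y : ℕ} (hY : 0 < Y) (h : N.primeFactors.card ≤ Y) :
    ∏ p ∈ N.primeFactors, (p : ℚ) / (p - 1) ≤ 3 * M Y := by
  classical
  have hYq : (0 : ℚ) < Y := by exact_mod_cast hY
  have h1 : ∏ p ∈ N.primeFactors.filter (fun p => p ≤ Y), (p : ℚ) / (p - 1) ≤ M Y := by
    unfold M
    refine prod_sub (fun p hp => ?_) fun p hp => (Finset.mem_filter.1 hp).2
    rw [Finset.mem_filter] at hp ⊢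
    exact ⟨Finset.mem_range.2 (by omega), Nat.prime_of_mem_primeFactors hp.1⟩
  have h2 : ∏ p ∈ N.primeFactors.filter (fun p => ¬ p ≤ Y), (p : ℚ) / (p - 1) ≤ 3 := by
    calc ∏ p ∈ N.primeFactors.filter (fun p => ¬ p ≤ Y), (p : ℚ) / (p - 1)
        ≤ ∏ _p ∈ N.primeFactors.filter (fun p => ¬ p ≤ Y), (1 + 1 / (Y : ℚ)) := by
          refine Finset.prod_le_prod (fun p hp => ?_) fun p hp => ?_
          · exact zero_le_one.trans (one_le_q (Nat.prime_of_mem_primeFactors (Finset.mem_filter.1 hp).1))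
          · have h3 : (Y : ℚ) + 1 ≤ p := by
              have := (Finset.mem_filter.1 hp).2
              exact_mod_cast (not_le.1 this)
            rw [div_le_iff₀ (by linarith)]
            have h4 : (1 : ℚ) ≤ 1 / (Y : ℚ) * (p - 1) := by
              rw [one_div, ← div_eq_inv_mul, le_div_iff₀ hYq]
              linarith
            linarith
      _ = (1 + 1 / (Y : ℚ)) ^ (N.primeFactors.filter (fun p => ¬ p ≤ Y)).card := by rw [Finset.prod_const]
      _ ≤ (1 + 1 / (Y : ℚ)) ^ Y := by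
        refine pow_le_pow_right₀ ?_ ((Finset.card_filter_le _ _).trans h)
        have : (0 : ℚ) ≤ 1 / (Y : ℚ) := by positivity
        linarith
      _ ≤ 3 := pow_le_three hY
  have h3 : (0 : ℚ) ≤ ∏ p ∈ N.primeFactors.filter (fun p => ¬ p ≤ Y), (p : ℚ) / (p - 1) :=
    Finset.prod_nonneg fun p hp => zero_le_one.trans (one_le_q (Nat.prime_of_mem_primeFactors (Finset.mem_filter.1 hp).1))
  rw [← Finset.prod_filter_mul_prod_filter_not N.primeFactors (fun p => p ≤ Y)]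
  have h4 := mul_le_mul h1 h2 h3 (M_pos Y).le
  linarith

/-- The numbers of the theorem. -/
theorem exists_m_count {n : ℕ} (hn : 2 ^ 17 ≤ n) :
    ∃ m : ℕ, 0 < m ∧ 3 * M (2 ^ 2 ^ (Nat.sqrt (n / Nat.log 2 n) / 8)) < m * dm m n := by
  set L := Nat.log 2 n with hL
  have hn0 : n ≠ 0 := by
    have : 0 < 2 ^ 17 := by positivity
    omega
  have hL17 : 17 ≤ L := (Nat.le_log_iff_pow_le (by norm_num) hn0).2 hn
  have hL1 : 2 ^ L ≤ n := Nat.pow_log_le_self 2 hn0
  have hL2 : n < 2 ^ (L + 1) := Nat.lt_pow_succ_log_self (by norm_num) n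
  set D := n / L with hD
  have hDL : D * L ≤ n := Nat.div_mul_le_self n L
  set s := Nat.sqrt D with hs
  have hsD : s * s ≤ D := Nat.sqrt_le D
  -- `80 ≤ s`
  have h2L : ∀ j, 6400 * (17 + j) ≤ 2 ^ (17 + j) := by
    intro j
    induction j with
    | zero => norm_num
    | succ j ih =>
      have : 2 ^ (17 + (j + 1)) = 2 * 2 ^ (17 + j) := by ring
      omega
  have h3L : 6400 * L ≤ 2 ^ L := by
    have := h2L (L - 17)
    rwa [show 17 + (L - 17) = L by omega] at this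
  have hD1 : 6400 ≤ D := (Nat.le_div_iff_mul_le (by omega)).2 (h3L.trans hL1)
  have hs80 : 80 ≤ s := Nat.le_sqrt.2 (by omega)
  -- `s * L ≤ 2 ^ L`
  have hsL : s * L ≤ 2 ^ L := by
    by_contra h
    have h1 : 2 ^ L * 2 ^ L < (s * L) * (s * L) := Nat.mul_lt_mul_of_lt_of_lt (not_le.1 h) (not_le.1 h)
    have h2 : (s * L) * (s * L) ≤ n * L := by
      calc (s * L) * (s * L) = (s * s) * L * L := by ring
        _ ≤ D * L * L := Nat.mul_le_mul_right L (Nat.mul_le_mul_right L hsD)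
        _ ≤ n * L := Nat.mul_le_mul_right L hDL
    have h3 : n * L < 2 ^ (L + 1) * L := Nat.mul_lt_mul_of_pos_right hL2 (by omega)
    have h4 : 2 ^ (L + 1) * L = 2 ^ L * (2 * L) := by ring
    have h5 : 2 ^ L * (2 * L) ≤ 2 ^ L * 2 ^ L := Nat.mul_le_mul_left _ (by omega)
    omega
  set k := s / 4 with hk
  have hk20 : 20 ≤ k := by omega
  have hks : 4 * k ≤ s := Nat.mul_div_le s 4
  obtain ⟨P, hP, hPp⟩ := exists_P (k := k) (s := s) (L := L) (by omega) hks (by omega) hsL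
  have hbound : 4 * (k * (s * L - 1)) + 2 ≤ n := by
    have h1 : 4 * (k * (s * L - 1)) ≤ s * (s * L - 1) := by
      rw [← mul_assoc]
      exact Nat.mul_le_mul_right _ hks
    have h2 : s * (s * L - 1) + s = s * s * L := by
      have : 1 ≤ s * L := Nat.mul_pos (by omega) (by omega)
      calc s * (s * L - 1) + s = s * ((s * L - 1) + 1) := by ring
        _ = s * (s * L) := by rw [Nat.sub_add_cancel this]
        _ = s * s * L := by ring
    have h3 : s * s * L ≤ n := (Nat.mul_le_mul_right L hsD).trans hDL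
    omega
  have h1 := dm_one hPp hP (by omega) hbound
  refine ⟨∏ p ∈ P, p, Finset.prod_pos fun p hp => (hPp p hp).1.pos, lt_of_lt_of_le ?_ h1⟩
  have hT : s / 8 = k / 2 := by omega
  rw [hT]
  set T := 2 ^ (k / 2) with hTd
  have hT11 : 11 ≤ T := by
    calc 11 ≤ 2 ^ 10 := by norm_num
      _ ≤ 2 ^ (k / 2) := Nat.pow_le_pow_right (by norm_num) (by omega)
  have h2 := MK (K := T) (n := 2 ^ T) hT11 (Nat.pow_le_pow_right (by norm_num) (by omega))
  have h3 := M4096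
  have h4 : (T : ℚ) ^ 2 ≤ 2 ^ k := by
    have : T ^ 2 ≤ 2 ^ k := by
      rw [hTd, ← pow_mul]
      exact Nat.pow_le_pow_right (by norm_num) (by omega)
    exact_mod_cast this
  have h5 : (22092 / 10000 : ℚ) * 2 ^ k < (25 / 12 : ℚ) ^ k := by
    have h6 : (25 / 12 : ℚ) ^ k = (25 / 24 : ℚ) ^ k * 2 ^ k := by
      rw [← mul_pow]
      norm_num
    have h7 : (25 / 24 : ℚ) ^ 20 ≤ (25 / 24 : ℚ) ^ k := pow_le_pow_right₀ (by norm_num) hk20
    have h8 : (22092 / 10000 : ℚ) < (25 / 24 : ℚ) ^ 20 := by norm_num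
    rw [h6]
    have h9 : (0 : ℚ) < 2 ^ k := by positivity
    nlinarith
  have h6 : M (2 ^ T) ≤ (1485 / 100) * ((T : ℚ) / 11) ^ 2 :=
    h2.trans (mul_le_mul_of_nonneg_right h3 (by positivity))
  have h7 : (1485 / 100 : ℚ) * ((T : ℚ) / 11) ^ 2 = 1485 / 12100 * (T : ℚ) ^ 2 := by ring
  rw [h7] at h6
  nlinarith

end Pool.Agent.EgO
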