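import Pool.Agent.EgO.Main
import Pool.Agent.EgO.Sec
import Pool.Agent.EgO.Two

/-!
# Alternating composition factors: the theorems
-/

set_option autoImplicit false

namespace Pool.Agent.EgO

open Equiv

/-- `A_n` is a composition factor of `G`: `G` has normal subgroups `K`, `L` and a subgroup `S` with `K ≤ S ≤ L`, `S` normal in `L` and `S / K`
isomorphic to the alternating group of degree `n`. -/
def AltFactor (G : Type*) [Group G] (n : ℕ) : Prop :=
  ∃ (K L S : Subgroup G) (_ : K.Normal), L.Normal ∧ K ≤ S ∧ S ≤ L ∧ (∀ l ∈ L, ∀ s ∈ S, l * s * l⁻¹ ∈ S) ∧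
    Nonempty (S ⧸ K.subgroupOf S ≃* alternatingGroup (Fin n))

theorem main_sec {G : Type*} [Group G] [Finite G] (hG : Ah G) {n y : ℕ} (hn : 9 ≤ n) (h : AltFactor G n)
    (hm : ∃ m : ℕ, 0 < m ∧ M y < m * dm m n) : ∃ p, p.Prime ∧ p ∣ Nat.card G ∧ y < p := by
  by_contra hcon
  have h1 : ∀ p, p.Prime → p ∣ Nat.card G → p ≤ y := fun p hp hd => by
    by_contra h
    exact hcon ⟨p, hp, hd, not_le.1 h⟩
  obtain ⟨m, hm, hmn⟩ := hm
  obtain ⟨K, L, S, hK, hL, hKS, hSL, hS, ⟨e⟩⟩ := h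
  obtain ⟨f, hf⟩ := se1 (by omega) K L S hKS hSL hS e
  have h2 := star_M hG hm h1
  have h3 := bc2 hn hf m
  have h4 : (0 : ℚ) < Nat.card G := by exact_mod_cast Nat.card_pos
  have h5 : (0 : ℚ) < m := by exact_mod_cast hm
  have h6 : (m : ℚ) * (Nat.card G * dm m n) ≤ Nat.card G * M y := (mul_le_mul_of_nonneg_left h3 h5.le).trans h2
  nlinarith

theorem main_count {G : Type*} [Group G] [Finite G] (hG : Ah G) {n Y : ℕ} (hn : 9 ≤ n) (hY : 0 < Y) (h : AltFactor G n)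
    (hm : ∃ m : ℕ, 0 < m ∧ 3 * M Y < m * dm m n) : Y < (Nat.card G).primeFactors.card := by
  by_contra hcon
  obtain ⟨m, hm, hmn⟩ := hm
  obtain ⟨K, L, S, hK, hL, hKS, hSL, hS, ⟨e⟩⟩ := h
  obtain ⟨f, hf⟩ := se1 (by omega) K L S hKS hSL hS e
  have h1 : ∑ d ∈ (Nat.card G).divisors, (1 : ℚ) / d ≤ 3 * M Y := (sg Nat.card_pos.ne').trans (pm_card hY (not_lt.1 hcon))
  have h2 := star hG hm
  have h3 := bc2 hn hf m
  have h4 : (0 : ℚ) < Nat.card G := by exact_mod_cast Nat.card_pos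
  have h5 : (0 : ℚ) < m := by exact_mod_cast hm
  have h6 : (m : ℚ) * (Nat.card G * dm m n) ≤ Nat.card G * (3 * M Y) :=
    (mul_le_mul_of_nonneg_left h3 h5.le).trans (h2.trans (mul_le_mul_of_nonneg_left h1 h4.le))
  nlinarith

end Pool.Agent.EgO
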