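import Pool.Agent.EgO.Mon

/-!
# Numerical values for `n ≤ 200`
-/

set_option autoImplicit false

namespace Pool.Agent.EgO

open Equiv

/-- The scalar product of two lists (the longer one is cut). -/
def dot : List ℤ → List ℤ → ℤ
  | a :: l, b :: m => a * b + dot l m
  | _, _ => 0

/-- The list `[X n, .., X 0]`, `X 0 = F`, `X (n + 1) = (∑_{j ≤ n} w (j + 1) X (n - j)) / (n + 1)`, where `ws = [w 1, w 2, ..]`. -/
def seqL (ws : List ℤ) (F : ℤ) : ℕ → List ℤ
  | 0 => [F]
  | n + 1 => (dot ws (seqL ws F n) / ((n : ℤ) + 1)) :: seqL ws F n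

/-- `[w 1, .., w N]` -/
def wl (w : ℕ → ℤ) (N : ℕ) : List ℤ := (List.range N).map fun i => w (i + 1)

-- BEGIN seq
private theorem seq_dot : ∀ (k N : ℕ) (f : ℕ → ℤ) (g : ℕ → ℚ) (l : List ℤ), k ≤ N →
    (l.map fun x : ℤ => (x : ℚ)) = (List.range k).map g →
    ((dot ((List.range N).map f) l : ℤ) : ℚ) = ∑ j ∈ Finset.range k, (f j : ℚ) * g j := by
  intro k
  induction k with
  | zero =>
    intro N f g l _ hl
    have h1 : l = [] := by
      rw [List.range_zero, List.map_nil, List.map_eq_nil_iff] at hl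
      exact hl
    subst h1
    cases hN : (List.range N).map f <;> simp [dot]
  | succ k ih =>
    intro N f g l hN hl
    obtain ⟨N', rfl⟩ : ∃ N', N = N' + 1 := ⟨N - 1, by omega⟩
    rw [List.range_succ_eq_map, List.map_cons, List.map_map] at hl
    obtain ⟨x, l', rfl⟩ : ∃ x l', l = x :: l' := by
      cases l with
      | nil => simp at hl
      | cons x l' => exact ⟨x, l', rfl⟩
    rw [List.map_cons, List.cons.injEq] at hl
    rw [List.range_succ_eq_map, List.map_cons, List.map_map]
    simp only [dot]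
    rw [Finset.sum_range_succ', Int.cast_add, Int.cast_mul, hl.1,
      ih N' (f ∘ Nat.succ) (g ∘ Nat.succ) l' (by omega) hl.2]
    simp only [Function.comp, Nat.succ_eq_add_one]
    ring

private theorem seq_int (w : ℕ → ℤ) {N n : ℕ} (hn : n ≤ N) :
    ∃ z : ℤ, (N.factorial : ℚ) * W (fun a => (w a : ℚ)) n = z := by
  obtain ⟨c, hc⟩ := Nat.factorial_dvd_factorial hn
  refine ⟨c * ∑ σ : Perm (Fin n), (σ.partition.parts.map w).prod, ?_⟩
  have h1 : (n.factorial : ℚ) ≠ 0 := by exact_mod_cast n.factorial_ne_zero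
  have h2 : ∀ s : Multiset ℕ, (s.map fun a => (w a : ℚ)).prod = (((s.map w).prod : ℤ) : ℚ) := by
    intro s
    induction s using Multiset.induction_on with
    | empty => simp
    | cons a s ih => rw [Multiset.map_cons, Multiset.prod_cons, Multiset.map_cons, Multiset.prod_cons, ih, Int.cast_mul]
  unfold W av
  rw [hc, Finset.sum_congr rfl fun σ _ => h2 σ.partition.parts, Int.cast_mul, Int.cast_sum, Nat.cast_mul, Int.cast_natCast]
  field_simp

/-- PROOF. `N! * W w n` is an integer for `n ≤ N` (`n! ∣ N!`, `W w n * n!` is a sum of integers). By `W_rec` the recursion holds for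
`X n = N! W w n` without rounding: `(n + 1) X (n + 1) = ∑ w (j + 1) X (n - j)`. Induction on `n`. -/
theorem seq_spec (w : ℕ → ℤ) {N n : ℕ} (hn : n ≤ N) :
    ((seqL (wl w N) (N.factorial : ℤ) n).map fun x : ℤ => (x : ℚ)) =
      (List.range (n + 1)).map fun i => (N.factorial : ℚ) * W (fun a => (w a : ℚ)) (n - i) := by
  induction n with
  | zero => simp [seqL, W_zero]
  | succ n ih =>
    have h1 := ih (by omega)
    have h2 := seq_dot (n + 1) N (fun i => w (i + 1)) _ _ hn h1
    obtain ⟨z, hz⟩ := seq_int w hn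
    have h3 := W_rec (fun a => (w a : ℚ)) (n + 1)
    have h4 : ((dot (wl w N) (seqL (wl w N) (N.factorial : ℤ) n) : ℤ) : ℚ) = (((n : ℤ) + 1) * z : ℤ) := by
      have h6 : wl w N = (List.range N).map fun i => w (i + 1) := rfl
      rw [← h6] at h2
      rw [h2]
      push_cast
      rw [← hz]
      push_cast at h3
      rw [mul_left_comm, h3, Finset.mul_sum]
      refine Finset.sum_congr rfl fun j _ => ?_
      ring
    have h5 : dot (wl w N) (seqL (wl w N) (N.factorial : ℤ) n) = ((n : ℤ) + 1) * z := by exact_mod_cast h4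
    rw [List.range_succ_eq_map, List.map_cons, List.map_map, seqL, List.map_cons, h5, h1,
      Int.mul_ediv_cancel_left _ (by omega)]
    congr 1
    · rw [Nat.sub_zero, hz]
    · refine List.map_congr_left fun i _ => ?_
      simp only [Function.comp, Nat.succ_eq_add_one, Nat.add_sub_add_right]
-- END seq

-- BEGIN n60
/-- The weights `nd` (`s = false`) and `ns` (`s = true`) with lists. -/
def fl (s : Bool) (l : List ℕ) (a : ℕ) : ℤ :=
  if l.any (fun q => a % q == 0) then 0 else if s && (a % 2 == 0) then -1 else 1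

/-- The sublists with the signs of the inclusion-exclusion. -/
def pl : List ℕ → List (ℤ × List ℕ)
  | [] => [(1, [])]
  | q :: l => pl l ++ (pl l).map fun p => (-p.1, q :: p.2)

/-- The linear combination of the sequences. -/
def comb (s : Bool) (N : ℕ) : List (ℤ × List ℕ) → List ℤ
  | [] => List.replicate (N + 1) 0
  | p :: L => List.zipWith (fun x y => p.1 * x + y) (seqL (wl (fl s p.2) N) (N.factorial : ℤ) N) (comb s N L)

/-- `N! dm` -/
def DL (l : List ℕ) (N : ℕ) : List ℤ :=
  List.zipWith (fun c t => min (c + t) (c - t)) (comb false N (pl l)) (comb true N (pl l))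

private theorem n60_any (l : List ℕ) (a : ℕ) :
    (l.any (fun q => a % q == 0) = true) ↔ ∃ q ∈ l.toFinset, q ∣ a := by
  rw [List.any_eq_true]
  simp only [List.mem_toFinset, beq_iff_eq, Nat.dvd_iff_mod_eq_zero]

private theorem n60_nd (l : List ℕ) (a : ℕ) : fl false l a = nd l.toFinset a := by
  unfold fl nd
  by_cases h : ∃ q ∈ l.toFinset, q ∣ a
  · rw [if_pos ((n60_any l a).2 h), if_pos h]
  · rw [if_neg (fun h' => h ((n60_any l a).1 h')), if_neg h]
    simp

private theorem n60_ns (l : List ℕ) (a : ℕ) : fl true l a = ns l.toFinset a := by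
  unfold fl ns
  by_cases h : ∃ q ∈ l.toFinset, q ∣ a
  · rw [if_pos ((n60_any l a).2 h), if_pos h]
  · rw [if_neg (fun h' => h ((n60_any l a).1 h')), if_neg h]
    by_cases h2 : a % 2 = 0 <;> simp [h2]

private theorem n60_zip (N : ℕ) (f g : ℕ → ℚ) (h : ℤ → ℤ → ℤ) (h' : ℚ → ℚ → ℚ)
    (hh : ∀ x y : ℤ, ((h x y : ℤ) : ℚ) = h' x y) : ∀ (R : List ℕ) (a b : List ℤ),
    (a.map fun x : ℤ => (x : ℚ)) = R.map f → (b.map fun x : ℤ => (x : ℚ)) = R.map g →
    ((List.zipWith h a b).map fun x : ℤ => (x : ℚ)) = R.map fun i => h' (f i) (g i)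
  | [], a, b, ha, hb => by
    have h1 : a = [] := by simpa using ha
    subst h1
    simp
  | r :: R, [], b, ha, hb => by simp at ha
  | r :: R, x :: a, [], ha, hb => by simp at hb
  | r :: R, x :: a, y :: b, ha, hb => by
    rw [List.map_cons, List.map_cons, List.cons.injEq] at ha hb
    rw [List.zipWith_cons_cons, List.map_cons, List.map_cons, n60_zip N f g h h' hh R a b ha.2 hb.2, hh, ha.1, hb.1]

private theorem n60_comb (s : Bool) (N : ℕ) : ∀ L : List (ℤ × List ℕ),
    ((comb s N L).map fun x : ℤ => (x : ℚ)) = (List.range (N + 1)).map fun i =>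
      (N.factorial : ℚ) * (L.map fun p => (p.1 : ℚ) * W (fun a => (fl s p.2 a : ℚ)) (N - i)).sum
  | [] => by
    simp [comb, List.map_const', List.map_replicate]
  | p :: L => by
    rw [comb, n60_zip N _ _ (fun x y => p.1 * x + y) (fun x y => (p.1 : ℚ) * x + y) (by intro x y; push_cast; ring)
      _ _ _ (seq_spec (fl s p.2) (le_refl N)) (n60_comb s N L)]
    refine List.map_congr_left fun i _ => ?_
    rw [List.map_cons, List.sum_cons]
    ring

private theorem n60_pl (g : Finset ℕ → ℚ) : ∀ l : List ℕ, l.Nodup → 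
    ((pl l).map fun p => (p.1 : ℚ) * g p.2.toFinset).sum = ∑ S ∈ l.toFinset.powerset, (-1) ^ S.card * g S := by
  intro l
  induction l generalizing g with
  | nil => intro _; simp [pl]
  | cons q l ih =>
    intro hl
    rw [List.nodup_cons] at hl
    have hq : q ∉ l.toFinset := by rw [List.mem_toFinset]; exact hl.1
    rw [pl, List.map_append, List.sum_append, List.map_map, ih g hl.2, List.toFinset_cons,
      Finset.sum_powerset_insert hq]
    congr 1
    have h1 := ih (fun S => - g (insert q S)) hl.2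
    refine Eq.trans ?_ (h1.trans (Finset.sum_congr rfl fun t ht => ?_))
    · congr 1
      refine List.map_congr_left fun p _ => ?_
      simp only [Function.comp, List.toFinset_cons]
      push_cast
      ring
    · rw [Finset.card_insert_of_notMem fun h => hq (Finset.mem_powerset.1 ht h), pow_succ]
      ring

private theorem n60_nth {R : List ℕ} {a : List ℤ} {f : ℕ → ℚ} (h : (a.map fun x : ℤ => (x : ℚ)) = R.map f) (i : ℕ)
    (hi : i < R.length) : ((a.getD i 0 : ℤ) : ℚ) = f (R[i]) := by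
  have h1 : a.length = R.length := by
    have := congrArg List.length h
    rwa [List.length_map, List.length_map] at this
  have h2 := congrArg (fun l : List ℚ => l[i]?) h
  simp only [List.getElem?_map] at h2
  rw [List.getD_eq_getElem?_getD, List.getElem?_eq_getElem (by omega)]
  rw [List.getElem?_eq_getElem (by omega), List.getElem?_eq_getElem hi] at h2
  simpa using h2

theorem CL_spec {l : List ℕ} (hl : l.Nodup) (hQ : ∀ q ∈ l.toFinset, IsPrimePow q)
    (hc : (l.toFinset : Set ℕ).Pairwise Nat.Coprime) {m : ℕ} (hm : ∏ q ∈ l.toFinset, q = m) {N n : ℕ} (hn : n ≤ N) :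
    (((comb false N (pl l)).getD (N - n) 0 : ℤ) : ℚ) = N.factorial * cc m n := by
  rw [n60_nth (n60_comb false N (pl l)) (N - n) (by rw [List.length_range]; omega), List.getElem_range,
    Nat.sub_sub_self hn, ← hm, ccW _ hQ hc, ← n60_pl _ l hl]
  simp only [n60_nd]

theorem DL_spec {l : List ℕ} (hl : l.Nodup) (hQ : ∀ q ∈ l.toFinset, IsPrimePow q)
    (hc : (l.toFinset : Set ℕ).Pairwise Nat.Coprime) {m : ℕ} (hm : ∏ q ∈ l.toFinset, q = m) {N n : ℕ} (hn : n ≤ N) :
    (((DL l N).getD (N - n) 0 : ℤ) : ℚ) = N.factorial * dm m n := by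
  have h0 : (0 : ℚ) ≤ N.factorial := Nat.cast_nonneg _
  rw [DL, n60_nth (n60_zip N _ _ (fun c t => min (c + t) (c - t)) (fun c t => min (c + t) (c - t))
    (by intro x y; push_cast; rfl) _ _ _ (n60_comb false N (pl l)) (n60_comb true N (pl l))) (N - n)
    (by rw [List.length_range]; omega), List.getElem_range, Nat.sub_sub_self hn, dm, mul_min_of_nonneg _ _ h0, ← hm,
    ddW _ hQ hc, ddW _ hQ hc, ← n60_pl _ l hl, ← n60_pl _ l hl]
  simp only [n60_nd, n60_ns]
  push_cast
  congr 1 <;> ring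

private theorem n60_pp {l : List ℕ} (h : ∀ q ∈ l, ∃ p k : ℕ, p.Prime ∧ 0 < k ∧ p ^ k = q) : ∀ q ∈ l.toFinset, IsPrimePow q := by
  intro q hq
  obtain ⟨p, k, hp, hk, h1⟩ := h q (List.mem_toFinset.1 hq)
  exact ⟨p, k, hp.prime, hk, h1⟩

private theorem n60_pq : ∀ q ∈ ([3, 4, 5] : List ℕ).toFinset, IsPrimePow q := by
  refine n60_pp fun q hq => ?_
  simp only [List.mem_cons, List.not_mem_nil, or_false] at hq
  rcases hq with rfl | rfl | rfl
  · exact ⟨3, 1, by norm_num, by norm_num, by norm_num⟩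
  · exact ⟨2, 2, by norm_num, by norm_num, by norm_num⟩
  · exact ⟨5, 1, by norm_num, by norm_num, by norm_num⟩

private theorem n60_cop : ((([3, 4, 5] : List ℕ).toFinset : Finset ℕ) : Set ℕ).Pairwise Nat.Coprime := by
  intro a ha b hb hab
  rw [Finset.mem_coe, List.mem_toFinset] at ha hb
  simp only [List.mem_cons, List.not_mem_nil, or_false] at ha hb
  rcases ha with rfl | rfl | rfl <;> rcases hb with rfl | rfl | rfl <;> first | exact absurd rfl hab | norm_num

private theorem n60_div {F x a b : ℚ} (hF : 0 < F) (h : a * F < b * (F * x)) : a < b * x := by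
  have h2 : F * a < F * (b * x) := by
    calc F * a = a * F := mul_comm _ _
      _ < b * (F * x) := h
      _ = F * (b * x) := by ring
  exact lt_of_mul_lt_mul_left h2 hF.le

/-- PROOF. `ccW`, `ddW` for `Q = {3, 4, 5}` and `seq_spec` with `N = 31`: kernel computation. Values of `60 * cc 60 n`, `n = 23 .. 31`: 6.248 6.422 6.298 6.524 6.810
6.681 7.377 7.464 7.619. -/
theorem cc60 : (∀ n, 23 ≤ n → n ≤ 28 → 6115 / 1000 < 60 * cc 60 n) ∧ (∀ n, 29 ≤ n → n ≤ 31 → 7 < 60 * cc 60 n) := by
  have hF : (0 : ℚ) < Nat.factorial 31 := by exact_mod_cast Nat.factorial_pos 31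
  have key : ∀ n, n ≤ 31 → (((comb false 31 (pl [3, 4, 5])).getD (31 - n) 0 : ℤ) : ℚ) = Nat.factorial 31 * cc 60 n :=
    fun n hn => CL_spec (by decide) n60_pq n60_cop (by decide) hn
  have chk : (∀ i < 9, 2 < i → 6115 * (Nat.factorial 31 : ℤ) < 60000 * (comb false 31 (pl [3, 4, 5])).getD i 0) ∧
      (∀ i < 3, 7 * (Nat.factorial 31 : ℤ) < 60 * (comb false 31 (pl [3, 4, 5])).getD i 0) := by decide +kernel
  constructor
  · intro n h1 h2
    have h3 := chk.1 (31 - n) (by omega) (by omega)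
    have h4 : 6115 * (Nat.factorial 31 : ℚ) < 60000 * (Nat.factorial 31 * cc 60 n) := by
      rw [← key n (by omega)]
      exact_mod_cast h3
    have h5 := n60_div hF h4
    linarith
  · intro n h1 h2
    have h3 := chk.2 (31 - n) (by omega)
    have h4 : 7 * (Nat.factorial 31 : ℚ) < 60 * (Nat.factorial 31 * cc 60 n) := by
      rw [← key n (by omega)]
      exact_mod_cast h3
    have h5 := n60_div hF h4
    linarith

/-- PROOF. As above. Values of `60 * dm 60 n`, `n = 27, 28, 29, 31`: 6.204 6.576 6.379 7.016. -/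
theorem dm60 : 62 / 10 < 60 * dm 60 27 ∧ 65 / 10 < 60 * dm 60 28 ∧ 637 / 100 < 60 * dm 60 29 ∧ 7 < 60 * dm 60 31 := by
  have hF : (0 : ℚ) < Nat.factorial 31 := by exact_mod_cast Nat.factorial_pos 31
  have key : ∀ n, n ≤ 31 → (((DL [3, 4, 5] 31).getD (31 - n) 0 : ℤ) : ℚ) = Nat.factorial 31 * dm 60 n :=
    fun n hn => DL_spec (by decide) n60_pq n60_cop (by decide) hn
  have chk : 620 * (Nat.factorial 31 : ℤ) < 6000 * (DL [3, 4, 5] 31).getD (31 - 27) 0 ∧
      650 * (Nat.factorial 31 : ℤ) < 6000 * (DL [3, 4, 5] 31).getD (31 - 28) 0 ∧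
      637 * (Nat.factorial 31 : ℤ) < 6000 * (DL [3, 4, 5] 31).getD (31 - 29) 0 ∧
      700 * (Nat.factorial 31 : ℤ) < 6000 * (DL [3, 4, 5] 31).getD (31 - 31) 0 := by decide +kernel
  obtain ⟨h1, h2, h3, h4⟩ := chk
  have e1 : 620 * (Nat.factorial 31 : ℚ) < 6000 * (Nat.factorial 31 * dm 60 27) := by
    rw [← key 27 (by norm_num)]
    exact_mod_cast h1
  have e2 : 650 * (Nat.factorial 31 : ℚ) < 6000 * (Nat.factorial 31 * dm 60 28) := by
    rw [← key 28 (by norm_num)]
    exact_mod_cast h2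
  have e3 : 637 * (Nat.factorial 31 : ℚ) < 6000 * (Nat.factorial 31 * dm 60 29) := by
    rw [← key 29 (by norm_num)]
    exact_mod_cast h3
  have e4 : 700 * (Nat.factorial 31 : ℚ) < 6000 * (Nat.factorial 31 * dm 60 31) := by
    rw [← key 31 (by norm_num)]
    exact_mod_cast h4
  have d1 := n60_div hF e1
  have d2 := n60_div hF e2
  have d3 := n60_div hF e3
  have d4 := n60_div hF e4
  refine ⟨?_, ?_, ?_, ?_⟩ <;> linarith
-- END n60

-- BEGIN n420
/-- The scale of the approximations and the base of the packed sequences. -/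
def kF : ℕ := 2 ^ 48
def kB : ℕ := 2 ^ 64

/-- `1` if no element of `l` divides `a`. -/
def al (l : List ℕ) (a : ℕ) : ℕ := if l.any (fun q => a % q == 0) then 0 else 1

def vo (l : List ℕ) (j : ℕ) : ℕ := if (j + 1) % 2 = 1 then al l (j + 1) else 0
def ve (l : List ℕ) (j : ℕ) : ℕ := if (j + 1) % 2 = 1 then 0 else al l (j + 1)

/-- The packed number with the digits `f j`, `j < n`. -/
def pk (f : ℕ → ℕ) : ℕ → ℕ
  | 0 => 0
  | n + 1 => pk f n + f n * kB ^ n

/-- The next digit. -/
def dg (l : List ℕ) (n A C : ℕ) : ℕ := ((A * pk (vo l) 200 + C * pk (ve l) 200) / kB ^ n % kB) / (n + 1)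

/-- The packed sequences of the approximations of `W nd + W ns` and `W nd - W ns`. -/
def st (l : List ℕ) : ℕ → ℕ × ℕ
  | 0 => (2 * kF, 0)
  | n + 1 => ((st l n).1 + dg l n (st l n).1 (st l n).2 * kB ^ (n + 1),
      (st l n).2 + dg l n (st l n).2 (st l n).1 * kB ^ (n + 1))

/-- The approximation of `F * dm 420 n` from below. -/
def gg (n : ℕ) : ℤ :=
  min (((pl [3, 4, 5, 7]).map fun p => p.1 * (((st p.2 200).1 / kB ^ n % kB : ℕ) : ℤ)).sum)
    (((pl [3, 4, 5, 7]).map fun p => p.1 * (((st p.2 200).2 / kB ^ n % kB : ℕ) : ℤ)).sum) - 16 * (n + 1)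

set_option maxRecDepth 100000 in
private theorem n420_chk : (∀ i < 37, 31 < i → 8 * (kF : ℤ) < 420 * gg i) ∧
    (∀ i < 60, 36 < i → 10 * (kF : ℤ) < 420 * gg i) ∧
    528 * (kF : ℤ) ≤ 420 * ∑ k ∈ Finset.range 60, gg k ∧
    1900 * (kF : ℤ) ≤ 420 * ∑ k ∈ Finset.range 100, gg k ∧
    7580 * (kF : ℤ) ≤ 420 * ∑ k ∈ Finset.range 200, gg k := by
  decide +kernel
private theorem n420_dig (n : ℕ) : ∀ R : Polynomial ℕ, (∀ i, R.coeff i < kB) → R.eval kB / kB ^ n % kB = R.coeff n := by
  have hB : 0 < kB := by decide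
  induction n with
  | zero =>
    intro R h
    have h1 : R.eval kB = R.divX.eval kB * kB + R.coeff 0 := by
      conv_lhs => rw [← Polynomial.divX_mul_X_add R]
      rw [Polynomial.eval_add, Polynomial.eval_mul, Polynomial.eval_X, Polynomial.eval_C]
    rw [pow_zero, Nat.div_one, h1, Nat.add_comm, Nat.add_mul_mod_self_right, Nat.mod_eq_of_lt (h 0)]
  | succ n ih =>
    intro R h
    have h1 : R.eval kB = R.coeff 0 + kB * R.divX.eval kB := by
      conv_lhs => rw [← Polynomial.divX_mul_X_add R]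
      rw [Polynomial.eval_add, Polynomial.eval_mul, Polynomial.eval_X, Polynomial.eval_C, mul_comm, add_comm]
    have h2 : R.eval kB / kB = R.divX.eval kB := by
      rw [h1, Nat.add_mul_div_left _ _ hB, Nat.div_eq_of_lt (h 0), zero_add]
    rw [pow_succ', ← Nat.div_div_eq_div_mul, h2, ih R.divX fun i => by rw [Polynomial.coeff_divX]; exact h _,
      Polynomial.coeff_divX]

private noncomputable def n420_pol (f : ℕ → ℕ) (n : ℕ) : Polynomial ℕ :=
  ∑ j ∈ Finset.range n, Polynomial.C (f j) * Polynomial.X ^ j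

private theorem n420_pol_eval (f : ℕ → ℕ) (n : ℕ) : (n420_pol f n).eval kB = pk f n := by
  induction n with
  | zero => simp [n420_pol, pk]
  | succ n ih =>
    rw [n420_pol, Finset.sum_range_succ, Polynomial.eval_add, ← n420_pol, ih, pk]
    simp

private theorem n420_pol_coeff (f : ℕ → ℕ) (n i : ℕ) : (n420_pol f n).coeff i = if i < n then f i else 0 := by
  rw [n420_pol, Polynomial.finsetSum_coeff]
  simp only [Polynomial.coeff_C_mul_X_pow]
  rw [Finset.sum_ite_eq]
  simp only [Finset.mem_range]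

/-- The digit of the packed product. -/
private theorem n420_mul {f g v w : ℕ → ℕ} {n K : ℕ} (hn : n < 200) (hK : (n + 1) * K < kB)
    (hf : ∀ k ≤ n, f k ≤ K) (hg : ∀ k ≤ n, g k ≤ K) (hvw : ∀ j, v j + w j ≤ 1) :
    (pk f (n + 1) * pk v 200 + pk g (n + 1) * pk w 200) / kB ^ n % kB =
      ∑ j ∈ Finset.range (n + 1), (v j * f (n - j) + w j * g (n - j)) := by
  have hco : ∀ i, (n420_pol f (n + 1) * n420_pol v 200 + n420_pol g (n + 1) * n420_pol w 200).coeff i =
      ∑ k ∈ Finset.range (i + 1), ((if k < n + 1 then f k else 0) * (if i - k < 200 then v (i - k) else 0) +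
        (if k < n + 1 then g k else 0) * (if i - k < 200 then w (i - k) else 0)) := by
    intro i
    rw [Polynomial.coeff_add, Polynomial.coeff_mul, Polynomial.coeff_mul,
      Finset.Nat.sum_antidiagonal_eq_sum_range_succ_mk, Finset.Nat.sum_antidiagonal_eq_sum_range_succ_mk,
      ← Finset.sum_add_distrib]
    refine Finset.sum_congr rfl fun k _ => ?_
    simp only [n420_pol_coeff]
  have h1 := n420_dig n (n420_pol f (n + 1) * n420_pol v 200 + n420_pol g (n + 1) * n420_pol w 200) (by
    intro i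
    refine lt_of_le_of_lt ?_ hK
    rw [hco]
    calc _ ≤ ∑ k ∈ Finset.range (i + 1), (if k < n + 1 then K else 0) := by
          refine Finset.sum_le_sum fun k _ => ?_
          by_cases hk : k < n + 1
          · rw [if_pos hk, if_pos hk, if_pos hk]
            have h2 := hf k (by omega)
            have h3 := hg k (by omega)
            have h4 := hvw (i - k)
            by_cases hi : i - k < 200
            · rw [if_pos hi, if_pos hi]
              calc f k * v (i - k) + g k * w (i - k) ≤ K * v (i - k) + K * w (i - k) :=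
                    Nat.add_le_add (Nat.mul_le_mul_right _ h2) (Nat.mul_le_mul_right _ h3)
                _ = K * (v (i - k) + w (i - k)) := by ring
                _ ≤ K * 1 := Nat.mul_le_mul_left _ h4
                _ = K := mul_one K
            · rw [if_neg hi, if_neg hi]
              simp
          · rw [if_neg hk, if_neg hk, if_neg hk]
            simp
      _ = ∑ k ∈ (Finset.range (i + 1)).filter (fun k => k < n + 1), K := (Finset.sum_filter _ _).symm
      _ ≤ ∑ k ∈ Finset.range (n + 1), K := by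
          refine Finset.sum_le_sum_of_subset fun k hk => ?_
          rw [Finset.mem_filter] at hk
          exact Finset.mem_range.2 hk.2
      _ = (n + 1) * K := by rw [Finset.sum_const, Finset.card_range, smul_eq_mul])
  rw [Polynomial.eval_add, Polynomial.eval_mul, Polynomial.eval_mul, n420_pol_eval, n420_pol_eval, n420_pol_eval,
    n420_pol_eval, hco] at h1
  rw [h1, ← Finset.sum_range_reflect]
  refine Finset.sum_congr rfl fun j hj => ?_
  have hj' := Finset.mem_range.1 hj
  have e1 : n + 1 - 1 - j = n - j := by omega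
  rw [e1, if_pos (by omega), if_pos (by omega), if_pos (by omega), if_pos (by omega),
    show n - (n - j) = j by omega]
  ring

private def n420_a (l : List ℕ) : ℕ → ℕ
  | 0 => 2 * kF
  | n + 1 => dg l n (st l n).1 (st l n).2

private def n420_c (l : List ℕ) : ℕ → ℕ
  | 0 => 0
  | n + 1 => dg l n (st l n).2 (st l n).1

private theorem n420_st (l : List ℕ) (n : ℕ) : (st l n).1 = pk (n420_a l) (n + 1) ∧ (st l n).2 = pk (n420_c l) (n + 1) := by
  induction n with
  | zero => simp [st, pk, n420_a, n420_c]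
  | succ n ih =>
    constructor
    · rw [pk, ← ih.1]
      rfl
    · rw [pk, ← ih.2]
      rfl

private theorem n420_vw (l : List ℕ) (j : ℕ) : vo l j + ve l j = al l (j + 1) := by
  unfold vo ve
  by_cases h : (j + 1) % 2 = 1
  · rw [if_pos h, if_pos h, add_zero]
  · rw [if_neg h, if_neg h, zero_add]

private theorem n420_al (l : List ℕ) (a : ℕ) : al l a ≤ 1 := by
  unfold al
  split_ifs <;> omega

private theorem n420_bd (l : List ℕ) : ∀ n ≤ 200, n420_a l n ≤ 2 * kF ∧ n420_c l n ≤ 2 * kF := by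
  intro n
  induction n using Nat.strong_induction_on with
  | _ n ih =>
    intro hn
    cases n with
    | zero => exact ⟨le_refl _, Nat.zero_le _⟩
    | succ n =>
      have hK : (n + 1) * (2 * kF) < kB :=
        lt_of_le_of_lt (Nat.mul_le_mul_right (2 * kF) hn) (by decide)
      have hvw : ∀ j, vo l j + ve l j ≤ 1 := fun j => by rw [n420_vw]; exact n420_al l _
      have key : ∀ f g : ℕ → ℕ, (∀ k ≤ n, f k ≤ 2 * kF) → (∀ k ≤ n, g k ≤ 2 * kF) →
          (∑ j ∈ Finset.range (n + 1), (vo l j * f (n - j) + ve l j * g (n - j))) / (n + 1) ≤ 2 * kF := by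
        intro f g hf hg
        rw [Nat.div_le_iff_le_mul_add_pred (Nat.succ_pos n)]
        refine le_trans ?_ (Nat.le_add_right _ _)
        calc _ ≤ ∑ j ∈ Finset.range (n + 1), (2 * kF) := by
              refine Finset.sum_le_sum fun j _ => ?_
              calc vo l j * f (n - j) + ve l j * g (n - j) ≤ vo l j * (2 * kF) + ve l j * (2 * kF) :=
                    Nat.add_le_add (Nat.mul_le_mul_left _ (hf _ (by omega))) (Nat.mul_le_mul_left _ (hg _ (by omega)))
                _ = (vo l j + ve l j) * (2 * kF) := by ring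
                _ ≤ 1 * (2 * kF) := Nat.mul_le_mul_right _ (hvw j)
                _ = 2 * kF := one_mul _
          _ = (n + 1) * (2 * kF) := by rw [Finset.sum_const, Finset.card_range, smul_eq_mul]
      have hf : ∀ k ≤ n, n420_a l k ≤ 2 * kF := fun k hk => (ih k (by omega) (by omega)).1
      have hg : ∀ k ≤ n, n420_c l k ≤ 2 * kF := fun k hk => (ih k (by omega) (by omega)).2
      constructor
      · rw [n420_a, dg, (n420_st l n).1, (n420_st l n).2, n420_mul (by omega) hK hf hg hvw]
        exact key _ _ hf hg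
      · rw [n420_c, dg, (n420_st l n).1, (n420_st l n).2, n420_mul (by omega) hK hg hf hvw]
        exact key _ _ hg hf

private theorem n420_rec (l : List ℕ) {n : ℕ} (hn : n < 200) :
    n420_a l (n + 1) = (∑ j ∈ Finset.range (n + 1), (vo l j * n420_a l (n - j) + ve l j * n420_c l (n - j))) / (n + 1) ∧
    n420_c l (n + 1) = (∑ j ∈ Finset.range (n + 1), (vo l j * n420_c l (n - j) + ve l j * n420_a l (n - j))) / (n + 1) := by
  have hK : (n + 1) * (2 * kF) < kB :=
    lt_of_le_of_lt (Nat.mul_le_mul_right (2 * kF) (show n + 1 ≤ 200 by omega)) (by decide)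
  have hvw : ∀ j, vo l j + ve l j ≤ 1 := fun j => by rw [n420_vw]; exact n420_al l _
  have hf : ∀ k ≤ n, n420_a l k ≤ 2 * kF := fun k hk => (n420_bd l k (by omega)).1
  have hg : ∀ k ≤ n, n420_c l k ≤ 2 * kF := fun k hk => (n420_bd l k (by omega)).2
  constructor
  · rw [n420_a, dg, (n420_st l n).1, (n420_st l n).2, n420_mul hn hK hf hg hvw]
  · rw [n420_c, dg, (n420_st l n).1, (n420_st l n).2, n420_mul hn hK hg hf hvw]

/-- The digits of the final numbers. -/
private theorem n420_ext (l : List ℕ) {n : ℕ} (hn : n ≤ 200) :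
    (st l 200).1 / kB ^ n % kB = n420_a l n ∧ (st l 200).2 / kB ^ n % kB = n420_c l n := by
  have h0 : 2 * kF < kB := by decide
  constructor
  · rw [(n420_st l 200).1, ← n420_pol_eval, n420_dig n _ (fun i => ?_), n420_pol_coeff, if_pos (by omega)]
    rw [n420_pol_coeff]
    split_ifs with h
    · exact (n420_bd l i (by omega)).1.trans_lt h0
    · exact lt_of_le_of_lt (Nat.zero_le _) h0
  · rw [(n420_st l 200).2, ← n420_pol_eval, n420_dig n _ (fun i => ?_), n420_pol_coeff, if_pos (by omega)]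
    rw [n420_pol_coeff]
    split_ifs with h
    · exact (n420_bd l i (by omega)).2.trans_lt h0
    · exact lt_of_le_of_lt (Nat.zero_le _) h0

private noncomputable def n420_e (l : List ℕ) (n : ℕ) : ℚ :=
  W (fun a => (nd l.toFinset a : ℚ)) n + W (fun a => (ns l.toFinset a : ℚ)) n
private noncomputable def n420_o (l : List ℕ) (n : ℕ) : ℚ :=
  W (fun a => (nd l.toFinset a : ℚ)) n - W (fun a => (ns l.toFinset a : ℚ)) n

private theorem n420_w (l : List ℕ) (j : ℕ) : (nd l.toFinset (j + 1) : ℚ) = (vo l j : ℚ) + ve l j ∧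
    (ns l.toFinset (j + 1) : ℚ) = (vo l j : ℚ) - ve l j := by
  rw [← n60_nd, ← n60_ns]
  unfold fl vo ve al
  by_cases h : (l.any fun q => (j + 1) % q == 0) = true
  · simp [h]
  · by_cases h2 : (j + 1) % 2 = 1
    · have h3 : ¬ (j + 1) % 2 = 0 := by omega
      simp [h, h2]
    · have h3 : (j + 1) % 2 = 0 := by omega
      simp [h, h3]

private theorem n420_erec (l : List ℕ) (n : ℕ) :
    ((n : ℚ) + 1) * n420_e l (n + 1) = ∑ j ∈ Finset.range (n + 1), ((vo l j : ℚ) * n420_e l (n - j) + ve l j * n420_o l (n - j)) ∧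
    ((n : ℚ) + 1) * n420_o l (n + 1) = ∑ j ∈ Finset.range (n + 1), ((vo l j : ℚ) * n420_o l (n - j) + ve l j * n420_e l (n - j)) := by
  have h1 := W_rec (fun a => (nd l.toFinset a : ℚ)) (n + 1)
  have h2 := W_rec (fun a => (ns l.toFinset a : ℚ)) (n + 1)
  simp only [Nat.add_sub_cancel, Nat.cast_add, Nat.cast_one] at h1 h2
  unfold n420_e n420_o
  constructor
  · rw [mul_add, h1, h2, ← Finset.sum_add_distrib]
    refine Finset.sum_congr rfl fun j _ => ?_
    rw [(n420_w l j).1, (n420_w l j).2]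
    ring
  · rw [mul_sub, h1, h2, ← Finset.sum_sub_distrib]
    refine Finset.sum_congr rfl fun j _ => ?_
    rw [(n420_w l j).1, (n420_w l j).2]
    ring

private theorem n420_rd {n : ℕ} {v w f g : ℕ → ℕ} {x y : ℕ → ℚ} {X : ℚ} (hvw : ∀ j, v j + w j ≤ 1)
    (hf : ∀ k ≤ n, (f k : ℚ) ≤ x k ∧ x k ≤ f k + (n + 1)) (hg : ∀ k ≤ n, (g k : ℚ) ≤ y k ∧ y k ≤ g k + (n + 1))
    (hX : ((n : ℚ) + 1) * X = ∑ j ∈ Finset.range (n + 1), ((v j : ℚ) * x (n - j) + w j * y (n - j))) :
    (((∑ j ∈ Finset.range (n + 1), (v j * f (n - j) + w j * g (n - j))) / (n + 1) : ℕ) : ℚ) ≤ X ∧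
    X ≤ (((∑ j ∈ Finset.range (n + 1), (v j * f (n - j) + w j * g (n - j))) / (n + 1) : ℕ) : ℚ) + (n + 1 + 1) := by
  set S := ∑ j ∈ Finset.range (n + 1), (v j * f (n - j) + w j * g (n - j)) with hS
  have hn : (0 : ℚ) < (n : ℚ) + 1 := by positivity
  have h1 : (S : ℚ) ≤ ((n : ℚ) + 1) * X := by
    rw [hX, hS, Nat.cast_sum]
    refine Finset.sum_le_sum fun j _ => ?_
    push_cast
    exact add_le_add (mul_le_mul_of_nonneg_left (hf _ (by omega)).1 (Nat.cast_nonneg _))
      (mul_le_mul_of_nonneg_left (hg _ (by omega)).1 (Nat.cast_nonneg _))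
  have h2 : ((n : ℚ) + 1) * X ≤ S + ((n : ℚ) + 1) * (n + 1) := by
    rw [hX, hS, Nat.cast_sum]
    have h3 : ((n : ℚ) + 1) * (n + 1) = ∑ _j ∈ Finset.range (n + 1), ((n : ℚ) + 1) := by
      rw [Finset.sum_const, Finset.card_range, nsmul_eq_mul]
      push_cast
      ring
    rw [h3, ← Finset.sum_add_distrib]
    refine Finset.sum_le_sum fun j _ => ?_
    have h4 := (hf (n - j) (by omega)).2
    have h5 := (hg (n - j) (by omega)).2
    have h6 : ((v j : ℚ)) + w j ≤ 1 := by exact_mod_cast hvw j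
    have h7 : (0 : ℚ) ≤ v j := Nat.cast_nonneg _
    have h8 : (0 : ℚ) ≤ w j := Nat.cast_nonneg _
    push_cast
    calc (v j : ℚ) * x (n - j) + w j * y (n - j) ≤ v j * (f (n - j) + (n + 1)) + w j * (g (n - j) + (n + 1)) :=
          add_le_add (mul_le_mul_of_nonneg_left h4 h7) (mul_le_mul_of_nonneg_left h5 h8)
      _ = v j * f (n - j) + w j * g (n - j) + (v j + w j) * ((n : ℚ) + 1) := by ring
      _ ≤ v j * f (n - j) + w j * g (n - j) + 1 * ((n : ℚ) + 1) := by
          gcongr
      _ = _ := by ring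
  have h9 : (n + 1) * (S / (n + 1)) ≤ S := Nat.mul_div_le S (n + 1)
  have h10 : S < (n + 1) * (S / (n + 1)) + (n + 1) := by
    have := Nat.lt_mul_div_succ S (Nat.succ_pos n)
    rw [Nat.succ_eq_add_one, mul_add, mul_one] at this
    exact this
  have h11 : ((n : ℚ) + 1) * ((S / (n + 1) : ℕ) : ℚ) ≤ S := by exact_mod_cast h9
  have h12 : (S : ℚ) < ((n : ℚ) + 1) * ((S / (n + 1) : ℕ) : ℚ) + (n + 1) := by exact_mod_cast h10
  constructor
  · exact le_of_mul_le_mul_left (h11.trans h1) hn
  · have h13 : ((n : ℚ) + 1) * X ≤ ((n : ℚ) + 1) * (((S / (n + 1) : ℕ) : ℚ) + (n + 1 + 1)) := by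
      nlinarith
    exact le_of_mul_le_mul_left h13 hn

private theorem n420_app (l : List ℕ) : ∀ n ≤ 200,
    ((n420_a l n : ℚ) ≤ kF * n420_e l n ∧ kF * n420_e l n ≤ n420_a l n + (n + 1)) ∧
    ((n420_c l n : ℚ) ≤ kF * n420_o l n ∧ kF * n420_o l n ≤ n420_c l n + (n + 1)) := by
  intro n
  induction n using Nat.strong_induction_on with
  | _ n ih =>
    intro hn
    cases n with
    | zero =>
      have h1 : n420_e l 0 = 2 := by rw [n420_e, W_zero, W_zero]; norm_num
      have h2 : n420_o l 0 = 0 := by rw [n420_o, W_zero, W_zero]; norm_num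
      rw [h1, h2, n420_a, n420_c]
      push_cast
      refine ⟨⟨by linarith, by linarith⟩, ⟨by linarith, by linarith⟩⟩
    | succ n =>
      have hvw : ∀ j, vo l j + ve l j ≤ 1 := fun j => by rw [n420_vw]; exact n420_al l _
      have hf : ∀ k ≤ n, ((n420_a l k : ℚ) ≤ kF * n420_e l k ∧ kF * n420_e l k ≤ n420_a l k + (n + 1)) := fun k hk => by
        have h3 := (ih k (by omega) (by omega)).1
        have h4 : (k : ℚ) ≤ n := by exact_mod_cast hk
        exact ⟨h3.1, by linarith [h3.2]⟩
      have hg : ∀ k ≤ n, ((n420_c l k : ℚ) ≤ kF * n420_o l k ∧ kF * n420_o l k ≤ n420_c l k + (n + 1)) := fun k hk => by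
        have h3 := (ih k (by omega) (by omega)).2
        have h4 : (k : ℚ) ≤ n := by exact_mod_cast hk
        exact ⟨h3.1, by linarith [h3.2]⟩
      have hr := n420_rec l (show n < 200 by omega)
      have he := n420_erec l n
      have e1 : ((n : ℚ) + 1) * (kF * n420_e l (n + 1)) =
          ∑ j ∈ Finset.range (n + 1), ((vo l j : ℚ) * (kF * n420_e l (n - j)) + ve l j * (kF * n420_o l (n - j))) := by
        rw [mul_left_comm, he.1, Finset.mul_sum]
        exact Finset.sum_congr rfl fun j _ => by ring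
      have e2 : ((n : ℚ) + 1) * (kF * n420_o l (n + 1)) =
          ∑ j ∈ Finset.range (n + 1), ((vo l j : ℚ) * (kF * n420_o l (n - j)) + ve l j * (kF * n420_e l (n - j))) := by
        rw [mul_left_comm, he.2, Finset.mul_sum]
        exact Finset.sum_congr rfl fun j _ => by ring
      have r1 := n420_rd hvw hf hg e1
      have r2 := n420_rd hvw hg hf e2
      rw [← hr.1] at r1
      rw [← hr.2] at r2
      push_cast
      exact ⟨r1, r2⟩

private theorem n420_pq : ∀ q ∈ ([3, 4, 5, 7] : List ℕ).toFinset, IsPrimePow q := by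
  refine n60_pp fun q hq => ?_
  simp only [List.mem_cons, List.not_mem_nil, or_false] at hq
  rcases hq with rfl | rfl | rfl | rfl
  · exact ⟨3, 1, by norm_num, by norm_num, by norm_num⟩
  · exact ⟨2, 2, by norm_num, by norm_num, by norm_num⟩
  · exact ⟨5, 1, by norm_num, by norm_num, by norm_num⟩
  · exact ⟨7, 1, by norm_num, by norm_num, by norm_num⟩

private theorem n420_cop : ((([3, 4, 5, 7] : List ℕ).toFinset : Finset ℕ) : Set ℕ).Pairwise Nat.Coprime := by
  intro a ha b hb hab
  rw [Finset.mem_coe, List.mem_toFinset] at ha hb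
  simp only [List.mem_cons, List.not_mem_nil, or_false] at ha hb
  rcases ha with rfl | rfl | rfl | rfl <;> rcases hb with rfl | rfl | rfl | rfl <;> first | exact absurd rfl hab | norm_num

private theorem n420_lin {x : List ℕ → ℤ} {y : List ℕ → ℚ} {c : ℚ} (h : ∀ l, (x l : ℚ) ≤ y l ∧ y l ≤ x l + c) :
    ∀ L : List (ℤ × List ℕ), (∀ p ∈ L, p.1 = 1 ∨ p.1 = -1) →
      (((L.map fun p => p.1 * x p.2).sum : ℤ) : ℚ) - L.length * c ≤ (L.map fun p => (p.1 : ℚ) * y p.2).sum
  | [], _ => by simp
  | p :: L, hL => by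
    have ih := n420_lin h L fun q hq => hL q (List.mem_cons_of_mem _ hq)
    have h1 := h p.2
    rw [List.map_cons, List.sum_cons, List.map_cons, List.sum_cons, List.length_cons, Nat.cast_succ, add_mul, one_mul,
      Int.cast_add, Int.cast_mul]
    rcases hL p (List.mem_cons_self) with h2 | h2
    · rw [h2, Int.cast_one, one_mul, one_mul]
      linarith [h1.1, h1.2]
    · rw [h2, Int.cast_neg, Int.cast_one, neg_one_mul, neg_one_mul]
      linarith [h1.1, h1.2]

private theorem n420_gg {n : ℕ} (hn : n ≤ 200) : (gg n : ℚ) ≤ kF * dm 420 n := by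
  have hF : (0 : ℚ) ≤ kF := Nat.cast_nonneg _
  have hsg : ∀ p ∈ pl [3, 4, 5, 7], p.1 = 1 ∨ p.1 = -1 := by decide
  have hlen : (pl [3, 4, 5, 7]).length = 16 := by decide
  have hQ := n420_pq
  have hc := n420_cop
  have hm : (420 : ℕ) = ∏ q ∈ ([3, 4, 5, 7] : List ℕ).toFinset, q := by decide
  have h1 := n420_lin (x := fun l => (((st l 200).1 / kB ^ n % kB : ℕ) : ℤ)) (y := fun l => kF * n420_e l n)
    (c := (n : ℚ) + 1) (fun l => by
      rw [(n420_ext l hn).1]
      push_cast
      exact (n420_app l n hn).1) _ hsg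
  have h2 := n420_lin (x := fun l => (((st l 200).2 / kB ^ n % kB : ℕ) : ℤ)) (y := fun l => kF * n420_o l n)
    (c := (n : ℚ) + 1) (fun l => by
      rw [(n420_ext l hn).2]
      push_cast
      exact (n420_app l n hn).2) _ hsg
  rw [hlen] at h1 h2
  have key : ∀ g : List ℕ → ℚ, ((pl [3, 4, 5, 7]).map fun p => (p.1 : ℚ) * (kF * g p.2)).sum =
      kF * ((pl [3, 4, 5, 7]).map fun p => (p.1 : ℚ) * g p.2).sum := by
    intro g
    rw [← List.sum_map_mul_left]
    congr 1
    exact List.map_congr_left fun p _ => by ring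
  rw [key fun l => n420_e l n] at h1
  rw [key fun l => n420_o l n] at h2
  have d1 : dd 420 1 n = ((pl [3, 4, 5, 7]).map fun p => (p.1 : ℚ) * n420_e p.2 n).sum := by
    have h3 := n60_pl (fun S => W (fun a => (nd S a : ℚ)) n + W (fun a => (ns S a : ℚ)) n) [3, 4, 5, 7] (by decide)
    have h4 : ((pl [3, 4, 5, 7]).map fun p => (p.1 : ℚ) * n420_e p.2 n).sum = _ := h3
    rw [h4, hm, ddW _ hQ hc, Units.val_one, Int.cast_one, one_mul, ← Finset.sum_add_distrib]
    exact Finset.sum_congr rfl fun S _ => by ring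
  have d2 : dd 420 (-1) n = ((pl [3, 4, 5, 7]).map fun p => (p.1 : ℚ) * n420_o p.2 n).sum := by
    have h3 := n60_pl (fun S => W (fun a => (nd S a : ℚ)) n - W (fun a => (ns S a : ℚ)) n) [3, 4, 5, 7] (by decide)
    have h4 : ((pl [3, 4, 5, 7]).map fun p => (p.1 : ℚ) * n420_o p.2 n).sum = _ := h3
    rw [h4, hm, ddW _ hQ hc, Units.val_neg, Units.val_one, Int.cast_neg, Int.cast_one, neg_one_mul, ← sub_eq_add_neg,
      ← Finset.sum_sub_distrib]
    exact Finset.sum_congr rfl fun S _ => by ring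
  rw [gg, dm, mul_min_of_nonneg _ _ hF, d1, d2]
  push_cast
  rw [sub_le_iff_le_add]
  refine le_trans (min_le_min (show _ ≤ _ + 16 * ((n : ℚ) + 1) from ?_) (show _ ≤ _ + 16 * ((n : ℚ) + 1) from ?_))
    (le_of_eq (min_add_add_right _ _ _))
  · push_cast at h1
    linarith
  · push_cast at h2
    linarith

/-- PROOF. `ddW` for `Q = {3, 4, 5, 7}`, approximations with 48 binary digits: kernel computation. Values of `420 * dm 420 n`: 8.64 (32), 8.108 (33), 9.473 (34), 10.157 (35),
10.371 (36), 11.1 (37), .. 26.05 (59). -/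
theorem dm420 : (∀ n, 32 ≤ n → n ≤ 36 → 8 < 420 * dm 420 n) ∧ (∀ n, 36 < n → n < 60 → 10 < 420 * dm 420 n) := by
  have hF : (0 : ℚ) < kF := by unfold kF; norm_num
  constructor
  · intro n h1 h2
    have h3 := n420_chk.1 n (by omega) (by omega)
    have h4 : (8 * (kF : ℤ) : ℚ) < ((420 * gg n : ℤ) : ℚ) := by exact_mod_cast h3
    push_cast at h4
    have h5 := n420_gg (n := n) (by omega)
    exact n60_div hF (lt_of_lt_of_le h4 (mul_le_mul_of_nonneg_left h5 (by norm_num)))
  · intro n h1 h2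
    have h3 := n420_chk.2.1 n (by omega) (by omega)
    have h4 : (10 * (kF : ℤ) : ℚ) < ((420 * gg n : ℤ) : ℚ) := by exact_mod_cast h3
    push_cast at h4
    have h5 := n420_gg (n := n) (by omega)
    exact n60_div hF (lt_of_lt_of_le h4 (mul_le_mul_of_nonneg_left h5 (by norm_num)))

private theorem n420_sum {N : ℕ} (hN : N ≤ 200) {v : ℤ} (h : v * (kF : ℤ) ≤ 420 * ∑ k ∈ Finset.range N, gg k) :
    (v : ℚ) ≤ 420 * ∑ k ∈ Finset.range N, dm 420 k := by
  have hF : (0 : ℚ) < kF := by unfold kF; norm_num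
  have h1 : ((∑ k ∈ Finset.range N, gg k : ℤ) : ℚ) ≤ kF * ∑ k ∈ Finset.range N, dm 420 k := by
    rw [Int.cast_sum, Finset.mul_sum]
    refine Finset.sum_le_sum fun k hk => n420_gg ?_
    have := Finset.mem_range.1 hk
    omega
  have h2 : ((v * (kF : ℤ) : ℤ) : ℚ) ≤ ((420 * ∑ k ∈ Finset.range N, gg k : ℤ) : ℚ) := Int.cast_le.2 h
  rw [Int.cast_mul, Int.cast_mul, Int.cast_natCast, Int.cast_ofNat] at h2
  have h3 : (kF : ℚ) * v ≤ kF * (420 * ∑ k ∈ Finset.range N, dm 420 k) := by
    calc (kF : ℚ) * v = v * kF := mul_comm _ _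
      _ ≤ 420 * ((∑ k ∈ Finset.range N, gg k : ℤ) : ℚ) := h2
      _ ≤ 420 * (kF * ∑ k ∈ Finset.range N, dm 420 k) := mul_le_mul_of_nonneg_left h1 (by norm_num)
      _ = _ := by ring
  exact le_of_mul_le_mul_left h3 hF

/-- PROOF. As above. `(420 / N) * ∑_{k < N} dm 420 k` is `8.828` for `N = 60`, `19.28` for `N = 100`, `37.93` for `N = 200`. -/
theorem sum420 : 60 * (88 / 10) ≤ 420 * ∑ k ∈ Finset.range 60, dm 420 k ∧ 100 * 19 ≤ 420 * ∑ k ∈ Finset.range 100, dm 420 k ∧
    200 * (379 / 10) ≤ 420 * ∑ k ∈ Finset.range 200, dm 420 k := by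
  have h1 := n420_sum (by norm_num) n420_chk.2.2.1
  have h2 := n420_sum (by norm_num) n420_chk.2.2.2.1
  have h3 := n420_sum (by norm_num) n420_chk.2.2.2.2
  push_cast at h1 h2 h3
  refine ⟨?_, ?_, ?_⟩
  · linarith
  · linarith
  · linarith
-- END n420

end Pool.Agent.EgO
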