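import Pool.Agent.EgO.Star
import Pool.Agent.EgO.Blk
import Pool.Agent.EgO.Mer
import Pool.Agent.EgO.Num
import Pool.Agent.EgO.Big

/-!
# The theorem
-/

set_option autoImplicit false

namespace Pool.Agent.EgO

open Equiv

/-- For the degrees of the theorem some `m * dm m n` is larger than `M n`. -/
theorem exists_m {n : ℕ} (hn : n = 27 ∨ n = 28 ∨ n = 29 ∨ 31 ≤ n) : ∃ m : ℕ, 0 < m ∧ M n < m * dm m n := by
  rcases hn with rfl | rfl | rfl | hn
  · exact ⟨60, by norm_num, ((M_mono (by norm_num)).trans M28).trans_lt (lt_trans (by norm_num) dm60.1)⟩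
  · exact ⟨60, by norm_num, M28.trans_lt (lt_trans (by norm_num) dm60.2.1)⟩
  · exact ⟨60, by norm_num, ((M_mono (by norm_num)).trans M30).trans_lt (lt_trans (by norm_num) dm60.2.2.1)⟩
  rcases Nat.lt_or_ge n 32 with h | h
  · obtain rfl : n = 31 := by omega
    exact ⟨60, by norm_num, ((M_mono (by norm_num)).trans M36).trans_lt (lt_trans (by norm_num) dm60.2.2.2)⟩
  rcases Nat.lt_or_ge n 37 with h' | h'
  · exact ⟨420, by norm_num, ((M_mono (by omega)).trans M36).trans_lt (lt_trans (by norm_num) (dm420.1 n h (by omega)))⟩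
  rcases Nat.lt_or_ge n 60 with h60 | h60
  · exact ⟨420, by norm_num, ((M_mono (by omega)).trans M60).trans_lt
      (lt_trans (by norm_num) (dm420.2 n (by omega) h60))⟩
  -- the averages
  have key : ∀ {N : ℕ} {v : ℚ}, 0 < N → N ≤ n → N * v ≤ 420 * ∑ k ∈ Finset.range N, dm 420 k → v ≤ 420 * dm 420 n := by
    intro N v hN hNn hv
    have h1 := mono (dmm 420) hN hNn
    have h2 : (0 : ℚ) < N := by exact_mod_cast hN
    have h3 : (N : ℚ) * v ≤ N * (420 * dm 420 n) := by nlinarith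
    exact le_of_mul_le_mul_left h3 h2
  rcases Nat.lt_or_ge n 131 with h131 | h131
  · have h1 := key (N := 60) (v := 88 / 10) (by norm_num) h60 (by exact_mod_cast sum420.1)
    exact ⟨420, by norm_num, ((M_mono (by omega)).trans M130).trans_lt (lt_of_lt_of_le (by norm_num) h1)⟩
  rcases Nat.lt_or_ge n 1025 with h1024 | h1024
  · have h1 := key (N := 100) (v := 19) (by norm_num) (by omega) (by exact_mod_cast sum420.2.1)
    exact ⟨420, by norm_num, ((M_mono (by omega)).trans M1024).trans_lt (lt_of_lt_of_le (by norm_num) h1)⟩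
  have hlog : 2 ^ Nat.log 2 n ≤ n := Nat.pow_log_le_self 2 (by omega)
  have hlog2 : n < 2 ^ (Nat.log 2 n + 1) := Nat.lt_pow_succ_log_self (by norm_num) n
  rcases Nat.lt_or_ge (Nat.log 2 n) 18 with h18 | h18
  · have h1 := key (N := 200) (v := 379 / 10) (by norm_num) (by omega) (by exact_mod_cast sum420.2.2)
    refine ⟨420, by norm_num, ?_⟩
    have h2 : M n ≤ M 4096 * ((17 : ℕ) / 11 : ℚ) ^ 2 := MK (by norm_num)
      (hlog2.le.trans (Nat.pow_le_pow_right (by norm_num) (by omega)))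
    refine h2.trans_lt (lt_of_lt_of_le ?_ h1)
    have h3 := M4096
    norm_num
    linarith
  have hM : M n ≤ (1485 / 100 : ℚ) * ((Nat.log 2 n : ℕ) / 11 : ℚ) ^ 2 :=
    (MK (by omega) hlog2.le).trans (mul_le_mul_of_nonneg_right M4096 (by positivity))
  rcases Nat.lt_or_ge (Nat.log 2 n) 38 with h38 | h38
  · exact ⟨420, by norm_num, hM.trans_lt (b1 hlog h18 (by omega))⟩
  rcases Nat.lt_or_ge (Nat.log 2 n) 1000 with h1000 | h1000
  · obtain ⟨m, hm, h2⟩ := b2 hlog h38 h1000.le
    exact ⟨m, hm, hM.trans_lt h2⟩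
  · obtain ⟨m, hm, h2⟩ := b3 hlog h1000
    exact ⟨m, hm, hM.trans_lt h2⟩

/-- Alternating chief factors. -/
theorem main_block {G Ω : Type*} [Group G] [Finite G] (hG : Ah G) [MulAction G Ω] {n : ℕ}
    (hn : n = 27 ∨ n = 28 ∨ n = 29 ∨ 31 ≤ n) {b : Fin n → Ω} (hb : Blk G b) :
    ∃ p, p.Prime ∧ p ∣ Nat.card G ∧ n < p := by
  by_contra hcon
  have h1 : ∀ p, p.Prime → p ∣ Nat.card G → p ≤ n := fun p hp hd => by
    by_contra h
    exact hcon ⟨p, hp, hd, not_le.1 h⟩
  obtain ⟨m, hm, hmn⟩ := exists_m hn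
  have h2 := star_M hG hm h1
  have h3 := bc (by omega) hb m
  have h4 : (0 : ℚ) < Nat.card G := by exact_mod_cast Nat.card_pos
  have h5 : (0 : ℚ) < m := by exact_mod_cast hm
  have h6 : (m : ℚ) * (Nat.card G * dm m n) ≤ Nat.card G * M n := (mul_le_mul_of_nonneg_left h3 h5.le).trans h2
  nlinarith

/-- Symmetric quotients. -/
theorem main_quot {G : Type*} [Group G] [Finite G] (hG : Ah G) {n : ℕ} (hn : 23 ≤ n) (π : G →* Perm (Fin n))
    (hπ : Function.Surjective π) : ∃ p, p.Prime ∧ p ∣ Nat.card G ∧ n < p := by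
  by_contra hcon
  have h1 : ∀ p, p.Prime → p ∣ Nat.card G → p ≤ n := fun p hp hd => by
    by_contra h
    exact hcon ⟨p, hp, hd, not_le.1 h⟩
  have h4 : (0 : ℚ) < Nat.card G := by exact_mod_cast Nat.card_pos
  rcases Nat.lt_or_ge n 31 with h | h
  · have h2 := star_M hG (m := 60) (by norm_num) h1
    have h3 := qt π hπ 60
    have h6 : (60 : ℚ) * (Nat.card G * cc 60 n) ≤ Nat.card G * M n :=
      (mul_le_mul_of_nonneg_left h3 (by norm_num)).trans (by exact_mod_cast h2)
    have h7 : M n < 60 * cc 60 n := by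
      rcases Nat.lt_or_ge n 29 with h' | h'
      · exact ((M_mono (by omega)).trans M28).trans_lt (lt_trans (by norm_num) (cc60.1 n hn (by omega)))
      · exact ((M_mono (by omega)).trans M30).trans_lt (lt_trans (by norm_num) (cc60.2 n h' (by omega)))
    nlinarith
  · let _ : MulAction G (Fin n) := MulAction.compHom (Fin n) π
    have hsm : ∀ (g : G) (i : Fin n), g • i = π g i := fun _ _ => rfl
    have hb : Blk G (fun i : Fin n => i) := by
      refine ⟨fun _ _ h => h, fun g => Or.inl fun i => ⟨g • i, rfl⟩, fun τ _ => ?_⟩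
      obtain ⟨a, ha⟩ := hπ τ
      exact ⟨a, fun i => by rw [hsm, ha], fun ω hω => absurd ⟨ω, rfl⟩ hω⟩
    exact hcon (main_block hG (by omega) hb)

end Pool.Agent.EgO
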