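import Pool.Agent.EgO.Av

/-!
# The mean values of `cc` and `dm` do not decrease
-/

set_option autoImplicit false

namespace Pool.Agent.EgO

open Equiv

-- BEGIN ccm
private theorem ccm_parts {n : ℕ} (σ : Perm (Fin n)) : σ.partition.parts.lcm = orderOf σ := by
  rw [Equiv.Perm.parts_partition, Multiset.lcm_add, Equiv.Perm.lcm_cycleType]
  have h : ∀ k : ℕ, (Multiset.replicate k (1 : ℕ)).lcm = 1 := by
    intro k
    induction k with
    | zero => simp
    | succ k ih => rw [Multiset.replicate_succ, Multiset.lcm_cons, ih]; rfl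
  rw [h]
  exact Nat.lcm_one_right _

private theorem ccm_av (m n : ℕ) : cc m n = av (fun s => if m ∣ s.lcm then 1 else 0) n := by
  rw [cc, av]
  congr 1
  have h1 : ∀ σ : Perm (Fin n), (if m ∣ σ.partition.parts.lcm then (1 : ℚ) else 0) =
      if m ∣ orderOf σ then 1 else 0 := fun σ => by rw [ccm_parts]
  rw [Finset.sum_congr rfl (fun σ _ => h1 σ), Finset.sum_boole, Nat.card_eq_fintype_card,
    Fintype.card_subtype]

/-- PROOF. `cc m n = av (fun s => if m ∣ s.lcm then 1 else 0) n` (`orderOf σ = lcm` of the cycle type); `av_rec` and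
`m ∣ s.lcm → m ∣ ((j + 1) ::ₘ s).lcm`, `av` is monotone. -/
theorem ccm (m n : ℕ) : ∑ k ∈ Finset.range n, cc m k ≤ n * cc m n := by
  rw [ccm_av m n, av_rec, ← Finset.sum_range_reflect]
  apply Finset.sum_le_sum
  intro j _
  rw [ccm_av, av, av]
  apply div_le_div_of_nonneg_right _ (by positivity)
  apply Finset.sum_le_sum
  intro σ _
  show (if m ∣ σ.partition.parts.lcm then (1 : ℚ) else 0) ≤
    if m ∣ ((j + 1) ::ₘ σ.partition.parts).lcm then 1 else 0
  by_cases h : m ∣ σ.partition.parts.lcm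
  · have h2 : m ∣ ((j + 1) ::ₘ σ.partition.parts).lcm := by
      rw [Multiset.lcm_cons]
      exact h.trans (dvd_lcm_right _ _)
    rw [if_pos h, if_pos h2]
  · rw [if_neg h]
    split_ifs <;> norm_num
-- END ccm

-- BEGIN dmm
private theorem dmm_parts {n : ℕ} (σ : Perm (Fin n)) : σ.partition.parts.lcm = orderOf σ := by
  rw [Equiv.Perm.parts_partition, Multiset.lcm_add, Equiv.Perm.lcm_cycleType]
  have h : ∀ k : ℕ, (Multiset.replicate k (1 : ℕ)).lcm = 1 := by
    intro k
    induction k with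
    | zero => simp
    | succ k ih => rw [Multiset.replicate_succ, Multiset.lcm_cons, ih]; rfl
  rw [h]
  exact Nat.lcm_one_right _

private theorem dmm_av (m : ℕ) (ε : ℤˣ) (n : ℕ) : dd m ε n =
    av (fun s => if m ∣ s.lcm then 1 + ((ε : ℤ) : ℚ) * (s.map fun a => (-1 : ℚ) ^ (a + 1)).prod
      else 0) n := by
  classical
  have hsg : ∀ σ : Perm (Fin n), 2 * (if Perm.sign σ = ε then (1 : ℚ) else 0) =
      1 + ((ε : ℤ) : ℚ) * ((Perm.sign σ : ℤ) : ℚ) := by
    intro σ
    rcases Int.units_eq_one_or (Perm.sign σ) with h | h <;> rcases Int.units_eq_one_or ε with h' | h' <;>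
      rw [h, h'] <;> norm_num
  have h1 : 2 * (E n m ε : ℚ) =
      ∑ σ : Perm (Fin n), if m ∣ σ.partition.parts.lcm then
        1 + ((ε : ℤ) : ℚ) * (σ.partition.parts.map fun a => (-1 : ℚ) ^ (a + 1)).prod else 0 := by
    unfold E
    rw [Nat.card_eq_fintype_card, Fintype.card_subtype, ← Finset.sum_boole, Finset.mul_sum]
    refine Finset.sum_congr rfl fun σ _ => ?_
    rw [dmm_parts, sgn, ← hsg σ]
    by_cases h2 : Perm.sign σ = ε <;> by_cases h3 : m ∣ orderOf σ <;> simp [h2, h3]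
  unfold dd av
  rw [h1]

private theorem dmm_nonneg (ε : ℤˣ) {n : ℕ} (σ : Perm (Fin n)) :
    0 ≤ 1 + ((ε : ℤ) : ℚ) * (σ.partition.parts.map fun a => (-1 : ℚ) ^ (a + 1)).prod := by
  rw [sgn]
  rcases Int.units_eq_one_or (Perm.sign σ) with h | h <;> rcases Int.units_eq_one_or ε with h' | h' <;>
    rw [h, h'] <;> norm_num

private theorem dmm_le (m : ℕ) (ε : ℤˣ) (n : ℕ) : dm m n ≤ dd m ε n := by
  unfold dm
  rcases Int.units_eq_one_or ε with h' | h'
  · rw [h']; exact min_le_left _ _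
  · rw [h']; exact min_le_right _ _

private theorem dmm_dd (m : ℕ) (ε : ℤˣ) (n : ℕ) :
    ∑ k ∈ Finset.range n, dm m k ≤ n * dd m ε n := by
  rw [dmm_av m ε n, av_rec, ← Finset.sum_range_reflect]
  apply Finset.sum_le_sum
  intro j _
  refine (dmm_le m (ε * (-1) ^ j) _).trans ?_
  rw [dmm_av, av, av]
  apply div_le_div_of_nonneg_right _ (by positivity)
  apply Finset.sum_le_sum
  intro σ _
  show (if m ∣ σ.partition.parts.lcm then
      1 + (((ε * (-1) ^ j : ℤˣ) : ℤ) : ℚ) * (σ.partition.parts.map fun a => (-1 : ℚ) ^ (a + 1)).prod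
      else 0) ≤
    if m ∣ ((j + 1) ::ₘ σ.partition.parts).lcm then
      1 + ((ε : ℤ) : ℚ) * (((j + 1) ::ₘ σ.partition.parts).map fun a => (-1 : ℚ) ^ (a + 1)).prod
      else 0
  have he : 1 + ((ε : ℤ) : ℚ) * (((j + 1) ::ₘ σ.partition.parts).map fun a => (-1 : ℚ) ^ (a + 1)).prod =
      1 + (((ε * (-1) ^ j : ℤˣ) : ℤ) : ℚ) *
        (σ.partition.parts.map fun a => (-1 : ℚ) ^ (a + 1)).prod := by
    rw [Multiset.map_cons, Multiset.prod_cons]
    push_cast
    ring
  rw [he]
  have h0 := dmm_nonneg (ε * (-1) ^ j) σ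
  by_cases h : m ∣ σ.partition.parts.lcm
  · have h2 : m ∣ ((j + 1) ::ₘ σ.partition.parts).lcm := by
      rw [Multiset.lcm_cons]
      exact h.trans (dvd_lcm_right _ _)
    rw [if_pos h, if_pos h2]
  · rw [if_neg h]
    split_ifs
    · exact h0
    · exact le_rfl

/-- PROOF. `dd m ε n = av (fun s => if m ∣ s.lcm then 1 + ε * (s.map fun a => (-1) ^ (a + 1)).prod else 0) n` (`sgn`). By `av_rec`, with the sign of
a cycle of length `j + 1`, `n * dd m ε n ≥ ∑_j dd m (± ε) (n - 1 - j) ≥ ∑_k dm m k`. -/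
theorem dmm (m n : ℕ) : ∑ k ∈ Finset.range n, dm m k ≤ n * dm m n := by
  rcases min_choice (dd m 1 n) (dd m (-1) n) with h | h
  · rw [show dm m n = dd m 1 n from h]
    exact dmm_dd m 1 n
  · rw [show dm m n = dd m (-1) n from h]
    exact dmm_dd m (-1) n
-- END dmm

-- BEGIN mono
/-- PROOF. `S n = ∑_{k < n} x k`. `S (n + 1) = S n + x n ≥ S n + S n / n`, so `S n / n` does not decrease; `x n ≥ S n / n ≥ S N / N`. -/
theorem mono {x : ℕ → ℚ} (hx : ∀ n, ∑ k ∈ Finset.range n, x k ≤ n * x n) {N n : ℕ} (hN : 0 < N) (hn : N ≤ n) :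
    ∑ k ∈ Finset.range N, x k ≤ N * x n := by
  have key : ∀ m, N ≤ m → (m : ℚ) * ∑ k ∈ Finset.range N, x k ≤ N * ∑ k ∈ Finset.range m, x k := by
    intro m hm
    induction m, hm using Nat.le_induction with
    | base => exact le_rfl
    | succ m hm ih =>
      have hm0 : (0 : ℚ) < m := by exact_mod_cast lt_of_lt_of_le hN hm
      have hN0 : (0 : ℚ) ≤ N := Nat.cast_nonneg N
      have h1 := hx m
      rw [Finset.sum_range_succ]
      push_cast
      have h2 : (N : ℚ) * ∑ k ∈ Finset.range m, x k ≤ N * (m * x m) :=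
        mul_le_mul_of_nonneg_left h1 hN0
      have h3 : (m : ℚ) * (((m : ℚ) + 1) * ∑ k ∈ Finset.range N, x k) ≤
          m * (N * (∑ k ∈ Finset.range m, x k + x m)) := by
        have h4 : ((m : ℚ) + 1) * (m * ∑ k ∈ Finset.range N, x k) ≤
            (m + 1) * (N * ∑ k ∈ Finset.range m, x k) :=
          mul_le_mul_of_nonneg_left ih (by linarith)
        linarith
      exact le_of_mul_le_mul_left h3 hm0
  have hn0 : (0 : ℚ) < n := by exact_mod_cast lt_of_lt_of_le hN hn
  have hN0 : (0 : ℚ) ≤ N := Nat.cast_nonneg N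
  have h1 := key n hn
  have h2 : (N : ℚ) * ∑ k ∈ Finset.range n, x k ≤ N * (n * x n) :=
    mul_le_mul_of_nonneg_left (hx n) hN0
  have h3 : (n : ℚ) * ∑ k ∈ Finset.range N, x k ≤ n * (N * x n) := by linarith
  exact le_of_mul_le_mul_left h3 hn0
-- END mono

-- BEGIN ddn
/-- The four facts are immediate: `dd` and `cc` are nonnegative (a number of elements divided by `n!`); `dm ≤ dd`. -/
theorem dm_nonneg (m n : ℕ) : 0 ≤ dm m n := by
  have h : ∀ ε : ℤˣ, 0 ≤ dd m ε n := fun ε => by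
    rw [dd]
    positivity
  exact le_min (h 1) (h (-1))

theorem cc_nonneg (m n : ℕ) : 0 ≤ cc m n := by
  rw [cc]
  positivity
-- END ddn

end Pool.Agent.EgO
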