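import Pool.Agent.EgO.Av

/-!
# Permutations with exactly one cycle in each of several families of lengths
-/

set_option autoImplicit false

namespace Pool.Agent.EgO

open Equiv

theorem av_mono {F F' : Multiset ℕ → ℚ} {n : ℕ} (h : ∀ s : Multiset ℕ, (∀ a ∈ s, 0 < a) → F s ≤ F' s) : av F n ≤ av F' n := by
  unfold av
  refine div_le_div_of_nonneg_right (Finset.sum_le_sum fun σ _ => h _ fun a ha => σ.partition.parts_pos ha) (by positivity)

theorem av_sum {ι : Type*} (S : Finset ι) (F : ι → Multiset ℕ → ℚ) (n : ℕ) :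
    av (fun s => ∑ i ∈ S, F i s) n = ∑ i ∈ S, av (F i) n := by
  unfold av
  rw [Finset.sum_comm, Finset.sum_div]

/-- Removing a part `ℓ`. -/
theorem av_erase (H : Multiset ℕ → ℚ) {ℓ n : ℕ} (hℓ : 0 < ℓ) (hn : ℓ ≤ n) :
    av (fun s => if ℓ ∈ s then H (s.erase ℓ) else 0) n =
      ∑ μ : (n - ℓ).Partition, H μ.parts / (ℓ * (μ.parts.count ℓ + 1) * zz μ.parts) := by
  rw [avz]
  let e : (n - ℓ).Partition → n.Partition := fun μ =>
    { parts := ℓ ::ₘ μ.parts
      parts_pos := by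
        intro a ha
        rw [Multiset.mem_cons] at ha
        rcases ha with ha | ha
        · omega
        · exact μ.parts_pos ha
      parts_sum := by
        rw [Multiset.sum_cons, μ.parts_sum]
        omega }
  symm
  refine Finset.sum_of_injOn e ?_ ?_ ?_ ?_
  · intro μ _ ν _ h
    have h2 : ℓ ::ₘ μ.parts = ℓ ::ₘ ν.parts := congrArg Nat.Partition.parts h
    exact Nat.Partition.ext ((Multiset.cons_inj_right _).1 h2)
  · intro μ _
    exact Finset.mem_coe.2 (Finset.mem_univ _)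
  · intro μ _ hμ
    have h2 : ℓ ∉ μ.parts := by
      intro hm
      apply hμ
      refine ⟨{ parts := μ.parts.erase ℓ, parts_pos := ?_, parts_sum := ?_ },
        Finset.mem_coe.2 (Finset.mem_univ _), ?_⟩
      · intro a ha
        exact μ.parts_pos (Multiset.mem_of_mem_erase ha)
      · have h3 := Multiset.sum_erase hm
        rw [μ.parts_sum] at h3
        omega
      · exact Nat.Partition.ext (Multiset.cons_erase hm)
    rw [if_neg h2, zero_div]
  · intro μ _
    show H μ.parts / (ℓ * (μ.parts.count ℓ + 1) * zz μ.parts) =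
      (if ℓ ∈ ℓ ::ₘ μ.parts then H ((ℓ ::ₘ μ.parts).erase ℓ) else 0) / (zz (ℓ ::ₘ μ.parts) : ℚ)
    rw [if_pos (Multiset.mem_cons_self _ _), Multiset.erase_cons_head, zcons]
    push_cast
    rfl

theorem zz_pos {s : Multiset ℕ} (hs : ∀ a ∈ s, 0 < a) : 0 < zz s := by
  unfold zz
  refine Nat.mul_pos ?_ (Finset.prod_pos fun a _ => Nat.factorial_pos _)
  exact Nat.pos_of_ne_zero (Multiset.prod_ne_zero fun h => (hs 0 h).ne rfl)

theorem av_erase_eq (H : Multiset ℕ → ℚ) {ℓ n : ℕ} (hℓ : 0 < ℓ) (hn : ℓ ≤ n) (hH : ∀ t, ℓ ∈ t → H t = 0) :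
    av (fun s => if ℓ ∈ s then H (s.erase ℓ) else 0) n = av H (n - ℓ) / ℓ := by
  rw [av_erase H hℓ hn, avz, Finset.sum_div]
  refine Finset.sum_congr rfl fun μ _ => ?_
  by_cases h : ℓ ∈ μ.parts
  · rw [hH _ h]; simp
  · rw [Multiset.count_eq_zero_of_notMem h, Nat.cast_zero, zero_add, mul_one, div_div, mul_comm (ℓ : ℚ)]

theorem av_one (n : ℕ) : av (fun _ => 1) n = 1 := by
  unfold av
  rw [Finset.sum_const, Finset.card_univ, Fintype.card_perm, Fintype.card_fin, nsmul_eq_mul, mul_one]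
  exact div_self (Nat.cast_ne_zero.2 n.factorial_ne_zero)

theorem av_mem_le {ℓ : ℕ} (hℓ : 0 < ℓ) (n : ℕ) : av (fun s => if ℓ ∈ s then 1 else 0) n ≤ 1 / ℓ := by
  have hq : (0 : ℚ) < ℓ := by exact_mod_cast hℓ
  by_cases hn : ℓ ≤ n
  · rw [av_erase (fun _ => 1) hℓ hn]
    have h1 := av_one (n - ℓ)
    rw [avz] at h1
    refine le_trans ?_ (le_of_eq (congrArg (· / (ℓ : ℚ)) h1))
    show _ ≤ (∑ μ : (n - ℓ).Partition, (1 : ℚ) / zz μ.parts) / ℓ
    rw [Finset.sum_div]
    refine Finset.sum_le_sum fun μ _ => ?_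
    have hz : (0 : ℚ) < zz μ.parts := by exact_mod_cast zz_pos fun a ha => μ.parts_pos ha
    have hc : (0 : ℚ) ≤ (μ.parts.count ℓ : ℚ) := by positivity
    show (1 : ℚ) / (ℓ * (μ.parts.count ℓ + 1) * zz μ.parts) ≤ 1 / (zz μ.parts) / ℓ
    rw [div_div]
    exact one_div_le_one_div_of_le (mul_pos hz hq) (by nlinarith [mul_nonneg (mul_nonneg hq.le hc) hz.le])
  · rw [avz, Finset.sum_eq_zero]
    · positivity
    · intro μ _
      rw [if_neg, zero_div]
      intro h
      have := Multiset.le_sum_of_mem h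
      rw [μ.parts_sum] at this
      exact hn this

/-- The sign of a permutation with the cycle lengths `s`. -/
def sg1 (s : Multiset ℕ) : ℚ := (s.map fun a => (-1 : ℚ) ^ (a + 1)).prod

theorem sg1_cons (a : ℕ) (s : Multiset ℕ) : sg1 (a ::ₘ s) = (-1 : ℚ) ^ (a + 1) * sg1 s := by
  unfold sg1
  rw [Multiset.map_cons, Multiset.prod_cons]

theorem sg1_or (s : Multiset ℕ) : sg1 s = 1 ∨ sg1 s = -1 := by
  induction s using Multiset.induction with
  | empty => left; simp [sg1]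
  | cons a s ih =>
    rw [sg1_cons]
    rcases neg_one_pow_eq_or ℚ (a + 1) with h | h <;> rcases ih with h' | h' <;> rw [h, h'] <;> norm_num

/-- The sum of the signs is zero. -/
theorem av_sg1 {n : ℕ} (hn : 2 ≤ n) : av sg1 n = 0 := by
  unfold av
  have h0 : ∀ σ : Perm (Fin n), sg1 σ.partition.parts = ((Perm.sign σ : ℤ) : ℚ) := fun σ => sgn σ
  rw [Finset.sum_congr rfl fun σ _ => h0 σ]
  have : NeZero n := ⟨by omega⟩
  set τ : Perm (Fin n) := swap ⟨0, by omega⟩ ⟨1, by omega⟩ with hτ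
  have h1 : Perm.sign τ = -1 := Perm.sign_swap (by simp [Fin.ext_iff])
  have h2 : ∑ σ : Perm (Fin n), ((Perm.sign (τ * σ) : ℤ) : ℚ) = ∑ σ : Perm (Fin n), ((Perm.sign σ : ℤ) : ℚ) :=
    Equiv.sum_comp (Equiv.mulLeft τ) fun σ => ((Perm.sign σ : ℤ) : ℚ)
  have h3 : ∑ σ : Perm (Fin n), ((Perm.sign (τ * σ) : ℤ) : ℚ) = - ∑ σ : Perm (Fin n), ((Perm.sign σ : ℤ) : ℚ) := by
    rw [← Finset.sum_neg_distrib]
    refine Finset.sum_congr rfl fun σ _ => ?_
    rw [Perm.sign_mul, h1]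
    push_cast
    ring
  have h4 : ∑ σ : Perm (Fin n), ((Perm.sign σ : ℤ) : ℚ) = 0 := by linarith
  rw [h4, zero_div]

/-- The indicator function: a part divisible by each `p ∈ J`, and no part `p, 2 p, 3 p, 4 p` for the other `p ∈ P`. -/
noncomputable def AA (P J : Finset ℕ) (s : Multiset ℕ) : ℚ :=
  open Classical in
  if (∀ p ∈ J, ∃ a ∈ s, p ∣ a) ∧ (∀ p ∈ P, p ∉ J → ∀ b ∈ Finset.Icc 1 4, b * p ∉ s) then 1 else 0

theorem AA_or (P J : Finset ℕ) (s : Multiset ℕ) : AA P J s = 0 ∨ AA P J s = 1 := by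
  unfold AA
  split_ifs
  · exact Or.inr rfl
  · exact Or.inl rfl

theorem AA_one {P J : Finset ℕ} {s : Multiset ℕ} (h : AA P J s ≠ 0) :
    (∀ p ∈ J, ∃ a ∈ s, p ∣ a) ∧ (∀ p ∈ P, p ∉ J → ∀ b ∈ Finset.Icc 1 4, b * p ∉ s) := by
  by_contra h'
  unfold AA at h
  rw [if_neg h'] at h
  exact h rfl

theorem AA_eq {P J : Finset ℕ} {s : Multiset ℕ}
    (h : (∀ p ∈ J, ∃ a ∈ s, p ∣ a) ∧ (∀ p ∈ P, p ∉ J → ∀ b ∈ Finset.Icc 1 4, b * p ∉ s)) : AA P J s = 1 := by
  unfold AA
  rw [if_pos h]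

private theorem dis {p q b c : ℕ} (hp : p.Prime) (hq : q.Prime) (hq4 : 4 < q) (hpq : p ≠ q) (hb : b ∈ Finset.Icc 1 4) :
    b * p ≠ c * q := by
  intro h
  rw [Finset.mem_Icc] at hb
  have h1 : q ∣ b * p := ⟨c, by rw [h, mul_comm]⟩
  rcases hq.dvd_mul.1 h1 with h2 | h2
  · have := Nat.le_of_dvd (by omega) h2
    omega
  · exact hpq ((Nat.prime_dvd_prime_iff_eq hq hp).1 h2).symm

/-- The base of the induction. -/
theorem one_base (P : Finset ℕ) (hP : ∀ p ∈ P, p.Prime ∧ 4 < p) {e : ℚ} (he : e = 1 ∨ e = -1) {n : ℕ} (hn : 2 ≤ n) :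
    1 - 25 / 6 * ∑ p ∈ P, (1 : ℚ) / p ≤ av (fun s => AA P ∅ s * (1 + e * sg1 s)) n := by
  classical
  have h1 : av (fun s => (1 + e * sg1 s) - 2 * ∑ p ∈ P, ∑ b ∈ Finset.Icc 1 4, (if b * p ∈ s then (1 : ℚ) else 0)) n ≤
      av (fun s => AA P ∅ s * (1 + e * sg1 s)) n := by
    refine av_mono fun s _ => ?_
    have hnn : ∀ p ∈ P, ∀ b ∈ Finset.Icc 1 4, (0 : ℚ) ≤ (if b * p ∈ s then (1 : ℚ) else 0) := fun p _ b _ => by
      split_ifs <;> norm_num
    have hle : 1 + e * sg1 s ≤ 2 ∧ 0 ≤ 1 + e * sg1 s := by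
      rcases sg1_or s with h | h <;> rcases he with h' | h' <;> rw [h, h'] <;> norm_num
    by_cases h : ∀ p ∈ P, p ∉ (∅ : Finset ℕ) → ∀ b ∈ Finset.Icc 1 4, b * p ∉ s
    · rw [AA_eq ⟨fun p hp => absurd hp (Finset.notMem_empty p), h⟩, one_mul]
      have : (0 : ℚ) ≤ ∑ p ∈ P, ∑ b ∈ Finset.Icc 1 4, (if b * p ∈ s then (1 : ℚ) else 0) :=
        Finset.sum_nonneg fun p hp => Finset.sum_nonneg fun b hb => hnn p hp b hb
      linarith
    · have h0 : 0 ≤ AA P ∅ s * (1 + e * sg1 s) := by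
        rcases AA_or P ∅ s with h' | h' <;> rw [h'] <;> linarith [hle.2]
      push Not at h
      obtain ⟨p, hp, -, b, hb, hs⟩ := h
      have h2 : (1 : ℚ) ≤ ∑ p ∈ P, ∑ b ∈ Finset.Icc 1 4, (if b * p ∈ s then (1 : ℚ) else 0) := by
        calc (1 : ℚ) = (if b * p ∈ s then (1 : ℚ) else 0) := by rw [if_pos hs]
          _ ≤ ∑ b ∈ Finset.Icc 1 4, (if b * p ∈ s then (1 : ℚ) else 0) :=
              Finset.single_le_sum (f := fun b => if b * p ∈ s then (1 : ℚ) else 0) (fun b hb => hnn p hp b hb) hb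
          _ ≤ _ := Finset.single_le_sum (f := fun p => ∑ b ∈ Finset.Icc 1 4, (if b * p ∈ s then (1 : ℚ) else 0))
              (fun p hp => Finset.sum_nonneg fun b hb => hnn p hp b hb) hp
      linarith
  refine le_trans ?_ h1
  have h2 : av (fun s => (1 + e * sg1 s) - 2 * ∑ p ∈ P, ∑ b ∈ Finset.Icc 1 4, (if b * p ∈ s then (1 : ℚ) else 0)) n =
      av (fun _ => 1) n + e * av sg1 n - 2 * ∑ p ∈ P, ∑ b ∈ Finset.Icc 1 4, av (fun s => if b * p ∈ s then (1 : ℚ) else 0) n := by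
    have h3 : ∑ p ∈ P, ∑ b ∈ Finset.Icc 1 4, av (fun s => if b * p ∈ s then (1 : ℚ) else 0) n =
        av (fun s => ∑ p ∈ P, ∑ b ∈ Finset.Icc 1 4, (if b * p ∈ s then (1 : ℚ) else 0)) n := by
      rw [av_sum]
      exact Finset.sum_congr rfl fun p _ => (av_sum _ _ n).symm
    rw [h3]
    unfold av
    rw [Finset.sum_sub_distrib, Finset.sum_add_distrib, ← Finset.mul_sum, ← Finset.mul_sum]
    ring
  rw [h2, av_one, av_sg1 hn]
  have h4 : ∑ p ∈ P, ∑ b ∈ Finset.Icc 1 4, av (fun s => if b * p ∈ s then (1 : ℚ) else 0) n ≤ 25 / 12 * ∑ p ∈ P, (1 : ℚ) / p := by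
    rw [Finset.mul_sum]
    refine Finset.sum_le_sum fun p hp => ?_
    have hp0 : 0 < p := (hP p hp).1.pos
    have hq : (0 : ℚ) < p := by exact_mod_cast hp0
    calc ∑ b ∈ Finset.Icc 1 4, av (fun s => if b * p ∈ s then (1 : ℚ) else 0) n
        ≤ ∑ b ∈ Finset.Icc 1 4, (1 : ℚ) / ((b * p : ℕ) : ℚ) := Finset.sum_le_sum fun b hb =>
          av_mem_le (Nat.mul_pos (Finset.mem_Icc.1 hb).1 hp0) n
      _ = 25 / 12 * (1 / p) := by
        rw [show Finset.Icc 1 4 = ({1, 2, 3, 4} : Finset ℕ) from rfl]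
        simp only [Finset.mem_insert, Finset.mem_singleton, OfNat.one_ne_ofNat, or_self, not_false_eq_true,
          Finset.sum_insert, Nat.cast_mul, Nat.cast_one, one_mul, Nat.cast_ofNat, Nat.reduceEqDiff, Finset.sum_singleton]
        field_simp
        norm_num
  linarith

/-- The induction. -/
theorem one_ind (P : Finset ℕ) (hP : ∀ p ∈ P, p.Prime ∧ 4 < p) (J : Finset ℕ) : J ⊆ P → ∀ {e : ℚ}, (e = 1 ∨ e = -1) → ∀ {n : ℕ},
    4 * ∑ p ∈ J, p + 2 ≤ n →
    (∏ p ∈ J, (25 / 12 : ℚ) / p) * (1 - 25 / 6 * ∑ p ∈ P, (1 : ℚ) / p) ≤ av (fun s => AA P J s * (1 + e * sg1 s)) n := by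
  classical
  induction J using Finset.induction_on with
  | empty =>
    intro _ e he n hn
    rw [Finset.prod_empty, one_mul]
    exact one_base P hP he (by simpa using hn)
  | insert p J hpJ ih =>
    intro hJ e he n hn
    have hpP : p ∈ P := hJ (Finset.mem_insert_self p J)
    have hJP : J ⊆ P := fun q hq => hJ (Finset.mem_insert_of_mem hq)
    have hp := hP p hpP
    have hp0 : 0 < p := hp.1.pos
    have hq : (0 : ℚ) < p := by exact_mod_cast hp0
    rw [Finset.sum_insert hpJ] at hn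
    let H : ℕ → Multiset ℕ → ℚ := fun b t => AA P J t * (1 + (e * (-1) ^ (b * p + 1)) * sg1 t)
    have hH : ∀ b ∈ Finset.Icc 1 4, ∀ t, b * p ∈ t → H b t = 0 := by
      intro b hb t ht
      have : AA P J t = 0 := by
        by_contra h
        exact (AA_one h).2 p hpP hpJ b hb ht
      show AA P J t * _ = 0
      rw [this, zero_mul]
    have h1 : ∀ s : Multiset ℕ, ∑ b ∈ Finset.Icc 1 4, (if b * p ∈ s then H b (s.erase (b * p)) else 0) ≤
        AA P (insert p J) s * (1 + e * sg1 s) := by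
      intro s
      have hle : 0 ≤ 1 + e * sg1 s := by
        rcases sg1_or s with h | h <;> rcases he with h' | h' <;> rw [h, h'] <;> norm_num
      have h0 : 0 ≤ AA P (insert p J) s * (1 + e * sg1 s) := by
        rcases AA_or P (insert p J) s with h' | h' <;> rw [h'] <;> linarith
      have hHe : ∀ b, b * p ∈ s → H b (s.erase (b * p)) = AA P J (s.erase (b * p)) * (1 + e * sg1 s) := by
        intro b hb
        have h2 := sg1_cons (b * p) (s.erase (b * p))
        rw [Multiset.cons_erase hb] at h2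
        show AA P J (s.erase (b * p)) * (1 + (e * (-1) ^ (b * p + 1)) * sg1 (s.erase (b * p))) = _
        rw [h2]
        ring
      by_cases h : ∃ b ∈ Finset.Icc 1 4, b * p ∈ s ∧ AA P J (s.erase (b * p)) ≠ 0
      · obtain ⟨b, hb, hbs, hA⟩ := h
        have hA1 := AA_one hA
        have hA2 := (AA_or P J (s.erase (b * p))).resolve_left hA
        have hmem : ∀ q b', b' * q ≠ b * p → b' * q ∈ s → b' * q ∈ s.erase (b * p) := fun q b' hne hm =>
          (Multiset.mem_erase_of_ne hne).2 hm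
        rw [Finset.sum_eq_single b]
        · rw [if_pos hbs, hHe b hbs, hA2, AA_eq]
          refine ⟨?_, ?_⟩
          · intro q hq
            rcases Finset.mem_insert.1 hq with rfl | hq
            · exact ⟨b * q, hbs, Dvd.intro_left b rfl⟩
            · obtain ⟨a, ha, hqa⟩ := hA1.1 q hq
              exact ⟨a, Multiset.mem_of_mem_erase ha, hqa⟩
          · intro q hqP hqJ b' hb' hm
            rw [Finset.mem_insert, not_or] at hqJ
            have hne : b' * q ≠ b * p := dis (hP q hqP).1 hp.1 hp.2 hqJ.1 hb'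
            exact hA1.2 q hqP hqJ.2 b' hb' (hmem q b' hne hm)
        · intro b' hb' hne
          rw [if_neg]
          intro hm
          have hne' : b' * p ≠ b * p := fun h => hne (Nat.eq_of_mul_eq_mul_right hp0 h)
          exact hA1.2 p hpP hpJ b' hb' (hmem p b' hne' hm)
        · intro h
          exact absurd hb h
      · push Not at h
        refine le_trans (le_of_eq (Finset.sum_eq_zero fun b hb => ?_)) h0
        by_cases hbs : b * p ∈ s
        · rw [if_pos hbs, hHe b hbs, h b hb hbs, zero_mul]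
        · rw [if_neg hbs]
    refine le_trans ?_ (av_mono fun s _ => h1 s)
    rw [av_sum]
    have h2 : ∀ b ∈ Finset.Icc 1 4, (∏ p ∈ J, (25 / 12 : ℚ) / p) * (1 - 25 / 6 * ∑ p ∈ P, (1 : ℚ) / p) / ((b * p : ℕ) : ℚ) ≤
        av (fun s => if b * p ∈ s then H b (s.erase (b * p)) else 0) n := by
      intro b hb
      have hb' := Finset.mem_Icc.1 hb
      have hbp : 0 < b * p := Nat.mul_pos hb'.1 hp0
      have hbp4 : b * p ≤ 4 * p := Nat.mul_le_mul_right p hb'.2
      rw [av_erase_eq (H b) hbp (by omega) (hH b hb)]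
      refine div_le_div_of_nonneg_right ?_ (Nat.cast_nonneg _)
      refine ih hJP ?_ (by omega)
      rcases neg_one_pow_eq_or ℚ (b * p + 1) with h | h <;> rcases he with h' | h' <;> rw [h, h'] <;> norm_num
    refine le_trans (le_of_eq ?_) (Finset.sum_le_sum h2)
    rw [Finset.prod_insert hpJ, show Finset.Icc 1 4 = ({1, 2, 3, 4} : Finset ℕ) from rfl]
    simp only [Finset.mem_insert, Finset.mem_singleton, OfNat.one_ne_ofNat, or_self, not_false_eq_true,
      Finset.sum_insert, Nat.cast_mul, Nat.cast_one, one_mul, Nat.cast_ofNat, Nat.reduceEqDiff, Finset.sum_singleton]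
    generalize (∏ p ∈ J, (25 / 12 : ℚ) / p) = c
    generalize (1 - 25 / 6 * ∑ p ∈ P, (1 : ℚ) / p) = d
    field_simp
    ring

end Pool.Agent.EgO
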