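import Pool.Agent.EgO.Star
import Pool.Agent.EgO.Mer

/-!
# Elements with small centralizers
-/

set_option autoImplicit false

namespace Pool.Agent.EgO

/-- The sum of the reciprocals of the divisors `≥ T` of a number with prime divisors `≤ y`. -/
theorem tail_le {N y T : ℕ} (hN : N ≠ 0) (h : ∀ p, p.Prime → p ∣ N → p ≤ y) (L : Finset ℕ)
    (hL : ∀ d ∈ L, 0 < d ∧ d < T ∧ ∀ p, p.Prime → p ∣ d → p ≤ y) :
    ∑ d ∈ N.divisors.filter (fun d => T ≤ d), (1 : ℚ) / d ≤ M y - ∑ d ∈ L, (1 : ℚ) / d := by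
  classical
  have hL0 : ∏ d ∈ L, d ≠ 0 := Finset.prod_ne_zero_iff.2 fun d hd => (hL d hd).1.ne'
  have hN' : N * ∏ d ∈ L, d ≠ 0 := mul_ne_zero hN hL0
  have h1 : ∀ p, p.Prime → p ∣ N * ∏ d ∈ L, d → p ≤ y := by
    intro p hp hd
    rcases hp.dvd_mul.1 hd with h2 | h2
    · exact h p hp h2
    · obtain ⟨d, hd1, hd2⟩ := (Prime.dvd_finsetProd_iff hp.prime _).1 h2
      exact (hL d hd1).2.2 p hp hd2
  have h2 : ∑ d ∈ (N * ∏ d ∈ L, d).divisors, (1 : ℚ) / d ≤ M y := (sg hN').trans (pm h1)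
  have hdisj : Disjoint (N.divisors.filter (fun d => T ≤ d)) L := by
    rw [Finset.disjoint_left]
    intro d hd hdL
    have := (Finset.mem_filter.1 hd).2
    have := (hL d hdL).2.1
    omega
  have h3 : N.divisors.filter (fun d => T ≤ d) ∪ L ⊆ (N * ∏ d ∈ L, d).divisors := by
    intro d hd
    rw [Nat.mem_divisors]
    rcases Finset.mem_union.1 hd with hd | hd
    · exact ⟨Dvd.dvd.mul_right (Nat.mem_divisors.1 (Finset.mem_filter.1 hd).1).1 _, hN'⟩
    · exact ⟨Dvd.dvd.mul_left (Finset.dvd_prod_of_mem _ hd) _, hN'⟩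
  have h4 : ∑ d ∈ N.divisors.filter (fun d => T ≤ d) ∪ L, (1 : ℚ) / d ≤ ∑ d ∈ (N * ∏ d ∈ L, d).divisors, (1 : ℚ) / d :=
    Finset.sum_le_sum_of_subset_of_nonneg h3 fun _ _ _ => by positivity
  rw [Finset.sum_union hdisj] at h4
  linarith

theorem small {G : Type*} [Group G] [Finite G] (hG : Ah G) {y T : ℕ} (h : ∀ p, p.Prime → p ∣ Nat.card G → p ≤ y)
    (L : Finset ℕ) (hL : ∀ d ∈ L, 0 < d ∧ d < T ∧ ∀ p, p.Prime → p ∣ d → p ≤ y) :
    (Nat.card {g : G // T ≤ Nat.card (Subgroup.centralizer {g})} : ℚ) ≤ Nat.card G * (M y - ∑ d ∈ L, (1 : ℚ) / d) := by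
  classical
  have h1 := cent hG {d : ℕ | T ≤ d}
  refine h1.trans (mul_le_mul_of_nonneg_left ?_ (Nat.cast_nonneg _))
  have h2 := tail_le (T := T) (Nat.card_pos (α := G)).ne' h L hL
  refine le_trans (le_of_eq ?_) h2
  exact Finset.sum_congr (by ext d; simp) fun _ _ => rfl

/-- The divisors of a power of `R` below `T`. -/
def smooth (R T : ℕ) : Finset ℕ := (Finset.range T).filter fun d => d ∣ R ^ 10 ∧ 0 < d

theorem smooth_spec {R T y : ℕ} (hR : ∀ p, p.Prime → p ∣ R → p ≤ y) :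
    ∀ d ∈ smooth R T, 0 < d ∧ d < T ∧ ∀ p, p.Prime → p ∣ d → p ≤ y := by
  intro d hd
  rw [smooth, Finset.mem_filter, Finset.mem_range] at hd
  exact ⟨hd.2.2, hd.1, fun p hp hpd => hR p hp (hp.dvd_of_dvd_pow (hpd.trans hd.2.1))⟩

/-- More than `1 - v` of the elements have centralizers of order `< T`. -/
theorem small_of {G : Type*} [Group G] [Finite G] (hG : Ah G) {y R T : ℕ} {v : ℚ}
    (hR : ∀ p, p.Prime → p ∣ R → p ≤ y) (hv : M y - ∑ d ∈ smooth R T, (1 : ℚ) / d < v)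
    (h : ∀ p, p.Prime → p ∣ Nat.card G → p ≤ y) :
    (Nat.card {g : G // T ≤ Nat.card (Subgroup.centralizer {g})} : ℚ) < v * Nat.card G := by
  have h1 := small hG h _ (smooth_spec (T := T) hR)
  have h2 : (0 : ℚ) < Nat.card G := by exact_mod_cast Nat.card_pos
  nlinarith

private noncomputable def invHom : ℕ →* ℝ where
  toFun n := (n : ℝ)⁻¹
  map_one' := by simp
  map_mul' a b := by push_cast; rw [mul_inv]

/-- The reciprocals of the numbers with prime divisors `≤ y` have the sum `M y`. -/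
theorem exists_L (y : ℕ) {ε : ℚ} (hε : 0 < ε) :
    ∃ L : Finset ℕ, (∀ d ∈ L, 0 < d ∧ ∀ p, p.Prime → p ∣ d → p ≤ y) ∧ M y - ∑ d ∈ L, (1 : ℚ) / d < ε := by
  classical
  have h1 := (EulerProduct.summable_and_hasSum_smoothNumbers_prod_primesBelow_geometric (f := invHom) (by
    intro p hp
    show ‖((p : ℝ))⁻¹‖ < 1
    rw [norm_inv, Real.norm_natCast]
    exact inv_lt_one_of_one_lt₀ (by exact_mod_cast hp.one_lt)) (y + 1)).2
  have hM : (∏ p ∈ (y + 1).primesBelow, (1 - invHom p)⁻¹ : ℝ) = ((M y : ℚ) : ℝ) := by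
    rw [M, Rat.cast_prod]
    refine Finset.prod_congr rfl fun p hp => ?_
    have hp2 : (2 : ℝ) ≤ p := by exact_mod_cast (Nat.prime_of_mem_primesBelow hp).two_le
    show (1 - ((p : ℝ))⁻¹)⁻¹ = _
    push_cast
    have h3 : (p : ℝ) ≠ 0 := by linarith
    have h4 : (p : ℝ) - 1 ≠ 0 := by linarith
    field_simp
  rw [hM] at h1
  have h2 : ∀ᶠ s : Finset ((y + 1).smoothNumbers) in Filter.atTop, ((M y : ℚ) : ℝ) - (ε : ℝ) < ∑ m ∈ s, invHom m :=
    h1.eventually_const_lt (by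
      have : (0 : ℝ) < ε := by exact_mod_cast hε
      linarith)
  obtain ⟨s, hs⟩ := h2.exists
  refine ⟨s.map ⟨Subtype.val, Subtype.val_injective⟩, ?_, ?_⟩
  · intro d hd
    rw [Finset.mem_map] at hd
    obtain ⟨m, -, rfl⟩ := hd
    have hm := m.2
    refine ⟨Nat.pos_of_ne_zero (Nat.ne_zero_of_mem_smoothNumbers hm), fun p hp hpd => ?_⟩
    have := Nat.mem_smoothNumbers'.1 hm p hp hpd
    omega
  · rw [Finset.sum_map]
    have h3 : ((M y - ∑ m ∈ s, (1 : ℚ) / ((⟨Subtype.val, Subtype.val_injective⟩ : (y + 1).smoothNumbers ↪ ℕ) m : ℕ) : ℚ) : ℝ) < ε := by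
      push_cast
      have h4 : ∑ m ∈ s, invHom m = ∑ m ∈ s, (1 : ℝ) / ((m : ℕ) : ℝ) :=
        Finset.sum_congr rfl fun m _ => by
          show (((m : ℕ) : ℝ))⁻¹ = _
          rw [one_div]
      rw [h4] at hs
      simp only [Function.Embedding.coeFn_mk]
      linarith
    exact_mod_cast h3

/-- For a given bound of the prime divisors all but a small proportion of the elements have centralizers of bounded order. -/
theorem small_all (y : ℕ) {ε : ℚ} (hε : 0 < ε) : ∃ T : ℕ, ∀ (G : Type) [Group G] [Finite G], Ah G →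
    (∀ p, p.Prime → p ∣ Nat.card G → p ≤ y) →
    (Nat.card {g : G // T ≤ Nat.card (Subgroup.centralizer {g})} : ℚ) < ε * Nat.card G := by
  obtain ⟨L, hL, hε2⟩ := exists_L y hε
  refine ⟨L.sup id + 1, fun G _ _ hG h => ?_⟩
  have h1 := small (T := L.sup id + 1) hG h L fun d hd =>
    ⟨(hL d hd).1, Nat.lt_succ_of_le (Finset.le_sup (f := id) hd), (hL d hd).2⟩
  have h2 : (0 : ℚ) < Nat.card G := by exact_mod_cast Nat.card_pos
  nlinarith

end Pool.Agent.EgO
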